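import Mathlib

set_option autoImplicit false

/-!
Sums of products of periodic functions with coprime periods.
-/

namespace Pool.Agent.Lib.MP_d5700b_nt

open Finset

/-- `f` has period `q`. -/
def Per (f : ℕ → ℝ) (q : ℕ) : Prop := ∀ t, f (t % q) = f t

lemma Per.mul_add {f : ℕ → ℝ} {q : ℕ} (hf : Per f q) (a t : ℕ) : f (q * a + t) = f t := by
  rw [← hf (q * a + t), ← hf t, Nat.mul_add_mod]

lemma Per.of_dvd {f : ℕ → ℝ} {q r : ℕ} (hf : Per f q) (h : q ∣ r) : Per f r := by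
  intro t
  rw [← hf (t % r), Nat.mod_mod_of_dvd _ h, hf]

lemma Per.mul {f g : ℕ → ℝ} {q : ℕ} (hf : Per f q) (hg : Per g q) : Per (fun t => f t * g t) q :=
  fun t => by simp only [hf t, hg t]

lemma sum_range_mul_per {f : ℕ → ℝ} {q : ℕ} (hf : Per f q) (a : ℕ) :
    ∑ t ∈ range (q * a), f t = a * ∑ t ∈ range q, f t := by
  induction a with
  | zero => simp
  | succ a ih =>
    rw [Nat.mul_succ, sum_range_add, ih]
    simp only [hf.mul_add]
    push_cast
    ring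

lemma sum_coprime {f g : ℕ → ℝ} {a b : ℕ} (hf : Per f a) (hg : Per g b) (hab : Nat.Coprime a b)
    (ha : a ≠ 0) (hb : b ≠ 0) :
    ∑ t ∈ range (a * b), f t * g t = (∑ t ∈ range a, f t) * ∑ t ∈ range b, g t := by
  rw [sum_mul_sum, ← sum_product']
  refine sum_nbij' (fun t => (t % a, t % b))
    (fun x => (Nat.chineseRemainder hab x.1 x.2 : ℕ)) ?_ ?_ ?_ ?_ ?_
  · intro t _
    simp only [mem_product, mem_range]
    exact ⟨Nat.mod_lt _ (Nat.pos_of_ne_zero ha), Nat.mod_lt _ (Nat.pos_of_ne_zero hb)⟩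
  · intro x _
    exact mem_range.mpr (Nat.chineseRemainder_lt_mul hab _ _ ha hb)
  · intro t ht
    have h1 := (Nat.chineseRemainder hab (t % a) (t % b)).prop
    have h2 : t ≡ t % a [MOD a] := (Nat.mod_modEq t a).symm
    have h3 : t ≡ t % b [MOD b] := (Nat.mod_modEq t b).symm
    have h4 : (Nat.chineseRemainder hab (t % a) (t % b) : ℕ) ≡ t [MOD (a * b)] := by
      rw [← Nat.modEq_and_modEq_iff_modEq_mul hab]
      exact ⟨h1.1.trans h2.symm, h1.2.trans h3.symm⟩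
    have h5 : (Nat.chineseRemainder hab (t % a) (t % b) : ℕ) < a * b :=
      Nat.chineseRemainder_lt_mul hab _ _ ha hb
    exact Nat.ModEq.eq_of_lt_of_lt h4 h5 (mem_range.mp ht)
  · intro x hx
    obtain ⟨h1, h2⟩ := mem_product.mp hx
    have h3 := (Nat.chineseRemainder hab x.1 x.2).prop
    apply Prod.ext
    · exact Eq.trans h3.1 (Nat.mod_eq_of_lt (mem_range.mp h1))
    · exact Eq.trans h3.2 (Nat.mod_eq_of_lt (mem_range.mp h2))
  · intro t _
    simp only [hf t, hg t]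

lemma per_prod (U : Finset ℕ) (q : ℕ → ℕ) (h : ℕ → ℕ → ℝ) (hper : ∀ u ∈ U, Per (h u) (q u)) :
    Per (fun t => ∏ u ∈ U, h u t) (∏ u ∈ U, q u) := by
  intro t
  apply prod_congr rfl
  intro u hu
  exact (hper u hu).of_dvd (dvd_prod_of_mem q hu) t

/-- The complete sum factors. -/
lemma sum_prod_complete (U : Finset ℕ) (q : ℕ → ℕ) (h : ℕ → ℕ → ℝ)
    (hper : ∀ u ∈ U, Per (h u) (q u)) (hq : ∀ u ∈ U, q u ≠ 0)
    (hcop : ∀ u ∈ U, ∀ v ∈ U, u ≠ v → Nat.Coprime (q u) (q v)) :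
    ∑ t ∈ range (∏ u ∈ U, q u), ∏ u ∈ U, h u t = ∏ u ∈ U, ∑ t ∈ range (q u), h u t := by
  classical
  induction U using Finset.induction_on with
  | empty => simp
  | insert v U hv ih =>
    have ih' := ih (fun u hu => hper u (mem_insert_of_mem hu))
      (fun u hu => hq u (mem_insert_of_mem hu))
      (fun u hu w hw => hcop u (mem_insert_of_mem hu) w (mem_insert_of_mem hw))
    rw [prod_insert hv, prod_insert hv, ← ih']
    simp only [prod_insert hv]
    apply sum_coprime (hper v (mem_insert_self _ _))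
      (per_prod U q h (fun u hu => hper u (mem_insert_of_mem hu)))
    · apply Nat.Coprime.prod_right
      intro u hu
      exact hcop v (mem_insert_self _ _) u (mem_insert_of_mem hu) (by rintro rfl; exact hv hu)
    · exact hq v (mem_insert_self _ _)
    · exact prod_ne_zero_iff.mpr (fun u hu => hq u (mem_insert_of_mem hu))

/-- Incomplete sums are close to their expected value. -/
theorem sum_prod_approx (U : Finset ℕ) (q : ℕ → ℕ) (h : ℕ → ℕ → ℝ)
    (hper : ∀ u ∈ U, Per (h u) (q u)) (hq : ∀ u ∈ U, q u ≠ 0)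
    (hcop : ∀ u ∈ U, ∀ v ∈ U, u ≠ v → Nat.Coprime (q u) (q v))
    (hb : ∀ u ∈ U, ∀ t, |h u t| ≤ 1) (T : ℕ) :
    |∑ t ∈ range T, ∏ u ∈ U, h u t - T * ∏ u ∈ U, ((∑ t ∈ range (q u), h u t) / q u)| ≤
      2 * ∏ u ∈ U, (q u : ℝ) := by
  classical
  set Q := ∏ u ∈ U, q u with hQ
  have hQ0 : Q ≠ 0 := prod_ne_zero_iff.mpr hq
  have hQpos : (0 : ℝ) < Q := by exact_mod_cast Nat.pos_of_ne_zero hQ0
  have hQcast : ∏ u ∈ U, (q u : ℝ) = Q := by rw [hQ]; push_cast; rfl
  set F : ℕ → ℝ := fun t => ∏ u ∈ U, h u t with hF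
  have hFper : Per F Q := per_prod U q h hper
  have hFb : ∀ t, |F t| ≤ 1 := by
    intro t
    rw [hF]
    simp only
    rw [abs_prod]
    exact prod_le_one (fun _ _ => abs_nonneg _) (fun u hu => hb u hu t)
  have hcomp := sum_prod_complete U q h hper hq hcop
  rw [← hQ] at hcomp
  have hmean : ∏ u ∈ U, ((∑ t ∈ range (q u), h u t) / q u) = (∑ t ∈ range Q, F t) / Q := by
    rw [prod_div_distrib, hQcast, ← hcomp]
  rw [hmean, hQcast]
  set s := ∑ t ∈ range Q, F t with hs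
  have hsb : |s| ≤ Q := by
    calc |s| ≤ ∑ t ∈ range Q, |F t| := abs_sum_le_sum_abs _ _
      _ ≤ ∑ _t ∈ range Q, (1 : ℝ) := sum_le_sum (fun t _ => hFb t)
      _ = Q := by simp
  have hT : T = Q * (T / Q) + T % Q := (Nat.div_add_mod T Q).symm
  have hsum : ∑ t ∈ range T, F t = (T / Q : ℕ) * s + ∑ t ∈ range (T % Q), F t := by
    conv_lhs => rw [hT, sum_range_add, sum_range_mul_per hFper]
    simp only [hFper.mul_add]
    rfl
  have hrem : |∑ t ∈ range (T % Q), F t| ≤ Q := by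
    calc |∑ t ∈ range (T % Q), F t| ≤ ∑ t ∈ range (T % Q), |F t| := abs_sum_le_sum_abs _ _
      _ ≤ ∑ _t ∈ range (T % Q), (1 : ℝ) := sum_le_sum (fun t _ => hFb t)
      _ = (T % Q : ℕ) := by simp
      _ ≤ Q := by exact_mod_cast (Nat.mod_lt _ (Nat.pos_of_ne_zero hQ0)).le
  have hTr : (T : ℝ) = Q * (T / Q : ℕ) + (T % Q : ℕ) := by exact_mod_cast hT
  have key : ∑ t ∈ range T, F t - T * (s / Q) =
      ∑ t ∈ range (T % Q), F t - (T % Q : ℕ) * (s / Q) := by
    rw [hsum]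
    conv_lhs => rw [hTr]
    field_simp
    ring
  change |∑ t ∈ range T, F t - T * (s / Q)| ≤ _
  rw [key]
  have h2 : |((T % Q : ℕ) : ℝ) * (s / Q)| ≤ Q := by
    rw [abs_mul, abs_div, abs_of_nonneg hQpos.le, Nat.abs_cast]
    have h3 : |s| / Q ≤ 1 := by rw [div_le_one hQpos]; exact hsb
    have h4 : ((T % Q : ℕ) : ℝ) ≤ Q := by exact_mod_cast (Nat.mod_lt _ (Nat.pos_of_ne_zero hQ0)).le
    calc ((T % Q : ℕ) : ℝ) * (|s| / Q) ≤ Q * 1 := by gcongr
      _ = Q := mul_one _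
  calc |∑ t ∈ range (T % Q), F t - (T % Q : ℕ) * (s / Q)| ≤
      |∑ t ∈ range (T % Q), F t| + |((T % Q : ℕ) : ℝ) * (s / Q)| := abs_sub _ _
    _ ≤ Q + Q := add_le_add hrem h2
    _ = 2 * Q := by ring

end Pool.Agent.Lib.MP_d5700b_nt
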