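import Pool.Agent.Lib.MP_d5700b_nt.Build

set_option autoImplicit false

/-!
The asymptotic bound.
-/

namespace Pool.Agent.Lib.MP_d5700b_nt

open Finset Real

lemma card_Fam_le (𝒢 : Finset ℕ) (M : ℕ) : (Fam 𝒢 M).card ≤ 2 ^ 𝒢.card := by
  rw [← card_powerset]
  exact card_filter_le _ _

lemma PP_card_le (k : ℕ) : (PP k).card ≤ k := by
  have h1 : PP k ⊆ Icc 1 k := by
    intro p hp
    obtain ⟨h1, h2⟩ := mem_PP.mp hp
    exact mem_Icc.mpr ⟨h2.one_le, h1⟩
  calc (PP k).card ≤ (Icc 1 k).card := card_le_card h1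
    _ = k := by simp

lemma La_sub (k J : ℕ) : La k J ⊆ PP k := filter_subset _ _

lemma GG_sub (k J : ℕ) : GG k J ⊆ La k J := filter_subset _ _

lemma sum_log_PP (k : ℕ) : ∑ p ∈ PP k, Real.log p ≤ Real.log 4 * k := by
  have h1 := Chebyshev.theta_le_log4_mul_x (x := (k : ℝ)) (Nat.cast_nonneg _)
  rw [Chebyshev.theta_eq_sum_Icc] at h1
  refine le_trans (le_of_eq ?_) h1
  rw [Nat.floor_natCast]
  apply sum_congr _ (fun _ _ => rfl)
  ext p
  simp [PP]

/-- The basic deterministic estimate. -/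
theorem bound_core {k J : ℕ} {δ P : ℝ} (hJ : 2 ≤ J) (hk : J * J < k)
    (hδ0 : 0 < δ) (hδ1 : δ ≤ 1) (hL : 1 ≤ Real.log k)
    (hP : P = Real.exp (-(3 / 10 * δ ^ 2 * (k / Real.log k)))) (hP1 : P * (8 * k) ≤ 1)
    (hs : ((La k J).card : ℝ) * (J * J) ≤ k / 2) :
    ∃ m, k + 2 ≤ m ∧ (∀ p, p.Prime → p ∣ m.choose k → k < p) ∧
      Real.log m ≤ Real.log (QQ k J) + 2 * (∑ p ∈ GG k J, ((k % p : ℕ) / p : ℝ) * Real.log p) +
        2 * δ * k + (GG k J).card * Real.log 4 + 4 * Real.log k + 10 := by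
  have hk2 : 4 < k := by nlinarith
  have hkR : (0 : ℝ) < k := by exact_mod_cast (by omega : 0 < k)
  have hk1R : (1 : ℝ) ≤ k := by exact_mod_cast (by omega : 1 ≤ k)
  set L := Real.log k with hLdef
  set A := ∑ p ∈ GG k J, ((k % p : ℕ) / p : ℝ) * Real.log p with hA
  set c : ℕ → ℕ := fun p => k % p with hc
  have hlogp : ∀ p ∈ PP k, 0 ≤ Real.log p ∧ Real.log p ≤ L := by
    intro p hp
    obtain ⟨h1, h2⟩ := mem_PP.mp hp
    refine ⟨Real.log_nonneg (by exact_mod_cast h2.one_le), ?_⟩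
    exact Real.log_le_log (by exact_mod_cast h2.pos) (by exact_mod_cast h1)
  have hGP : ∀ p ∈ GG k J, p ∈ PP k := fun p hp => La_sub k J (GG_sub k J hp)
  have hbhalf : ∀ p ∈ GG k J, 0 ≤ ((c p : ℕ) / p : ℝ) ∧ ((c p : ℕ) / p : ℝ) ≤ 1 / 2 := by
    intro p hp
    obtain ⟨⟨⟨h1, h2⟩, h3⟩, h4⟩ := mem_GG.mp hp
    have hp0 : (0 : ℝ) < p := by exact_mod_cast h2.pos
    refine ⟨by positivity, ?_⟩
    rw [div_le_div_iff₀ hp0 (by norm_num)]
    have h5 : ((2 * (k % p) : ℕ) : ℝ) ≤ p := by exact_mod_cast h4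
    push_cast at h5
    linarith
  have hA0 : 0 ≤ A := sum_nonneg (fun p hp => mul_nonneg (hbhalf p hp).1 (hlogp p (hGP p hp)).1)
  set M := ⌈Real.exp (A + δ * k)⌉₊ with hM
  have hexp1 : 1 ≤ Real.exp (A + δ * k) := Real.one_le_exp (by positivity)
  have hMge : Real.exp (A + δ * k) ≤ M := Nat.le_ceil _
  have hM1 : 1 ≤ M := by
    have : (1 : ℝ) ≤ M := hexp1.trans hMge
    exact_mod_cast this
  have hMle : (M : ℝ) ≤ 2 * Real.exp (A + δ * k) := by
    have := (Nat.ceil_lt_add_one (Real.exp_nonneg (A + δ * k))).le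
    linarith
  have hlogM : A + δ * k ≤ Real.log M := by
    rw [← Real.log_exp (A + δ * k)]
    exact Real.log_le_log (Real.exp_pos _) hMge
  have hlogM2 : Real.log M ≤ Real.log 2 + (A + δ * k) := by
    calc Real.log M ≤ Real.log (2 * Real.exp (A + δ * k)) :=
          Real.log_le_log (by exact_mod_cast hM1) hMle
      _ = _ := by rw [Real.log_mul (by norm_num) (Real.exp_pos _).ne', Real.log_exp]
  -- the data
  have D : Data (GG k J) (fun p t => p ≤ QQ k J * (t + 1) % p + k % p) c := by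
    refine ⟨?_, ?_, ?_, ?_⟩
    · intro p hp
      exact (mem_GG.mp hp).1.1.2
    · intro p hp
      exact (mem_GG.mp hp).2
    · intro p _ t
      have : QQ k J * (t % p + 1) % p = QQ k J * (t + 1) % p :=
        Nat.ModEq.mul_left _ ((Nat.mod_modEq t p).add_right 1)
      simp only [this]
    · intro p hp
      have h1 := (mem_GG.mp hp).1.1.2.pos
      convert card_bad h1 (coprime_QQ hp) (Nat.mod_lt k h1).le
  set C₀ := ∏ p ∈ GG k J, (1 + β c p) with hC₀
  have hC₀1 : 1 ≤ C₀ := D.one_le_total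
  have htot := Ain_add_Aout (GG k J) c M
  rw [← hC₀] at htot
  -- Chernoff
  have hAout : Aout (GG k J) c M ≤ C₀ * P := by
    have h1 := D.Aout_le hM1 (l := δ / 2 / L) (by positivity) (by
      intro p hp
      have := (hlogp p (hGP p hp)).2
      have hLpos : 0 < L := by linarith
      rw [div_mul_eq_mul_div, div_le_one hLpos]
      nlinarith [(hlogp p (hGP p hp)).1])
    refine h1.trans ?_
    apply mul_le_mul_of_nonneg_left _ (by linarith)
    rw [hP]
    apply Real.exp_le_exp.mpr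
    have hLpos : 0 < L := by linarith
    have h2 : ∑ p ∈ GG k J, ((c p : ℕ) / p : ℝ) * Real.log p ^ 2 ≤ 7 / 10 * (k * L) := by
      calc ∑ p ∈ GG k J, ((c p : ℕ) / p : ℝ) * Real.log p ^ 2 ≤
            ∑ p ∈ GG k J, (1 / 2) * (L * Real.log p) := by
            apply sum_le_sum
            intro p hp
            obtain ⟨h3, h4⟩ := hlogp p (hGP p hp)
            apply mul_le_mul (hbhalf p hp).2 _ (sq_nonneg _) (by norm_num)
            rw [sq]
            exact mul_le_mul_of_nonneg_right h4 h3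
        _ ≤ ∑ p ∈ PP k, (1 / 2) * (L * Real.log p) := by
            apply sum_le_sum_of_subset_of_nonneg (fun p hp => hGP p hp)
            intro p hp _
            have := (hlogp p hp).1
            positivity
        _ = (1 / 2) * L * ∑ p ∈ PP k, Real.log p := by
            rw [mul_sum]
            apply sum_congr rfl
            intro p _
            ring
        _ ≤ (1 / 2) * L * (Real.log 4 * k) := by
            apply mul_le_mul_of_nonneg_left (sum_log_PP k) (by positivity)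
        _ ≤ 7 / 10 * (k * L) := by
            have h5 : Real.log 4 ≤ 14 / 10 := by
              have h6 : Real.log 4 = 2 * Real.log 2 := by
                rw [show (4 : ℝ) = 2 ^ 2 by norm_num, Real.log_pow]
                norm_num
              rw [h6]
              have := Real.log_two_lt_d9
              linarith
            have h7 : 0 ≤ k * L := by positivity
            nlinarith
    have h3 : δ * k ≤ Real.log M - A := by linarith
    have h4 : δ / 2 / L * (δ * k) ≤ δ / 2 / L * (Real.log M - A) :=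
      mul_le_mul_of_nonneg_left h3 (by positivity)
    have h5 : (δ / 2 / L) ^ 2 * ∑ p ∈ GG k J, ((c p : ℕ) / p : ℝ) * Real.log p ^ 2 ≤
        (δ / 2 / L) ^ 2 * (7 / 10 * (k * L)) := mul_le_mul_of_nonneg_left h2 (sq_nonneg _)
    have h6 : (δ / 2 / L) ^ 2 * (7 / 10 * (k * L)) = 7 / 40 * δ ^ 2 * (k / L) := by
      field_simp
      ring
    have h7 : δ / 2 / L * (δ * k) = 1 / 2 * δ ^ 2 * (k / L) := by
      field_simp
    have h8 : 0 ≤ δ ^ 2 * (k / L) := by positivity
    have h9 : ∑ p ∈ GG k J, ((c p : ℕ) / p : ℝ) * Real.log p = A := rfl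
    rw [h9]
    linarith
  have hP0 : 0 ≤ P := by rw [hP]; exact Real.exp_nonneg _
  have hP8 : P ≤ 1 / 8 := by nlinarith
  -- number of primes
  set n := (GG k J).card with hn
  have hnk : (n : ℝ) ≤ k := by
    have : n ≤ k := (card_le_card ((GG_sub k J).trans (La_sub k J))).trans (PP_card_le k)
    exact_mod_cast this
  have hnP : n * P ≤ 1 / 8 := by nlinarith
  have hsum : ∑ q ∈ La k J, (J / q : ℝ) ≤ 1 / 2 := by
    have h1 : ∀ q ∈ La k J, (J / q : ℝ) ≤ J * J / k := by
      intro q hq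
      obtain ⟨⟨h1, h2⟩, h3⟩ := mem_La.mp hq
      have hq0 : (0 : ℝ) < q := by exact_mod_cast h2.pos
      rw [div_le_div_iff₀ hq0 hkR]
      have h4 : (k : ℝ) ≤ J * q := by exact_mod_cast h3.le
      have h5 : (0 : ℝ) ≤ J := Nat.cast_nonneg _
      nlinarith
    calc ∑ q ∈ La k J, (J / q : ℝ) ≤ ∑ _q ∈ La k J, ((J : ℝ) * J / k) := sum_le_sum h1
      _ = ((La k J).card : ℝ) * (J * J) / k := by
          rw [sum_const, nsmul_eq_mul]
          ring
      _ ≤ (k / 2) / k := by gcongr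
      _ = 1 / 2 := by field_simp
  have hmain : (1 / 4 : ℝ) ≤ Ain (GG k J) c M * (1 - ∑ q ∈ La k J, (J / q : ℝ)) -
      n * Aout (GG k J) c M := by
    have h1 : C₀ * (1 - P) ≤ Ain (GG k J) c M := by nlinarith
    have h2 : C₀ * (7 / 8) ≤ Ain (GG k J) c M := by nlinarith
    have h3 : n * Aout (GG k J) c M ≤ C₀ * (1 / 8) := by
      have hn0 : (0 : ℝ) ≤ n := Nat.cast_nonneg _
      calc n * Aout (GG k J) c M ≤ n * (C₀ * P) := mul_le_mul_of_nonneg_left hAout hn0
        _ = C₀ * (n * P) := by ring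
        _ ≤ C₀ * (1 / 8) := mul_le_mul_of_nonneg_left hnP (by linarith)
    have h4 : C₀ * (7 / 8) * (1 / 2) ≤
        Ain (GG k J) c M * (1 - ∑ q ∈ La k J, (J / q : ℝ)) := by
      apply mul_le_mul h2 (by linarith) (by norm_num)
      have : 0 ≤ C₀ * (7 / 8) := by positivity
      linarith
    nlinarith
  set T := 24 * (4 ^ n * M ^ 2 * k ^ 3) + 1 with hT
  have hW : ((Fam (GG k J) M).card : ℝ) ^ 2 * (2 * (M : ℝ) ^ 2) *
        (1 + ∑ q ∈ GG k J, (q : ℝ) + ∑ q ∈ La k J, (q : ℝ) ^ 2) <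
      T * (Ain (GG k J) (fun p => k % p) M * (1 - ∑ q ∈ La k J, (J / q : ℝ)) -
        (GG k J).card * Aout (GG k J) (fun p => k % p) M) := by
    have h1 : ((Fam (GG k J) M).card : ℝ) ^ 2 ≤ 4 ^ n := by
      have h2 : ((Fam (GG k J) M).card : ℝ) ≤ 2 ^ n := by exact_mod_cast card_Fam_le (GG k J) M
      calc ((Fam (GG k J) M).card : ℝ) ^ 2 ≤ (2 ^ n) ^ 2 := by gcongr
        _ = 4 ^ n := by rw [← pow_mul, mul_comm, pow_mul]; norm_num
    have hLak : ((La k J).card : ℝ) ≤ k := by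
      exact_mod_cast (card_le_card (La_sub k J)).trans (PP_card_le k)
    have h2 : ∑ q ∈ GG k J, (q : ℝ) ≤ k ^ 3 := by
      calc ∑ q ∈ GG k J, (q : ℝ) ≤ ∑ _q ∈ GG k J, (k : ℝ) := by
            apply sum_le_sum
            intro q hq
            exact_mod_cast (mem_GG.mp hq).1.1.1
        _ = n * k := by rw [sum_const, nsmul_eq_mul]
        _ ≤ k * k := by gcongr
        _ ≤ k * k * k := by nlinarith
        _ = k ^ 3 := by ring
    have h3 : ∑ q ∈ La k J, (q : ℝ) ^ 2 ≤ k ^ 3 := by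
      calc ∑ q ∈ La k J, (q : ℝ) ^ 2 ≤ ∑ _q ∈ La k J, (k : ℝ) ^ 2 := by
            apply sum_le_sum
            intro q hq
            have : (q : ℝ) ≤ k := by exact_mod_cast (mem_La.mp hq).1.1
            gcongr
        _ = (La k J).card * (k : ℝ) ^ 2 := by rw [sum_const, nsmul_eq_mul]
        _ ≤ k * k ^ 2 := by gcongr
        _ = k ^ 3 := by ring
    have h4 : (1 : ℝ) ≤ k ^ 3 := one_le_pow₀ hk1R
    calc ((Fam (GG k J) M).card : ℝ) ^ 2 * (2 * (M : ℝ) ^ 2) *
          (1 + ∑ q ∈ GG k J, (q : ℝ) + ∑ q ∈ La k J, (q : ℝ) ^ 2) ≤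
        4 ^ n * (2 * (M : ℝ) ^ 2) * (k ^ 3 + k ^ 3 + k ^ 3) := by gcongr
      _ = (24 * (4 ^ n * (M : ℝ) ^ 2 * k ^ 3)) * (1 / 4) := by ring
      _ < T * (1 / 4) := by
          rw [hT]
          push_cast
          linarith
      _ ≤ _ := mul_le_mul_of_nonneg_left hmain (Nat.cast_nonneg _)
  obtain ⟨N, hN2, hNle, hN⟩ := construct hJ hk hW
  refine ⟨N + k, by omega, ?_, ?_⟩
  · intro p hp hdvd
    by_contra hcon
    exact hN p hp (not_lt.mp hcon) hdvd
  · have hN0 : (0 : ℝ) < N := by exact_mod_cast (by omega : 0 < N)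
    have hMpos : (0 : ℝ) < M := by exact_mod_cast hM1
    have hQ0 : (0 : ℝ) < QQ k J := by exact_mod_cast QQ_pos k J
    have h1 : ((N + k : ℕ) : ℝ) ≤ QQ k J * (25 * (4 ^ n * (M : ℝ) ^ 2 * k ^ 3)) * (2 * k) := by
      have h2 : (N : ℝ) ≤ QQ k J * T := by exact_mod_cast hNle
      have h3 : (T : ℝ) ≤ 25 * (4 ^ n * (M : ℝ) ^ 2 * k ^ 3) := by
        rw [hT]
        push_cast
        have h4 : (1 : ℝ) ≤ 4 ^ n * (M : ℝ) ^ 2 * k ^ 3 := by
          have a1 : (1 : ℝ) ≤ 4 ^ n := one_le_pow₀ (by norm_num)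
          have a2 : (1 : ℝ) ≤ (M : ℝ) ^ 2 := one_le_pow₀ (by exact_mod_cast hM1)
          have a3 : (1 : ℝ) ≤ k ^ 3 := one_le_pow₀ hk1R
          calc (1 : ℝ) = 1 * 1 * 1 := by norm_num
            _ ≤ _ := by gcongr
        linarith
      have h5 : ((N + k : ℕ) : ℝ) ≤ N * (2 * k) := by
        push_cast
        have h6 : (2 : ℝ) ≤ N := by exact_mod_cast hN2
        nlinarith
      calc ((N + k : ℕ) : ℝ) ≤ N * (2 * k) := h5
        _ ≤ (QQ k J * T) * (2 * k) := by gcongr
        _ ≤ QQ k J * (25 * (4 ^ n * (M : ℝ) ^ 2 * k ^ 3)) * (2 * k) := by gcongr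
    have hNk : (0 : ℝ) < ((N + k : ℕ) : ℝ) := by exact_mod_cast (by omega : 0 < N + k)
    have h2 := Real.log_le_log hNk h1
    have h4n : (0 : ℝ) < 4 ^ n := by positivity
    have hexpand : Real.log (QQ k J * (25 * (4 ^ n * (M : ℝ) ^ 2 * k ^ 3)) * (2 * k)) =
        Real.log (QQ k J) + (Real.log 25 + (n * Real.log 4 + 2 * Real.log M + 3 * L)) +
          (Real.log 2 + L) := by
      rw [Real.log_mul (by positivity) (by positivity), Real.log_mul (by positivity) (by positivity),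
        Real.log_mul (by norm_num) (by positivity), Real.log_mul (by positivity) (by positivity),
        Real.log_mul (by positivity) (by positivity), Real.log_mul (by norm_num) hkR.ne',
        Real.log_pow, Real.log_pow, Real.log_pow]
      push_cast
      ring
    rw [hexpand] at h2
    have hl2 := Real.log_two_lt_d9
    have hl25 : Real.log 25 ≤ 5 := by
      have h6 : Real.log 25 ≤ Real.log (2 ^ 5) := Real.log_le_log (by norm_num) (by norm_num)
      rw [Real.log_pow] at h6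
      push_cast at h6
      linarith
    linarith

end Pool.Agent.Lib.MP_d5700b_nt
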