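import Pool.Agent.Lib.MP_d5700b_nt.Weights

set_option autoImplicit false

/-!
The contribution of the bad residues.
-/

namespace Pool.Agent.Lib.MP_d5700b_nt

open Finset

variable {𝒢 : Finset ℕ} {bad : ℕ → ℕ → Prop} {c : ℕ → ℕ}

/-- The sign. -/
noncomputable def sg (q : ℕ) (S : Finset ℕ) : ℝ := if q ∈ S then -1 else 1

lemma sum_fibre (F : Finset (Finset ℕ)) (𝒢 : Finset ℕ) (hF : ∀ S ∈ F, S ⊆ 𝒢) (q : ℕ)
    (w : Finset ℕ → ℝ) (s : Finset ℕ → ℝ) :
    ∑ S ∈ F, ∑ S' ∈ F, (if S.erase q = S'.erase q then w (S.erase q) else 0) * (s S * s S') =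
      ∑ V ∈ (𝒢.erase q).powerset, w V * (∑ S ∈ F.filter (fun S => S.erase q = V), s S) ^ 2 := by
  classical
  have h1 : ∀ V, w V * (∑ S ∈ F.filter (fun S => S.erase q = V), s S) ^ 2 =
      ∑ S ∈ F, ∑ S' ∈ F, (if S.erase q = V then (if S'.erase q = V then w V * (s S * s S') else 0)
        else 0) := by
    intro V
    rw [sq, sum_mul_sum, mul_sum, sum_filter]
    apply sum_congr rfl
    intro S _
    split_ifs with h
    · rw [mul_sum, sum_filter]
    · simp
  rw [sum_congr rfl (fun V _ => h1 V)]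
  symm
  rw [sum_comm]
  apply sum_congr rfl
  intro S hS
  rw [sum_comm]
  apply sum_congr rfl
  intro S' hS'
  have h2 : S.erase q ∈ (𝒢.erase q).powerset := by
    rw [mem_powerset]
    exact erase_subset_erase q (hF S hS)
  rw [sum_ite_eq, if_pos h2]
  by_cases h3 : S.erase q = S'.erase q
  · rw [if_pos h3, if_pos h3.symm]
  · rw [if_neg h3, if_neg (Ne.symm h3), zero_mul]

lemma fibre_sq_le {M q : ℕ} (hq : 1 ≤ q) {V : Finset ℕ}
    (hV : V ∈ (𝒢.erase q).powerset) (hqG : q ∈ 𝒢) :
    (∑ S ∈ (Fam 𝒢 M).filter (fun S => S.erase q = V), sg q S) ^ 2 ≤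
      if ∏ p ∈ insert q V, p ≤ M then 0 else 1 := by
  classical
  rw [mem_powerset] at hV
  have hqV : q ∉ V := fun h => notMem_erase q 𝒢 (hV h)
  have hVG : V ⊆ 𝒢 := hV.trans (erase_subset _ _)
  have h0 : ∀ S, S.erase q = V → S = V ∨ S = insert q V := by
    intro S hS
    by_cases h : q ∈ S
    · right
      rw [← hS, insert_erase h]
    · left
      rw [← hS, erase_eq_of_notMem h]
  split_ifs with h1
  · -- both sets are admissible
    have hiF : insert q V ∈ Fam 𝒢 M := mem_Fam.mpr ⟨insert_subset hqG hVG, h1⟩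
    have hVF : V ∈ Fam 𝒢 M := by
      refine mem_Fam.mpr ⟨hVG, ?_⟩
      rw [prod_insert hqV] at h1
      exact (Nat.le_mul_of_pos_left _ hq).trans h1
    have h2 : (Fam 𝒢 M).filter (fun S => S.erase q = V) = {V, insert q V} := by
      ext S
      rw [mem_filter, mem_insert, mem_singleton]
      constructor
      · rintro ⟨_, h⟩
        exact h0 S h
      · rintro (rfl | rfl)
        · exact ⟨hVF, erase_eq_of_notMem hqV⟩
        · exact ⟨hiF, erase_insert hqV⟩
    have h3 : V ≠ insert q V := by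
      intro h
      apply hqV
      rw [h]
      exact mem_insert_self _ _
    rw [h2, sum_pair h3]
    simp [sg, hqV]
  · -- only one set can be admissible
    have h2 : (Fam 𝒢 M).filter (fun S => S.erase q = V) ⊆ {V} := by
      intro S hS
      obtain ⟨h3, h4⟩ := mem_filter.mp hS
      rcases h0 S h4 with h5 | h5
      · exact mem_singleton.mpr h5
      · rw [h5] at h3
        exact absurd (mem_Fam.mp h3).2 h1
    rcases subset_singleton_iff.mp h2 with h3 | h3
    · rw [h3]
      simp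
    · rw [h3, sum_singleton]
      simp [sg, hqV]

variable (D : Data 𝒢 bad c)
include D

lemma Data.out_bound (M : ℕ) {q : ℕ} (hqG : q ∈ 𝒢) :
    ∑ S ∈ Fam 𝒢 M, ∑ S' ∈ Fam 𝒢 M,
      (if S.erase q = S'.erase q then ∏ p ∈ S.erase q, β c p else 0) *
        ((c q / q : ℝ) * (sg q S * sg q S')) ≤ Aout 𝒢 c M := by
  classical
  have hq := D.prime q hqG
  have hq0 : (0 : ℝ) < q := by exact_mod_cast hq.pos
  have h1 := sum_fibre (Fam 𝒢 M) 𝒢 (fun S hS => (mem_Fam.mp hS).1) q
    (fun V => (c q / q : ℝ) * ∏ p ∈ V, β c p) (sg q)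
  have h2 : ∑ S ∈ Fam 𝒢 M, ∑ S' ∈ Fam 𝒢 M,
      (if S.erase q = S'.erase q then ∏ p ∈ S.erase q, β c p else 0) *
        ((c q / q : ℝ) * (sg q S * sg q S')) =
      ∑ V ∈ (𝒢.erase q).powerset, ((c q / q : ℝ) * ∏ p ∈ V, β c p) *
        (∑ S ∈ (Fam 𝒢 M).filter (fun S => S.erase q = V), sg q S) ^ 2 := by
    rw [← h1]
    apply sum_congr rfl
    intro S _
    apply sum_congr rfl
    intro S' _
    split_ifs <;> ring
  rw [h2]
  have hβ : ∀ V ⊆ 𝒢, 0 ≤ ∏ p ∈ V, β c p := fun V hV =>
    prod_nonneg (fun p hp => D.β_nonneg (hV hp))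
  have hcq : (c q / q : ℝ) ≤ β c q := by
    unfold β
    have h3 := D.sub_pos hqG
    apply div_le_div_of_nonneg_left (Nat.cast_nonneg _) h3
    have : (0 : ℝ) ≤ c q := Nat.cast_nonneg _
    linarith
  calc ∑ V ∈ (𝒢.erase q).powerset, ((c q / q : ℝ) * ∏ p ∈ V, β c p) *
        (∑ S ∈ (Fam 𝒢 M).filter (fun S => S.erase q = V), sg q S) ^ 2 ≤
      ∑ V ∈ (𝒢.erase q).powerset, (if ∏ p ∈ insert q V, p ≤ M then 0 else
        ∏ p ∈ insert q V, β c p) := by
        apply sum_le_sum
        intro V hV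
        have h4 := fibre_sq_le (M := M) hq.one_le hV hqG
        have hVG : V ⊆ 𝒢 := (mem_powerset.mp hV).trans (erase_subset _ _)
        have hqV : q ∉ V := fun h => notMem_erase q 𝒢 ((mem_powerset.mp hV) h)
        have h5 := hβ V hVG
        have h6 : (0 : ℝ) ≤ c q / q := by positivity
        split_ifs at h4 ⊢ with h7
        · calc _ ≤ ((c q / q : ℝ) * ∏ p ∈ V, β c p) * 0 :=
                mul_le_mul_of_nonneg_left h4 (mul_nonneg h6 h5)
            _ = 0 := mul_zero _
        · calc _ ≤ ((c q / q : ℝ) * ∏ p ∈ V, β c p) * 1 :=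
                mul_le_mul_of_nonneg_left h4 (mul_nonneg h6 h5)
            _ = (c q / q : ℝ) * ∏ p ∈ V, β c p := mul_one _
            _ ≤ β c q * ∏ p ∈ V, β c p := mul_le_mul_of_nonneg_right hcq h5
            _ = _ := by rw [prod_insert hqV]
    _ = ∑ V ∈ (𝒢.erase q).powerset.filter (fun V => ¬ ∏ p ∈ insert q V, p ≤ M),
          ∏ p ∈ insert q V, β c p := by
        rw [sum_filter]
        apply sum_congr rfl
        intro V _
        split_ifs <;> rfl
    _ = ∑ S ∈ ((𝒢.erase q).powerset.filter (fun V => ¬ ∏ p ∈ insert q V, p ≤ M)).image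
          (insert q), ∏ p ∈ S, β c p := by
        rw [sum_image]
        intro V hV V' hV' h
        have hqV : q ∉ V := fun h => notMem_erase q 𝒢
          ((mem_powerset.mp (mem_filter.mp hV).1) h)
        have hqV' : q ∉ V' := fun h => notMem_erase q 𝒢
          ((mem_powerset.mp (mem_filter.mp hV').1) h)
        rw [← erase_insert hqV, ← erase_insert hqV', h]
    _ ≤ Aout 𝒢 c M := by
        unfold Aout
        apply sum_le_sum_of_subset_of_nonneg
        · intro S hS
          obtain ⟨V, hV, rfl⟩ := mem_image.mp hS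
          obtain ⟨h8, h9⟩ := mem_filter.mp hV
          exact mem_Out.mpr ⟨insert_subset hqG ((mem_powerset.mp h8).trans (erase_subset _ _)), h9⟩
        · intro S hS _
          exact hβ S (mem_Out.mp hS).1

/-- The contribution of the bad residues modulo `q`. -/
theorem Data.badTerm (M q : ℕ) (hqG : q ∈ 𝒢) [DecidablePred (bad q)] (T : ℕ) :
    ∑ t ∈ range T, R 𝒢 bad c M t ^ 2 * (if bad q t then 1 else 0) ≤
      T * Aout 𝒢 c M + ((Fam 𝒢 M).card : ℝ) ^ 2 * (2 * (M : ℝ) ^ 2 * q) := by
  classical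
  have hq := D.prime q hqG
  have key := D.approx M q q (fun t => if bad q t then 1 else 0) hq.ne_zero
    (fun p hp hpq => (Nat.coprime_primes hq (D.prime p hp)).mpr (Ne.symm hpq))
    dvd_rfl (by
      intro t
      simp only [D.per q hqG t]) (by intro t; split_ifs <;> simp) T
  have e1 : ∀ S S', (∑ t ∈ range q, H bad c S S' q t * (if bad q t then 1 else 0)) / (q : ℝ) =
      (c q / q : ℝ) * (sg q S * sg q S') := by
    intro S S'
    have e2 : ∀ t, H bad c S S' q t * (if bad q t then (1 : ℝ) else 0) =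
        (sg q S * sg q S') * (if bad q t then 1 else 0) := by
      intro t
      unfold H sg G
      by_cases h : bad q t
      · simp only [if_pos h]
      · simp only [if_neg h, mul_zero]
    rw [sum_congr rfl (fun t _ => e2 t), ← mul_sum, sum_boole]
    have h3 : ((range q).filter (fun t => bad q t)).card = c q := by
      convert D.card q hqG
    rw [h3]
    ring
  rw [sum_congr rfl (fun S _ => sum_congr rfl (fun S' _ => by rw [e1 S S']))] at key
  have h4 := D.out_bound M hqG
  have h5 := (abs_le.mp key).2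
  have hT : (0 : ℝ) ≤ T := Nat.cast_nonneg _
  nlinarith [mul_le_mul_of_nonneg_left h4 hT]

end Pool.Agent.Lib.MP_d5700b_nt
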