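import Pool.Agent.Lib.MP_d5700b_nt.Construct

set_option autoImplicit false

/-!
The construction of the integer.
-/

namespace Pool.Agent.Lib.MP_d5700b_nt

open Finset

/-- The primes up to `k`. -/
def PP (k : ℕ) : Finset ℕ := (range (k + 1)).filter Nat.Prime

/-- The small primes. -/
def Sm (k J : ℕ) : Finset ℕ := (PP k).filter (fun p => J * p ≤ k)

/-- The large primes. -/
def La (k J : ℕ) : Finset ℕ := (PP k).filter (fun p => ¬ J * p ≤ k)

/-- The large primes with few bad residues. -/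
def GG (k J : ℕ) : Finset ℕ := (La k J).filter (fun p => 2 * (k % p) ≤ p)

/-- The other large primes. -/
def NB (k J : ℕ) : Finset ℕ := (La k J).filter (fun p => ¬ 2 * (k % p) ≤ p)

/-- The modulus. -/
def QQ (k J : ℕ) : ℕ := (∏ p ∈ Sm k J, p ^ (Nat.log p k + 1)) * ∏ p ∈ NB k J, p

lemma mem_PP {k p : ℕ} : p ∈ PP k ↔ p ≤ k ∧ p.Prime := by
  simp [PP]

lemma mem_Sm {k J p : ℕ} : p ∈ Sm k J ↔ (p ≤ k ∧ p.Prime) ∧ J * p ≤ k := by
  simp [Sm, mem_PP]

lemma mem_La {k J p : ℕ} : p ∈ La k J ↔ (p ≤ k ∧ p.Prime) ∧ k < J * p := by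
  simp [La, mem_PP]

lemma mem_GG {k J p : ℕ} : p ∈ GG k J ↔ ((p ≤ k ∧ p.Prime) ∧ k < J * p) ∧ 2 * (k % p) ≤ p := by
  simp [GG, mem_La]

lemma mem_NB {k J p : ℕ} : p ∈ NB k J ↔ ((p ≤ k ∧ p.Prime) ∧ k < J * p) ∧ ¬ 2 * (k % p) ≤ p := by
  simp [NB, mem_La]

lemma coprime_QQ {k J p : ℕ} (hp : p ∈ GG k J) : Nat.Coprime (QQ k J) p := by
  obtain ⟨⟨⟨h1, h2⟩, h3⟩, h4⟩ := mem_GG.mp hp
  unfold QQ
  apply Nat.Coprime.mul_left
  · apply Nat.Coprime.prod_left
    intro q hq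
    obtain ⟨⟨h5, h6⟩, h7⟩ := mem_Sm.mp hq
    apply Nat.Coprime.pow_left
    rw [Nat.coprime_primes h6 h2]
    rintro rfl
    omega
  · apply Nat.Coprime.prod_left
    intro q hq
    obtain ⟨⟨⟨h5, h6⟩, h7⟩, h8⟩ := mem_NB.mp hq
    rw [Nat.coprime_primes h6 h2]
    rintro rfl
    exact h8 h4

lemma QQ_eq {k J p : ℕ} (hp : p ∈ NB k J) : ∃ Q', QQ k J = p * Q' ∧ Nat.Coprime Q' p := by
  obtain ⟨⟨⟨h1, h2⟩, h3⟩, h4⟩ := mem_NB.mp hp
  refine ⟨(∏ q ∈ Sm k J, q ^ (Nat.log q k + 1)) * ∏ q ∈ (NB k J).erase p, q, ?_, ?_⟩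
  · unfold QQ
    rw [← mul_prod_erase (NB k J) (fun q => q) hp]
    ring
  · apply Nat.Coprime.mul_left
    · apply Nat.Coprime.prod_left
      intro q hq
      obtain ⟨⟨h5, h6⟩, h7⟩ := mem_Sm.mp hq
      apply Nat.Coprime.pow_left
      rw [Nat.coprime_primes h6 h2]
      rintro rfl
      omega
    · apply Nat.Coprime.prod_left
      intro q hq
      obtain ⟨h8, h9⟩ := mem_erase.mp hq
      obtain ⟨⟨⟨h5, h6⟩, h7⟩, h10⟩ := mem_NB.mp h9
      rw [Nat.coprime_primes h6 h2]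
      exact h8

lemma QQ_pos (k J : ℕ) : 0 < QQ k J := by
  unfold QQ
  apply Nat.mul_pos
  · exact prod_pos (fun q hq => pow_pos (mem_Sm.mp hq).1.2.pos _)
  · exact prod_pos (fun q hq => (mem_NB.mp hq).1.1.2.pos)

theorem construct {k J M T : ℕ} (hJ : 2 ≤ J) (hk : J * J < k)
    (hW : ((Fam (GG k J) M).card : ℝ) ^ 2 * (2 * (M : ℝ) ^ 2) *
        (1 + ∑ q ∈ GG k J, (q : ℝ) + ∑ q ∈ La k J, (q : ℝ) ^ 2) <
      T * (Ain (GG k J) (fun p => k % p) M * (1 - ∑ q ∈ La k J, (J / q : ℝ)) -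
        (GG k J).card * Aout (GG k J) (fun p => k % p) M)) :
    ∃ N, 2 ≤ N ∧ N ≤ QQ k J * T ∧ ∀ p, p.Prime → p ≤ k → ¬ p ∣ (N + k).choose k := by
  classical
  have hJp : ∀ {p}, k < J * p → J ≤ p := by
    intro p h
    by_contra hcon
    push Not at hcon
    have : J * p ≤ J * J := Nat.mul_le_mul_left _ hcon.le
    omega
  have D : Data (GG k J) (fun p t => p ≤ QQ k J * (t + 1) % p + k % p) (fun p => k % p) := by
    refine ⟨?_, ?_, ?_, ?_⟩
    · intro p hp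
      exact (mem_GG.mp hp).1.1.2
    · intro p hp
      exact (mem_GG.mp hp).2
    · intro p _ t
      have : QQ k J * (t % p + 1) % p = QQ k J * (t + 1) % p :=
        Nat.ModEq.mul_left _ ((Nat.mod_modEq t p).add_right 1)
      simp only [this]
    · intro p hp
      have h1 := (mem_GG.mp hp).1.1.2.pos
      convert card_bad h1 (coprime_QQ hp) (Nat.mod_lt k h1).le
  have DD : DigitData (GG k J) (La k J) J
      (fun p t => (p - J) * p ≤ QQ k J * (t + 1) % p ^ 2) := by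
    refine ⟨?_, ?_, ?_, ?_⟩
    · intro p hp
      exact (mem_La.mp hp).1.2
    · intro p _ t
      have : QQ k J * (t % p ^ 2 + 1) % p ^ 2 = QQ k J * (t + 1) % p ^ 2 :=
        Nat.ModEq.mul_left _ ((Nat.mod_modEq t (p ^ 2)).add_right 1)
      simp only [this]
    · intro p hp hpG r hr
      obtain ⟨⟨h1, h2⟩, h3⟩ := mem_La.mp hp
      convert card_digit h2.pos (coprime_QQ hpG) (hJp h3) hr
    · intro p hp hpG
      obtain ⟨⟨h1, h2⟩, h3⟩ := mem_La.mp hp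
      have hpN : p ∈ NB k J := by
        rw [mem_NB]
        refine ⟨⟨⟨h1, h2⟩, h3⟩, ?_⟩
        intro h4
        exact hpG (mem_GG.mpr ⟨⟨⟨h1, h2⟩, h3⟩, h4⟩)
      obtain ⟨Q', hQ', hcop⟩ := QQ_eq hpN
      rw [hQ']
      convert card_digit' h2.pos hcop (hJp h3)
  obtain ⟨t, htT, hgood, hdig⟩ := D.exists_good DD M T hW
  refine ⟨QQ k J * (t + 1), ?_, ?_, ?_⟩
  · have h2 : 2 ∈ Sm k J := by
      rw [mem_Sm]
      refine ⟨⟨by nlinarith, Nat.prime_two⟩, by nlinarith⟩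
    have h3 : 2 ∣ QQ k J := by
      unfold QQ
      apply Dvd.dvd.mul_right
      exact (dvd_pow_self 2 (by omega)).trans (dvd_prod_of_mem (fun p => p ^ (Nat.log p k + 1)) h2)
    have h4 := Nat.le_of_dvd (QQ_pos k J) h3
    calc 2 ≤ QQ k J * 1 := by omega
      _ ≤ _ := Nat.mul_le_mul_left _ (by omega)
  · exact Nat.mul_le_mul_left _ (by omega)
  · intro p hp hpk
    by_cases h1 : J * p ≤ k
    · have h2 : p ∈ Sm k J := mem_Sm.mpr ⟨⟨hpk, hp⟩, h1⟩
      apply not_dvd_small (a := Nat.log p k + 1) hp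
      · apply Dvd.dvd.mul_right
        unfold QQ
        apply Dvd.dvd.mul_right
        exact dvd_prod_of_mem (fun p => p ^ (Nat.log p k + 1)) h2
      · exact Nat.lt_pow_succ_log_self hp.one_lt k
    · push Not at h1
      have hLa : p ∈ La k J := mem_La.mpr ⟨⟨hpk, hp⟩, h1⟩
      apply not_dvd_large hp (hJp h1) h1
      · by_cases h2 : 2 * (k % p) ≤ p
        · have := hgood p (mem_GG.mpr ⟨⟨⟨hpk, hp⟩, h1⟩, h2⟩)
          simp only [not_le] at this
          exact this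
        · obtain ⟨Q', hQ', _⟩ := QQ_eq (mem_NB.mpr ⟨⟨⟨hpk, hp⟩, h1⟩, h2⟩)
          rw [hQ', mul_assoc, Nat.mul_mod_right, zero_add]
          exact Nat.mod_lt _ hp.pos
      · have := hdig p hLa
        simp only [not_le] at this
        exact this

end Pool.Agent.Lib.MP_d5700b_nt
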