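import Pool.Agent.Lib.MP_d5700b_nt.BadTerm

set_option autoImplicit false

/-!
An exponential bound for the mass of the non-admissible sets.
-/

namespace Pool.Agent.Lib.MP_d5700b_nt

open Finset

variable {𝒢 : Finset ℕ} {bad : ℕ → ℕ → Prop} {c : ℕ → ℕ}

lemma Ain_add_Aout (𝒢 : Finset ℕ) (c : ℕ → ℕ) (M : ℕ) :
    Ain 𝒢 c M + Aout 𝒢 c M = ∏ p ∈ 𝒢, (1 + β c p) := by
  classical
  unfold Ain Aout Fam Out
  rw [sum_filter_add_sum_filter_not, prod_one_add]

variable (D : Data 𝒢 bad c)
include D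

lemma Data.one_le_total : 1 ≤ ∏ p ∈ 𝒢, (1 + β c p) := by
  calc (1 : ℝ) = ∏ _p ∈ 𝒢, (1 : ℝ) := by simp
    _ ≤ _ := prod_le_prod (fun _ _ => zero_le_one) (fun p hp => by
        have := D.β_nonneg hp
        linarith)

lemma Data.factor_le {p : ℕ} (hp : p ∈ 𝒢) {x : ℝ} (hx0 : 0 ≤ x) (hx1 : x ≤ 1) :
    1 + β c p * Real.exp x ≤ (1 + β c p) * Real.exp ((c p / p : ℝ) * (x + x ^ 2)) := by
  have h1 := D.sub_pos hp
  have hp0 : (0 : ℝ) < p := by exact_mod_cast (D.prime p hp).pos
  have hexp : Real.exp x ≤ 1 + x + x ^ 2 := by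
    have := Real.abs_exp_sub_one_sub_id_le (x := x) (by rw [abs_of_nonneg hx0]; exact hx1)
    have := (abs_le.mp this).2
    linarith
  have h2 : 1 + β c p = p / ((p : ℝ) - c p) := by
    unfold β
    field_simp
    ring
  have h3 : 0 ≤ β c p := D.β_nonneg hp
  have h4 : (c p / p : ℝ) * (1 + β c p) = β c p := by
    rw [h2]
    unfold β
    field_simp
  have h5 : (c p / p : ℝ) * (x + x ^ 2) + 1 ≤ Real.exp ((c p / p : ℝ) * (x + x ^ 2)) :=
    Real.add_one_le_exp _
  calc 1 + β c p * Real.exp x ≤ 1 + β c p * (1 + x + x ^ 2) := by gcongr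
    _ = (1 + β c p) * ((c p / p : ℝ) * (x + x ^ 2) + 1) := by
        linear_combination (-(x + x ^ 2)) * h4
    _ ≤ _ := mul_le_mul_of_nonneg_left h5 (by linarith)

/-- The Chernoff bound. -/
theorem Data.Aout_le {M : ℕ} (hM : 1 ≤ M) {l : ℝ} (hl : 0 ≤ l)
    (hl1 : ∀ p ∈ 𝒢, l * Real.log p ≤ 1) :
    Aout 𝒢 c M ≤ (∏ p ∈ 𝒢, (1 + β c p)) *
      Real.exp (-(l * (Real.log M - ∑ p ∈ 𝒢, (c p / p : ℝ) * Real.log p)) +
        l ^ 2 * ∑ p ∈ 𝒢, (c p / p : ℝ) * Real.log p ^ 2) := by
  classical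
  have hlog : ∀ p ∈ 𝒢, 0 ≤ Real.log p := fun p hp =>
    Real.log_nonneg (by exact_mod_cast (D.prime p hp).one_le)
  have h1 : Aout 𝒢 c M ≤ ∑ S ∈ 𝒢.powerset, Real.exp (-(l * Real.log M)) *
      ∏ p ∈ S, (β c p * Real.exp (l * Real.log p)) := by
    unfold Aout
    calc ∑ S ∈ Out 𝒢 M, ∏ p ∈ S, β c p ≤ ∑ S ∈ Out 𝒢 M, Real.exp (-(l * Real.log M)) *
          ∏ p ∈ S, (β c p * Real.exp (l * Real.log p)) := by
          apply sum_le_sum
          intro S hS
          obtain ⟨hS1, hS2⟩ := mem_Out.mp hS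
          rw [prod_mul_distrib]
          have h2 : (1 : ℝ) ≤ Real.exp (-(l * Real.log M)) * ∏ p ∈ S, Real.exp (l * Real.log p) := by
            rw [← Real.exp_sum, ← Real.exp_add]
            apply Real.one_le_exp
            rw [← mul_sum]
            have h3 : Real.log M ≤ ∑ p ∈ S, Real.log p := by
              rw [← Real.log_prod (fun p hp => by
                exact_mod_cast (D.prime p (hS1 hp)).ne_zero)]
              apply Real.log_le_log (by exact_mod_cast hM)
              have h4 : M ≤ ∏ p ∈ S, p := (not_le.mp hS2).le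
              have h5 : (M : ℝ) ≤ ((∏ p ∈ S, p : ℕ) : ℝ) := Nat.cast_le.mpr h4
              rwa [Nat.cast_prod] at h5
            nlinarith [mul_le_mul_of_nonneg_left h3 hl]
          have h6 : 0 ≤ ∏ p ∈ S, β c p := prod_nonneg (fun p hp => D.β_nonneg (hS1 hp))
          calc ∏ p ∈ S, β c p = (∏ p ∈ S, β c p) * 1 := (mul_one _).symm
            _ ≤ (∏ p ∈ S, β c p) * (Real.exp (-(l * Real.log M)) *
                ∏ p ∈ S, Real.exp (l * Real.log p)) := mul_le_mul_of_nonneg_left h2 h6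
            _ = _ := by ring
      _ ≤ _ := by
          apply sum_le_sum_of_subset_of_nonneg
          · exact filter_subset _ _
          · intro S hS _
            apply mul_nonneg (Real.exp_nonneg _)
            apply prod_nonneg
            intro p hp
            exact mul_nonneg (D.β_nonneg (mem_powerset.mp hS hp)) (Real.exp_nonneg _)
  refine h1.trans ?_
  rw [← mul_sum, ← prod_one_add]
  calc Real.exp (-(l * Real.log M)) * ∏ p ∈ 𝒢, (1 + β c p * Real.exp (l * Real.log p)) ≤
      Real.exp (-(l * Real.log M)) * ∏ p ∈ 𝒢, ((1 + β c p) *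
        Real.exp ((c p / p : ℝ) * (l * Real.log p + (l * Real.log p) ^ 2))) := by
        apply mul_le_mul_of_nonneg_left _ (Real.exp_nonneg _)
        apply prod_le_prod
        · intro p hp
          have := D.β_nonneg hp
          positivity
        · intro p hp
          exact D.factor_le hp (mul_nonneg hl (hlog p hp)) (hl1 p hp)
    _ = _ := by
        rw [prod_mul_distrib, ← Real.exp_sum, mul_left_comm, ← Real.exp_add]
        congr 2
        have : ∀ p ∈ 𝒢, (c p / p : ℝ) * (l * Real.log p + (l * Real.log p) ^ 2) =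
            l * ((c p / p : ℝ) * Real.log p) + l ^ 2 * ((c p / p : ℝ) * Real.log p ^ 2) := by
          intro p _
          ring
        rw [sum_congr rfl this, sum_add_distrib, ← mul_sum, ← mul_sum]
        ring

end Pool.Agent.Lib.MP_d5700b_nt
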