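import Mathlib

set_option autoImplicit false

/-!
A pigeonhole argument modulo the squares of the primes `p ≤ k`: an integer `m`, not large, such
that all primes `p ≤ k` dividing `m.choose k` satisfy `p < 2 n + k % p`.
-/

namespace Pool.Agent.Lib.MP_d5700b_nt.Comb51

open Finset

theorem small_choose {p a b : ℕ} (hp : p.Prime) (ha : a < p) (hb : b ≤ a) :
    ¬ p ∣ a.choose b := by
  intro h
  have h1 : p ∣ a.factorial := by
    rw [← Nat.choose_mul_factorial_mul_factorial hb]
    exact Dvd.dvd.mul_right (Dvd.dvd.mul_right h _) _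
  have := (hp.dvd_factorial).1 h1
  omega

theorem not_dvd_of_digits {p m k : ℕ} (hp : p.Prime) (hk : k < p * p)
    (h0 : k % p ≤ m % p) (h1 : k / p ≤ m / p % p) : ¬ p ∣ m.choose k := by
  have : Fact p.Prime := ⟨hp⟩
  have hp0 : 0 < p := hp.pos
  have hk1 : k / p < p := Nat.div_lt_of_lt_mul hk
  have a := Choose.choose_modEq_choose_mod_mul_choose_div_nat (n := m) (k := k) (p := p)
  have b := Choose.choose_modEq_choose_mod_mul_choose_div_nat (n := m / p) (k := k / p) (p := p)
  rw [Nat.mod_eq_of_lt hk1, Nat.div_eq_of_lt hk1, Nat.choose_zero_right, mul_one] at b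
  have key : m.choose k ≡ (m % p).choose (k % p) * ((m / p % p).choose (k / p)) [MOD p] :=
    a.trans (b.mul_left _)
  intro h
  have h2 : p ∣ (m % p).choose (k % p) * ((m / p % p).choose (k / p)) :=
    (key.dvd_iff dvd_rfl).1 h
  rcases hp.dvd_mul.1 h2 with h3 | h3
  · exact small_choose hp (Nat.mod_lt _ hp0) h0 h3
  · exact small_choose hp (Nat.mod_lt _ hp0) h1 h3

/-- The comb modulo `p ^ 2`. -/
def comb (p w n : ℕ) : Finset ℕ :=
  ((range (p / w)) ×ˢ (range n)).image (fun x => x.1 * (w * p) + x.2)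

theorem mem_comb {p w n y : ℕ} : y ∈ comb p w n ↔
    ∃ j r, j < p / w ∧ r < n ∧ y = j * (w * p) + r := by
  unfold comb
  simp only [mem_image, mem_product, mem_range, Prod.exists]
  constructor
  · rintro ⟨j, r, ⟨h1, h2⟩, h3⟩
    exact ⟨j, r, h1, h2, h3.symm⟩
  · rintro ⟨j, r, h1, h2, h3⟩
    exact ⟨j, r, ⟨h1, h2⟩, h3.symm⟩

theorem card_comb {p w n : ℕ} (hn : n ≤ w * p) : (comb p w n).card = p / w * n := by
  unfold comb
  rw [card_image_of_injOn, card_product, card_range, card_range]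
  rintro ⟨j, r⟩ hx ⟨j', r'⟩ hy h
  simp only [coe_product, coe_range, Set.mem_prod, Set.mem_Iio] at hx hy
  simp only at h
  have hr : r < w * p := lt_of_lt_of_le hx.2 hn
  have hr' : r' < w * p := lt_of_lt_of_le hy.2 hn
  have h0 : 0 < w * p := by omega
  have e1 : (j * (w * p) + r) / (w * p) = j := by
    rw [mul_comm, Nat.mul_add_div h0, Nat.div_eq_of_lt hr, add_zero]
  have e2 : (j' * (w * p) + r') / (w * p) = j' := by
    rw [mul_comm, Nat.mul_add_div h0, Nat.div_eq_of_lt hr', add_zero]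
  have e3 : j = j' := by rw [← e1, ← e2, h]
  subst e3
  have : r = r' := by omega
  rw [this]

theorem comb_subset {p w n : ℕ} (hn : n ≤ w * p) :
    comb p w n ⊆ range (p * p) := by
  intro y hy
  obtain ⟨j, r, h1, h2, rfl⟩ := mem_comb.1 hy
  rw [mem_range]
  have h3 : (j + 1) * w ≤ p := by
    calc (j + 1) * w ≤ (p / w) * w := Nat.mul_le_mul_right _ h1
      _ ≤ p := Nat.div_mul_le_self _ _
  calc j * (w * p) + r < j * (w * p) + w * p := by omega
    _ = (j + 1) * w * p := by ring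
    _ ≤ p * p := Nat.mul_le_mul_right _ h3

/-- The digits of `a - b - n`. -/
theorem comb_digits {p k n a b t m : ℕ} (hp0 : 0 < p) (hk : k < p * p)
    (hn : 2 * n + k % p ≤ p) (ha : (a + t) % (p * p) ∈ comb p (k / p + 2) n)
    (hb : (b + t) % (p * p) ∈ comb p (k / p + 2) n) (hm : a = b + n + m) :
    k % p ≤ m % p ∧ k / p ≤ m / p % p := by
  obtain ⟨j, r, h1, h2, h3⟩ := mem_comb.1 ha
  obtain ⟨j', r', h1', h2', h3'⟩ := mem_comb.1 hb
  set w := k / p + 2 with hw
  have hw2 : 2 ≤ w := Nat.le_add_left 2 _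
  have hw0 : 0 < w := lt_of_lt_of_le (by norm_num) hw2
  have hkp : k / p < p := Nat.div_lt_of_lt_mul hk
  have hj : (j + 1) * w ≤ p := by
    calc (j + 1) * w ≤ (p / w) * w := Nat.mul_le_mul_right _ h1
      _ ≤ p := Nat.div_mul_le_self _ _
  have hj' : (j' + 1) * w ≤ p := by
    calc (j' + 1) * w ≤ (p / w) * w := Nat.mul_le_mul_right _ h1'
      _ ≤ p := Nat.div_mul_le_self _ _
  -- integers
  have c1 : ((a : ℤ) + t) ≡ j * (w * p) + r [ZMOD (p * p : ℕ)] := by
    have := (Nat.mod_modEq (a + t) (p * p)).symm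
    rw [h3] at this
    have := (Int.natCast_modEq_iff.2 this)
    push_cast at this ⊢
    exact this
  have c2 : ((b : ℤ) + t) ≡ j' * (w * p) + r' [ZMOD (p * p : ℕ)] := by
    have := (Nat.mod_modEq (b + t) (p * p)).symm
    rw [h3'] at this
    have := (Int.natCast_modEq_iff.2 this)
    push_cast at this ⊢
    exact this
  have c3 : (m : ℤ) ≡ ((j : ℤ) - j') * (w * p) + (r - r' - n) [ZMOD (p * p : ℕ)] := by
    have := (c1.sub c2).sub_right (n : ℤ)
    have e1 : (a : ℤ) + t - (b + t) - n = m := by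
      rw [hm]; push_cast; ring
    rw [e1] at this
    refine this.trans ?_
    have e2 : (j : ℤ) * (w * p) + r - (j' * (w * p) + r') - n =
      ((j : ℤ) - j') * (w * p) + (r - r' - n) := by ring
    rw [e2]
  -- the second digit
  obtain ⟨e, he1, he2, he3⟩ : ∃ e : ℕ, k / p ≤ e ∧ e < p ∧
      (((j : ℤ) - j') * w - 1) ≡ e [ZMOD p] := by
    by_cases hjj : j' < j
    · refine ⟨(j - j') * w - 1, ?_, ?_, ?_⟩
      · have : 1 * w ≤ (j - j') * w := Nat.mul_le_mul_right _ (by omega)
        omega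
      · have : (j - j') * w ≤ (j + 1) * w := Nat.mul_le_mul_right _ (by omega)
        have : 1 * w ≤ (j - j') * w := Nat.mul_le_mul_right _ (by omega)
        omega
      · have h5 : 1 ≤ (j - j') * w := by
          have : 1 * w ≤ (j - j') * w := Nat.mul_le_mul_right _ (by omega)
          omega
        have h6 : (((j - j') * w - 1 : ℕ) : ℤ) = ((j : ℤ) - j') * w - 1 := by
          rw [Nat.cast_sub h5, Nat.cast_mul, Nat.cast_sub (by omega)]
          push_cast
          ring
        rw [h6]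
    · refine ⟨p - (j' - j) * w - 1, ?_, ?_, ?_⟩
      · have h5 : (j' - j + 1) * w ≤ (j' + 1) * w := Nat.mul_le_mul_right _ (by omega)
        have h6 : (j' - j + 1) * w = (j' - j) * w + w := by ring
        omega
      · omega
      · have h5 : (j' - j + 1) * w ≤ (j' + 1) * w := Nat.mul_le_mul_right _ (by omega)
        have h6 : (j' - j + 1) * w = (j' - j) * w + w := by ring
        have h7 : ((p - (j' - j) * w - 1 : ℕ) : ℤ) = p + (((j : ℤ) - j') * w - 1) := by
          rw [Nat.sub_sub, Nat.cast_sub (by omega), Nat.cast_add, Nat.cast_mul,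
            Nat.cast_sub (by omega)]
          push_cast
          ring
        rw [h7]
        exact (Int.modEq_iff_dvd.2 ⟨1, by ring⟩)
  -- the first digit
  obtain ⟨f, hf1, hf2, hf3⟩ : ∃ f : ℕ, k % p ≤ f ∧ f < p ∧
      ((r : ℤ) - r' - n) = f - p := by
    refine ⟨p + r - r' - n, ?_, ?_, ?_⟩
    · omega
    · omega
    · omega
  have c4 : (m : ℤ) ≡ ((e * p + f : ℕ) : ℤ) [ZMOD (p * p : ℕ)] := by
    refine c3.trans ?_
    rw [hf3]
    obtain ⟨c, hc⟩ := Int.modEq_iff_dvd.1 he3
    refine Int.modEq_iff_dvd.2 ⟨c, ?_⟩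
    push_cast
    linear_combination (p : ℤ) * hc
  have c5 : m ≡ e * p + f [MOD p * p] := Int.natCast_modEq_iff.1 c4
  have h8 : e * p + f < p * p := by
    calc e * p + f < e * p + p := by omega
      _ = (e + 1) * p := by ring
      _ ≤ p * p := Nat.mul_le_mul_right _ he2
  have c6 : m % (p * p) = e * p + f := by
    have := c5
    unfold Nat.ModEq at this
    rw [this, Nat.mod_eq_of_lt h8]
  have d1 : m % p = f := by
    rw [← Nat.mod_mul_right_mod m p p, c6, mul_comm, Nat.mul_add_mod, Nat.mod_eq_of_lt hf2]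
  have d2 : m / p % p = e := by
    rw [← Nat.mod_mul_right_div_self, c6, mul_comm, Nat.mul_add_div hp0, Nat.div_eq_of_lt hf2,
      add_zero]
  rw [d1, d2]
  exact ⟨hf1, he1⟩

/-- One step of the pigeonhole argument. -/
theorem one_step (A : Finset ℕ) {M : ℕ} (hM : 0 < M) (Y : Finset ℕ) (hY : Y ⊆ range M) :
    ∃ t, A.card * Y.card ≤ M * (A.filter (fun a => (a + t) % M ∈ Y)).card := by
  by_contra hcon
  push Not at hcon
  have h1 : ∑ t ∈ range M, (A.filter (fun a => (a + t) % M ∈ Y)).card =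
      ∑ a ∈ A, ((range M).filter (fun t => (a + t) % M ∈ Y)).card := by
    simp only [card_filter]
    rw [sum_comm]
  have h2 : ∀ a ∈ A, Y.card ≤ ((range M).filter (fun t => (a + t) % M ∈ Y)).card := by
    intro a _
    refine card_le_card_of_injOn (fun y => (y + (M - a % M)) % M) ?_ ?_
    · intro y hy
      have hyM : y < M := mem_range.1 (hY hy)
      simp only [coe_filter, mem_range, Set.mem_ofPred_eq]
      refine ⟨Nat.mod_lt _ hM, ?_⟩
      have h3 : (a + (y + (M - a % M)) % M) % M = y := by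
        have ha : a % M < M := Nat.mod_lt _ hM
        rw [Nat.add_mod, Nat.mod_mod, ← Nat.add_mod, ← Nat.add_mod_mod,
          Nat.add_mod_mod]
        have h4 : a + (y + (M - a % M)) = y + M * (a / M + 1) := by
          have := Nat.div_add_mod a M
          have h5 : M * (a / M + 1) = M * (a / M) + M := by ring
          omega
        rw [h4, Nat.add_mul_mod_self_left, Nat.mod_eq_of_lt hyM]
      rw [h3]
      exact hy
    · intro y hy y' hy' h
      have hyM : y < M := mem_range.1 (hY hy)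
      have hyM' : y' < M := mem_range.1 (hY hy')
      have h3 : y + (M - a % M) ≡ y' + (M - a % M) [MOD M] := h
      have h4 : y ≡ y' [MOD M] := Nat.ModEq.add_right_cancel' _ h3
      unfold Nat.ModEq at h4
      rwa [Nat.mod_eq_of_lt hyM, Nat.mod_eq_of_lt hyM'] at h4
  have h5 : A.card * Y.card ≤ ∑ t ∈ range M, (A.filter (fun a => (a + t) % M ∈ Y)).card := by
    rw [h1]
    calc A.card * Y.card = ∑ _a ∈ A, Y.card := by rw [sum_const, smul_eq_mul]
      _ ≤ _ := sum_le_sum h2
  have h6 : M * ∑ t ∈ range M, (A.filter (fun a => (a + t) % M ∈ Y)).card <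
      M * (A.card * Y.card) := by
    rw [mul_sum]
    calc ∑ t ∈ range M, M * (A.filter (fun a => (a + t) % M ∈ Y)).card
        < ∑ _t ∈ range M, A.card * Y.card :=
          sum_lt_sum_of_nonempty ⟨0, mem_range.2 hM⟩ (fun t _ => hcon t)
      _ = M * (A.card * Y.card) := by rw [sum_const, smul_eq_mul, card_range]
  have h7 := Nat.lt_of_mul_lt_mul_left h6
  omega

/-- All steps. -/
theorem all_steps (ρ : ℝ) (hρ : 0 ≤ ρ) (M : ℕ → ℕ) (Y : ℕ → Finset ℕ) (G : Finset ℕ) :
    (∀ p ∈ G, 0 < M p ∧ Y p ⊆ range (M p) ∧ ρ * (M p : ℝ) ≤ ((Y p).card : ℝ)) →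
    ∀ A : Finset ℕ, ∃ B ⊆ A, (A.card : ℝ) * ρ ^ G.card ≤ B.card ∧
      ∀ p ∈ G, ∃ t, ∀ a ∈ B, (a + t) % M p ∈ Y p := by
  induction G using Finset.induction_on with
  | empty =>
    intro _ A
    exact ⟨A, Subset.refl _, by simp, by simp⟩
  | insert q G hq ih =>
    intro h A
    obtain ⟨B, hB1, hB2, hB3⟩ := ih (fun p hp => h p (mem_insert_of_mem hp)) A
    obtain ⟨hM, hY, hd⟩ := h q (mem_insert_self _ _)
    obtain ⟨t, ht⟩ := one_step B hM (Y q) hY
    refine ⟨B.filter (fun a => (a + t) % M q ∈ Y q), (filter_subset _ _).trans hB1, ?_, ?_⟩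
    · rw [card_insert_of_notMem hq, pow_succ, ← mul_assoc]
      have hMr : (0 : ℝ) < M q := by exact_mod_cast hM
      have h1 : ((B.card : ℝ) * (Y q).card) ≤
          M q * ((B.filter (fun a => (a + t) % M q ∈ Y q)).card : ℝ) := by
        exact_mod_cast ht
      have h2 : (B.card : ℝ) * (ρ * M q) ≤ (B.card : ℝ) * (Y q).card :=
        mul_le_mul_of_nonneg_left hd (Nat.cast_nonneg _)
      have h3 : (B.card : ℝ) * ρ ≤ ((B.filter (fun a => (a + t) % M q ∈ Y q)).card : ℝ) := by
        have h4 : (M q : ℝ) * ((B.card : ℝ) * ρ) ≤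
            M q * ((B.filter (fun a => (a + t) % M q ∈ Y q)).card : ℝ) := by
          calc (M q : ℝ) * ((B.card : ℝ) * ρ) = (B.card : ℝ) * (ρ * M q) := by ring
            _ ≤ _ := h2.trans h1
        exact le_of_mul_le_mul_left h4 hMr
      exact (mul_le_mul_of_nonneg_right hB2 hρ).trans h3
    · intro p hp
      rcases mem_insert.1 hp with rfl | hp
      · exact ⟨t, fun a ha => (mem_filter.1 ha).2⟩
      · obtain ⟨s, hs⟩ := hB3 p hp
        exact ⟨s, fun a ha => hs a (mem_filter.1 ha).1⟩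

/-- The combinatorial theorem. -/
theorem exists_m (k n S M : ℕ) (hn : 1 ≤ n) (hk : 1 ≤ k) (hnk : n ≤ k)
    (hkn : 3 * k ≤ 4 * n * n)
    (hS : (6 * (k : ℝ) / n) ^ (((range (k + 1)).filter Nat.Prime).card) < S) :
    ∃ m, k + 2 ≤ m ∧ M ≤ m ∧ m ≤ S * (k + n + 2 + M) ∧
      ∀ p, p.Prime → p ≤ k → p ∣ m.choose k → p < 2 * n + k % p := by
  classical
  set G := (range (k + 1)).filter (fun p => p.Prime ∧ 2 * n + k % p ≤ p) with hG
  have hnr : (0 : ℝ) < n := by exact_mod_cast hn
  have hkr : (0 : ℝ) < k := by exact_mod_cast hk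
  set ρ : ℝ := n / (6 * k) with hρ
  have hρ0 : 0 < ρ := by positivity
  have hGp : ∀ p ∈ G, p.Prime ∧ 2 * n + k % p ≤ p ∧ p ≤ k := by
    intro p hp
    rw [hG, mem_filter, mem_range] at hp
    exact ⟨hp.2.1, hp.2.2, by omega⟩
  have hfacts : ∀ p ∈ G, k < p * p ∧ k / p + 2 ≤ p ∧ (k / p + 2) * p ≤ 3 * k := by
    intro p hp
    obtain ⟨h1, h2, h3⟩ := hGp p hp
    have h4 : 2 * n ≤ p := by omega
    have h5 : 3 * k ≤ p * p := by
      calc 3 * k ≤ 4 * n * n := hkn
        _ = (2 * n) * (2 * n) := by ring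
        _ ≤ p * p := Nat.mul_le_mul h4 h4
    have h6 : k < p * p := by omega
    have h7 : 1 ≤ k / p := (Nat.one_le_div_iff h1.pos).2 h3
    have h8 : (k / p + 2) * p ≤ 3 * k := by
      calc (k / p + 2) * p ≤ (3 * (k / p)) * p := Nat.mul_le_mul_right _ (by omega)
        _ = 3 * (k / p * p) := by ring
        _ ≤ 3 * k := Nat.mul_le_mul_left _ (Nat.div_mul_le_self _ _)
    refine ⟨h6, ?_, h8⟩
    exact Nat.le_of_mul_le_mul_right (h8.trans h5) h1.pos
  have hmain := all_steps ρ hρ0.le (fun p => p * p) (fun p => comb p (k / p + 2) n) G (by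
    intro p hp
    obtain ⟨h1, h2, h3⟩ := hGp p hp
    obtain ⟨h4, h5, h6⟩ := hfacts p hp
    have hnp : n ≤ p := by omega
    have hnw : n ≤ (k / p + 2) * p := by
      calc n ≤ 1 * p := by omega
        _ ≤ (k / p + 2) * p := Nat.mul_le_mul_right _ (le_trans (by norm_num) (Nat.le_add_left 2 _))
    refine ⟨Nat.mul_pos h1.pos h1.pos, comb_subset hnw, ?_⟩
    rw [card_comb hnw]
    set w := k / p + 2 with hw
    have hJ : p * p ≤ 6 * k * (p / w) := by
      have hw0 : 0 < w := lt_of_lt_of_le (by norm_num) (Nat.le_add_left 2 _)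
      have hJ1 : 1 ≤ p / w := (Nat.one_le_div_iff hw0).2 h5
      have hJ2 : p < w * (p / w + 1) := Nat.lt_mul_div_succ p hw0
      have hJ3 : w * (p / w + 1) ≤ w * (2 * (p / w)) := Nat.mul_le_mul_left _ (by omega)
      calc p * p ≤ (w * (2 * (p / w))) * p := Nat.mul_le_mul_right _ (by omega)
        _ = (w * p) * (2 * (p / w)) := by ring
        _ ≤ (3 * k) * (2 * (p / w)) := Nat.mul_le_mul_right _ h6
        _ = 6 * k * (p / w) := by ring
    have hJr : ((p * p : ℕ) : ℝ) ≤ 6 * k * ((p / w : ℕ) : ℝ) := by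
      exact_mod_cast hJ
    rw [hρ, Nat.cast_mul (p / w) n]
    calc (n : ℝ) / (6 * k) * ((p * p : ℕ) : ℝ) ≤ n / (6 * k) * (6 * k * ((p / w : ℕ) : ℝ)) :=
          mul_le_mul_of_nonneg_left hJr (by positivity)
      _ = ((p / w : ℕ) : ℝ) * n := by field_simp)
    ((range S).image (fun i => i * (k + n + 2 + M)))
  obtain ⟨B, hB1, hB2, hB3⟩ := hmain
  have hcard : ((range S).image (fun i => i * (k + n + 2 + M))).card = S := by
    rw [card_image_of_injective, card_range]
    intro i j hij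
    exact Nat.eq_of_mul_eq_mul_right (by omega) hij
  rw [hcard] at hB2
  have hGcard : G.card ≤ ((range (k + 1)).filter Nat.Prime).card := by
    apply card_le_card
    intro p hp
    obtain ⟨h1, _, h3⟩ := hGp p hp
    rw [mem_filter, mem_range]
    exact ⟨by omega, h1⟩
  have hone : 1 < (B.card : ℝ) := by
    refine lt_of_lt_of_le ?_ hB2
    have h1 : (1 : ℝ) ≤ 6 * k / n := by
      rw [one_le_div hnr]
      have : (n : ℝ) ≤ k := by exact_mod_cast hnk
      linarith
    have h2 : (6 * (k : ℝ) / n) ^ G.card ≤ (6 * (k : ℝ) / n) ^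
        (((range (k + 1)).filter Nat.Prime).card) := pow_le_pow_right₀ h1 hGcard
    have h3 : (6 * (k : ℝ) / n) ^ G.card < S := lt_of_le_of_lt h2 hS
    have h4 : (6 * (k : ℝ) / n) ^ G.card * ρ ^ G.card = 1 := by
      rw [← mul_pow, hρ]
      have : 6 * (k : ℝ) / n * (n / (6 * k)) = 1 := by field_simp
      rw [this, one_pow]
    calc (1 : ℝ) = (6 * (k : ℝ) / n) ^ G.card * ρ ^ G.card := h4.symm
      _ < S * ρ ^ G.card := mul_lt_mul_of_pos_right h3 (pow_pos hρ0 _)
  have hone' : 1 < B.card := by exact_mod_cast hone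
  obtain ⟨a', ha', b', hb', hab⟩ := one_lt_card.1 hone'
  obtain ⟨a, b, ha, hb, hlt⟩ : ∃ a b, a ∈ B ∧ b ∈ B ∧ b < a := by
    rcases lt_or_gt_of_ne hab with h | h
    · exact ⟨b', a', hb', ha', h⟩
    · exact ⟨a', b', ha', hb', h⟩
  obtain ⟨i, hi, rfl⟩ := mem_image.1 (hB1 ha)
  obtain ⟨j, hj, rfl⟩ := mem_image.1 (hB1 hb)
  rw [mem_range] at hi hj
  have hji : j < i := Nat.lt_of_mul_lt_mul_right hlt
  have hdiff : (j + 1) * (k + n + 2 + M) ≤ i * (k + n + 2 + M) := Nat.mul_le_mul_right _ hji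
  have hexp : (j + 1) * (k + n + 2 + M) = j * (k + n + 2 + M) + (k + n + 2 + M) := by ring
  refine ⟨i * (k + n + 2 + M) - j * (k + n + 2 + M) - n, by omega, by omega, ?_, ?_⟩
  · have : i * (k + n + 2 + M) ≤ S * (k + n + 2 + M) := Nat.mul_le_mul_right _ hi.le
    omega
  · intro p hp hpk hdvd
    by_contra hcon
    push Not at hcon
    have hpG : p ∈ G := by
      rw [hG, mem_filter, mem_range]
      exact ⟨by omega, hp, hcon⟩
    obtain ⟨t, ht⟩ := hB3 p hpG
    obtain ⟨h4, _, _⟩ := hfacts p hpG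
    obtain ⟨h5, h6⟩ := comb_digits (p := p) (k := k) (n := n) (t := t)
      (m := i * (k + n + 2 + M) - j * (k + n + 2 + M) - n) hp.pos h4 hcon (ht _ ha) (ht _ hb)
      (by omega)
    exact not_dvd_of_digits hp h4 h5 h6 hdvd

end Pool.Agent.Lib.MP_d5700b_nt.Comb51
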