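import Pool.Agent.Lib.MP_d5700b_nt.Comb51

set_option autoImplicit false

/-!
The exceptional primes, and an exact construction.
-/

namespace Pool.Agent.Lib.MP_d5700b_nt.Comb51

open Finset

theorem dvd_choose_of_lt {p k n : ℕ} (hp : p.Prime) (hn : 1 ≤ n) (h1 : p < 2 * n + k % p)
    (h2 : 2 * n ≤ p) : p ∣ (k + (2 * n - 1)).choose (2 * n - 1) := by
  have : Fact p.Prime := ⟨hp⟩
  set h := 2 * n - 1 with hh
  have hkp : k % p < p := Nat.mod_lt _ hp.pos
  have e1 : (k + h) % p < h % p := by
    rw [Nat.mod_eq_of_lt (show h < p by omega), Nat.add_mod, Nat.mod_eq_of_lt (show h < p by omega)]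
    have : k % p + h - p < p := by omega
    rw [Nat.mod_eq_sub_mod (show p ≤ k % p + h by omega), Nat.mod_eq_of_lt this]
    omega
  have a := Choose.choose_modEq_choose_mod_mul_choose_div_nat (n := k + h) (k := h) (p := p)
  rw [Nat.choose_eq_zero_of_lt e1, zero_mul] at a
  exact (Nat.modEq_zero_iff_dvd).1 a

theorem prod_le (k n m : ℕ) (hn : 1 ≤ n)
    (hm : ∀ p, p.Prime → p ≤ k → p ∣ m.choose k → p < 2 * n + k % p) :
    (∏ p ∈ (range (k + 1)).filter (fun p => p.Prime ∧ p ∣ m.choose k), p) ≤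
      4 ^ (2 * n) * (k + (2 * n - 1)).choose (2 * n - 1) := by
  set s := (range (k + 1)).filter (fun p => p.Prime ∧ p ∣ m.choose k) with hs
  rw [← prod_filter_mul_prod_filter_not s (fun p => p < 2 * n)]
  refine Nat.mul_le_mul ?_ ?_
  · refine le_trans ?_ (primorial_le_four_pow (2 * n))
    unfold primorial
    apply prod_le_prod_of_subset_of_one_le'
    · intro p hp
      rw [mem_filter, hs, mem_filter, mem_range] at hp
      rw [mem_filter, mem_range]
      exact ⟨by omega, hp.1.2.1⟩
    · intro p hp _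
      rw [mem_filter] at hp
      exact hp.2.one_lt.le
  · apply Nat.le_of_dvd
    · exact Nat.choose_pos (by omega)
    · apply prod_primes_dvd
      · intro p hp
        rw [mem_filter, hs, mem_filter, mem_range] at hp
        exact hp.1.2.1.prime
      · intro p hp
        rw [mem_filter, hs, mem_filter, mem_range] at hp
        obtain ⟨⟨h1, h2, h3⟩, h4⟩ := hp
        exact dvd_choose_of_lt h2 hn (hm p h2 (by omega) h3) (by omega)

/-- `N - 1` is fine when `p * i ∣ N` for all `p, i`. -/
theorem exact_aux {p k N : ℕ} (hp : p.Prime) (h : ∀ i, 1 ≤ i → i ≤ k → p * i ∣ N + 1) :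
    ∀ j, j ≤ k → ¬ p ∣ N.choose j := by
  intro j
  induction j with
  | zero =>
    intro _ h1
    rw [Nat.choose_zero_right] at h1
    exact hp.one_lt.ne' (Nat.dvd_one.1 h1)
  | succ j ih =>
    intro hj h1
    have h2 : p ∣ (N + 1).choose (j + 1) := by
      obtain ⟨c, hc⟩ := h (j + 1) (by omega) hj
      have h3 := Nat.add_one_mul_choose_eq N j
      rw [hc] at h3
      have h4 : (N + 1).choose (j + 1) = p * (c * N.choose j) := by
        have h5 : (p * (c * N.choose j)) * (j + 1) = (N + 1).choose (j + 1) * (j + 1) := by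
          rw [hc, ← h3]; ring
        exact (Nat.eq_of_mul_eq_mul_right (by omega) h5).symm
      rw [h4]
      exact Dvd.intro _ rfl
    rw [Nat.choose_succ_succ] at h2
    have h6 : p ∣ N.choose j := (Nat.dvd_add_left h1).1 h2
    exact ih (by omega) h6

/-- An exact construction above any given `M`. -/
theorem exact_m (k M : ℕ) (hk : 2 ≤ k) :
    ∃ m, k + 2 ≤ m ∧ M ≤ m ∧ Real.log m ≤ Real.log (M + 1) + 8 * k ∧
      ∀ p, p.Prime → p ≤ k → ¬ p ∣ m.choose k := by
  set N := 4 * (Nat.lcmUpto k * primorial k) with hN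
  have h1 : ∀ i, 1 ≤ i → i ≤ k → i ∣ Nat.lcmUpto k := by
    intro i hi1 hi2
    unfold Nat.lcmUpto
    exact Finset.dvd_lcm (f := id) (mem_Icc.2 ⟨hi1, hi2⟩)
  have h2 : k ≤ Nat.lcmUpto k := Nat.le_of_dvd (Nat.lcmUpto_pos k) (h1 k (by omega) le_rfl)
  have h3 : 1 ≤ primorial k := primorial_pos k
  have h4 : 4 * k ≤ N := by
    rw [hN]
    have : k * 1 ≤ Nat.lcmUpto k * primorial k := Nat.mul_le_mul h2 h3
    omega
  have h41 : N * 1 ≤ N * (M + 1) := Nat.mul_le_mul_left _ (by omega)
  have h42 : 1 * (M + 1) ≤ N * (M + 1) := Nat.mul_le_mul_right _ (by omega)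
  refine ⟨N * (M + 1) - 1, by omega, by omega, ?_, ?_⟩
  · have hpos : (0 : ℝ) < ((N * (M + 1) - 1 : ℕ) : ℝ) := by
      exact_mod_cast (show 0 < N * (M + 1) - 1 by omega)
    have h5 : Real.log ((N * (M + 1) - 1 : ℕ) : ℝ) ≤ Real.log ((N * (M + 1) : ℕ) : ℝ) :=
      Real.log_le_log hpos (by exact_mod_cast (show N * (M + 1) - 1 ≤ N * (M + 1) by omega))
    have h51 : Real.log ((N * (M + 1) : ℕ) : ℝ) = Real.log N + Real.log (M + 1) := by
      push_cast
      rw [Real.log_mul]
      · exact_mod_cast (show N ≠ 0 by omega)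
      · positivity
    have h6 : Real.log (N : ℝ) = Real.log 4 + (Chebyshev.psi k + Chebyshev.theta k) := by
      rw [hN, Chebyshev.psi_eq_log_lcmUpto, Chebyshev.theta_eq_log_primorial, Nat.floor_natCast]
      push_cast
      rw [Real.log_mul (by norm_num), Real.log_mul]
      · exact_mod_cast (Nat.lcmUpto_pos k).ne'
      · exact_mod_cast (primorial_pos k).ne'
      · have a1 : (0 : ℝ) < Nat.lcmUpto k := by exact_mod_cast Nat.lcmUpto_pos k
        have a2 : (0 : ℝ) < primorial k := by exact_mod_cast primorial_pos k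
        positivity
    have hk0 : (0 : ℝ) ≤ k := Nat.cast_nonneg k
    have h7 := Chebyshev.psi_le_const_mul_self hk0
    have h8 := Chebyshev.theta_le_log4_mul_x hk0
    have h9 : Real.log 4 ≤ 1.3864 := by
      have : Real.log 4 = 2 * Real.log 2 := by
        rw [show (4 : ℝ) = 2 ^ 2 by norm_num, Real.log_pow]; norm_num
      rw [this]
      have := Real.log_two_lt_d9
      linarith
    have hk2 : (2 : ℝ) ≤ k := by exact_mod_cast hk
    have h10 : Real.log (N : ℝ) ≤ 8 * k := by nlinarith
    linarith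
  · intro p hp hpk
    refine exact_aux hp (k := k) (N := N * (M + 1) - 1) ?_ k le_rfl
    intro i hi1 hi2
    have h5 : N * (M + 1) - 1 + 1 = N * (M + 1) := by omega
    rw [h5, hN]
    have h6 : p ∣ primorial k := (hp.dvd_primorial_iff).2 hpk
    have h7 : p * i ∣ Nat.lcmUpto k * primorial k := by
      rw [mul_comm]
      exact mul_dvd_mul (h1 i hi1 hi2) h6
    exact (h7.mul_left 4).mul_right _

end Pool.Agent.Lib.MP_d5700b_nt.Comb51
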