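import Pool.Agent.Lib.MP_d5700b_nt.Comb51b

set_option autoImplicit false

/-!
The estimates.
-/

namespace Pool.Agent.Lib.MP_d5700b_nt.Comb51

open Finset Filter

theorem log_choose_le {k h : ℕ} (hh : 1 ≤ h) :
    Real.log ((k + h).choose h : ℕ) ≤ h * (Real.log (k + h) - Real.log h + 1) := by
  have hhr : (0 : ℝ) < h := by exact_mod_cast hh
  have hkr : (0 : ℝ) < (k : ℝ) + h := by
    have : (0 : ℝ) ≤ k := Nat.cast_nonneg k
    linarith
  have hf : (0 : ℝ) < (h.factorial : ℝ) := by exact_mod_cast h.factorial_pos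
  have h1 : (((k + h).choose h : ℕ) : ℝ) ≤ ((k : ℝ) + h) ^ h / h.factorial := by
    have := Nat.choose_le_pow_div (α := ℝ) h (k + h)
    push_cast at this
    exact this
  have hc : (0 : ℝ) < (((k + h).choose h : ℕ) : ℝ) := by
    exact_mod_cast Nat.choose_pos (by omega)
  have h2 := Real.log_le_log hc h1
  rw [Real.log_div (by positivity) hf.ne', Real.log_pow] at h2
  have h3 := Real.pow_div_factorial_le_exp (x := (h : ℝ)) hhr.le h
  have h4 := Real.log_le_log (by positivity) h3
  rw [Real.log_exp, Real.log_div (by positivity) hf.ne', Real.log_pow] at h4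
  nlinarith

theorem choose_est {k n : ℕ} {X : ℝ} (hn : 1 ≤ n) (hX : (2 * n : ℝ) ≤ X) (hXk : X ≤ k) :
    Real.log (((4 ^ (2 * n) * (k + (2 * n - 1)).choose (2 * n - 1) : ℕ)) : ℝ) ≤
      X * (Real.log (2 * k / X) + 1 + Real.log 4) := by
  have hn1 : (1 : ℝ) ≤ n := by exact_mod_cast hn
  have hX0 : 0 < X := by linarith
  have hk0 : (0 : ℝ) < k := by linarith
  set h := 2 * n - 1 with hh
  have hh1 : 1 ≤ h := by omega
  have hhr : (0 : ℝ) < h := by exact_mod_cast hh1
  have hhX : (h : ℝ) ≤ X := by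
    have : (h : ℝ) ≤ 2 * n := by exact_mod_cast (show h ≤ 2 * n by omega)
    linarith
  have hc : (0 : ℝ) < (((k + h).choose h : ℕ) : ℝ) := by
    exact_mod_cast Nat.choose_pos (by omega)
  rw [Nat.cast_mul, Nat.cast_pow, Real.log_mul (by positivity) hc.ne', Real.log_pow]
  have h1 := log_choose_le (k := k) hh1
  have h4 : 0 ≤ Real.log 4 := Real.log_nonneg (by norm_num)
  have h2 : ((2 * n : ℕ) : ℝ) * Real.log ((4 : ℕ) : ℝ) ≤ X * Real.log 4 := by
    push_cast
    exact mul_le_mul_of_nonneg_right hX h4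
  have h3 : Real.log ((k : ℝ) + h) ≤ Real.log (2 * k) :=
    Real.log_le_log (by positivity) (by linarith)
  have h5 : Real.log (2 * k / X) = Real.log (2 * k) - Real.log X :=
    Real.log_div (by positivity) hX0.ne'
  have h6 : Real.log X - Real.log h ≤ X / h - 1 := by
    rw [← Real.log_div hX0.ne' hhr.ne']
    exact Real.log_le_sub_one_of_pos (by positivity)
  have h7 : (h : ℝ) * (Real.log X - Real.log h) ≤ X - h := by
    have := mul_le_mul_of_nonneg_left h6 hhr.le
    have e : (h : ℝ) * (X / h - 1) = X - h := by field_simp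
    linarith
  have h8 : 0 ≤ Real.log (2 * k) - Real.log X := by
    rw [← h5]
    apply Real.log_nonneg
    rw [one_le_div hX0]
    linarith
  have h9 : (h : ℝ) * (Real.log (2 * k) - Real.log X) ≤ X * (Real.log (2 * k) - Real.log X) :=
    mul_le_mul_of_nonneg_right hhX h8
  have h10 : (h : ℝ) * (Real.log (k + h) - Real.log h + 1) ≤
      h * (Real.log (2 * k) - Real.log h + 1) :=
    mul_le_mul_of_nonneg_left (by linarith) hhr.le
  rw [h5]
  nlinarith

theorem log_le_of {L : ℝ} (hL : 0 < L) : Real.log L ≤ L - 1 :=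
  Real.log_le_sub_one_of_pos hL

/-- Asymptotic facts used for large `k`. -/
theorem large : ∃ K : ℕ, 2 ≤ K ∧ ∀ k : ℕ, K ≤ k →
    (Nat.primeCounting k : ℝ) ≤ 3 * k / Real.log k ∧
    Real.log (8 * k) ≤ k / Real.log k ∧
    24 * Real.log k * Real.sqrt k ≤ (k : ℝ) ^ (2 / 3 : ℝ) := by
  have h1 : ∀ᶠ k : ℕ in atTop, (Nat.primeCounting k : ℝ) ≤ 3 * k / Real.log k := by
    have := (Chebyshev.eventually_primeCounting_le (ε := 1) one_pos)
    have h2 := (tendsto_natCast_atTop_atTop (R := ℝ)).eventually this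
    filter_upwards [h2, eventually_ge_atTop 2] with k hk hk2
    rw [Nat.floor_natCast] at hk
    refine hk.trans ?_
    have hl : 0 < Real.log k := Real.log_pos (by exact_mod_cast hk2)
    apply div_le_div_of_nonneg_right _ hl.le
    apply mul_le_mul_of_nonneg_right _ (Nat.cast_nonneg k)
    have : Real.log 4 = 2 * Real.log 2 := by
      rw [show (4 : ℝ) = 2 ^ 2 by norm_num, Real.log_pow]; norm_num
    rw [this]
    have := Real.log_two_lt_d9
    linarith
  have hlo : ∀ {r : ℝ}, 0 < r → ∀ {c : ℝ}, 0 < c →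
      ∀ᶠ k : ℕ in atTop, Real.log k ≤ c * (k : ℝ) ^ r := by
    intro r hr c hc
    have := (isLittleO_log_rpow_atTop hr).bound hc
    have h2 := (tendsto_natCast_atTop_atTop (R := ℝ)).eventually this
    filter_upwards [h2, eventually_ge_atTop 2] with k hk hk2
    have hk1 : (1 : ℝ) ≤ k := by exact_mod_cast (show 1 ≤ k by omega)
    rw [Real.norm_of_nonneg (Real.log_nonneg hk1), Real.norm_of_nonneg (by positivity)] at hk
    exact hk
  have h2 : ∀ᶠ k : ℕ in atTop, Real.log (8 * k) ≤ k / Real.log k := by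
    filter_upwards [hlo (show (0 : ℝ) < 1 / 2 by norm_num) (show (0 : ℝ) < 1 / 2 by norm_num),
      eventually_ge_atTop 8] with k hk hk8
    have hk8' : (8 : ℝ) ≤ k := by exact_mod_cast hk8
    have hk0 : (0 : ℝ) < k := by linarith
    have hl : 0 < Real.log k := Real.log_pos (by linarith)
    rw [le_div_iff₀ hl]
    have e1 : Real.log (8 * k) ≤ 2 * Real.log k := by
      rw [Real.log_mul (by norm_num) hk0.ne']
      have : Real.log 8 ≤ Real.log k := Real.log_le_log (by norm_num) hk8'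
      linarith
    have e2 : ((k : ℝ) ^ (1 / 2 : ℝ)) * (k : ℝ) ^ (1 / 2 : ℝ) = k := by
      rw [← Real.rpow_add hk0]; norm_num
    have e3 : 0 ≤ (k : ℝ) ^ (1 / 2 : ℝ) := by positivity
    calc Real.log (8 * k) * Real.log k ≤ (2 * Real.log k) * Real.log k :=
          mul_le_mul_of_nonneg_right e1 hl.le
      _ ≤ (2 * (1 / 2 * (k : ℝ) ^ (1 / 2 : ℝ))) * (1 / 2 * (k : ℝ) ^ (1 / 2 : ℝ)) := by
          apply mul_le_mul (by linarith) hk hl.le (by positivity)
      _ = 1 / 2 * (((k : ℝ) ^ (1 / 2 : ℝ)) * (k : ℝ) ^ (1 / 2 : ℝ)) := by ring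
      _ ≤ k := by rw [e2]; linarith
  have h3 : ∀ᶠ k : ℕ in atTop, 24 * Real.log k * Real.sqrt k ≤ (k : ℝ) ^ (2 / 3 : ℝ) := by
    filter_upwards [hlo (show (0 : ℝ) < 1 / 6 by norm_num) (show (0 : ℝ) < 1 / 24 by norm_num),
      eventually_ge_atTop 2] with k hk hk2
    have hk0 : (0 : ℝ) < k := by exact_mod_cast (show 0 < k by omega)
    rw [Real.sqrt_eq_rpow]
    have e2 : (k : ℝ) ^ (2 / 3 : ℝ) = (k : ℝ) ^ (1 / 6 : ℝ) * (k : ℝ) ^ (1 / 2 : ℝ) := by
      rw [← Real.rpow_add hk0]; norm_num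
    rw [e2]
    apply mul_le_mul_of_nonneg_right _ (by positivity)
    linarith
  obtain ⟨K, hK⟩ := eventually_atTop.1 (h1.and (h2.and h3))
  refine ⟨max K 2, le_max_right _ _, fun k hk => ?_⟩
  obtain ⟨a, b, c⟩ := hK k ((le_max_left _ _).trans hk)
  exact ⟨a, b, c⟩

theorem card_primes (k : ℕ) : ((range (k + 1)).filter Nat.Prime).card = Nat.primeCounting k := by
  unfold Nat.primeCounting Nat.primeCounting'
  rw [Nat.count_eq_card_filter_range]

/-- Large `k`, `ε` not too small. -/
theorem main_large {K : ℕ} (hK2 : 2 ≤ K) (hK : ∀ k : ℕ, K ≤ k →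
    (Nat.primeCounting k : ℝ) ≤ 3 * k / Real.log k ∧
    Real.log (8 * k) ≤ k / Real.log k ∧
    24 * Real.log k * Real.sqrt k ≤ (k : ℝ) ^ (2 / 3 : ℝ))
    {k : ℕ} (hk : K ≤ k) {ε : ℝ} (hε0 : 0 < ε) (hε1 : ε ≤ 1 / 2)
    (hε2 : Real.log (1 / ε) ≤ 1 / 3 * Real.log k) {M : ℕ} (hM : 1 ≤ M) :
    ∃ m : ℕ, k + 2 ≤ m ∧ M ≤ m ∧
      Real.log m ≤ Real.log M + 40 * Real.log (1 / ε) * (k / Real.log k) ∧
      Real.log ((∏ p ∈ (range (k + 1)).filter (fun p => p.Prime ∧ p ∣ m.choose k), p : ℕ) : ℝ) ≤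
        ε * k := by
  obtain ⟨hpi, h8k, hpow⟩ := hK k hk
  have hk2 : 2 ≤ k := hK2.trans hk
  have hkr : (2 : ℝ) ≤ k := by exact_mod_cast hk2
  have hk0 : (0 : ℝ) < k := by linarith
  have hlk : 0 < Real.log k := Real.log_pos (by linarith)
  set L := Real.log (1 / ε) with hL
  have hL1 : 0.69 ≤ L := by
    have h1 : Real.log 2 ≤ L := by
      rw [hL]
      apply Real.log_le_log (by norm_num)
      rw [le_div_iff₀ hε0]
      linarith
    have := Real.log_two_gt_d9
    linarith
  have hL0 : 0 < L := by linarith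
  have hlogε : Real.log ε = -L := by
    rw [hL, one_div, Real.log_inv]; ring
  -- the size of x
  set x : ℝ := ε * k / (32 * L) with hx
  have hεk : (k : ℝ) ^ (2 / 3 : ℝ) ≤ ε * k := by
    have h1 : Real.log ((k : ℝ) ^ (2 / 3 : ℝ)) ≤ Real.log (ε * k) := by
      rw [Real.log_rpow hk0, Real.log_mul hε0.ne' hk0.ne', hlogε]
      linarith
    exact (Real.log_le_log_iff (by positivity) (by positivity)).1 h1
  have hs1 : 1 ≤ Real.sqrt k := by
    rw [Real.one_le_sqrt]; linarith
  have hx2 : 2 * Real.sqrt k ≤ x := by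
    rw [hx, le_div_iff₀ (by positivity)]
    calc 2 * Real.sqrt k * (32 * L) ≤ 2 * Real.sqrt k * (32 * (1 / 3 * Real.log k)) := by
          apply mul_le_mul_of_nonneg_left _ (by positivity)
          linarith
      _ ≤ 24 * Real.log k * Real.sqrt k := by nlinarith [mul_pos hlk (lt_of_lt_of_le one_pos hs1)]
      _ ≤ _ := hpow.trans hεk
  set n := ⌊x⌋₊ with hn
  have hx0 : 0 ≤ x := by positivity
  have hnx : (n : ℝ) ≤ x := Nat.floor_le hx0
  have hxn : x < n + 1 := Nat.lt_floor_add_one x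
  have hns : Real.sqrt k ≤ n := by linarith
  have hn1r : (1 : ℝ) ≤ n := hs1.trans hns
  have hn1 : 1 ≤ n := by exact_mod_cast hn1r
  have hxk : x ≤ k / 32 := by
    rw [hx, div_le_div_iff₀ (by positivity) (by norm_num)]
    nlinarith [mul_pos hk0 hL0, mul_pos hk0 hε0]
  have hnk : n ≤ k := by
    have : (n : ℝ) ≤ k := by linarith
    exact_mod_cast this
  have hkn : 3 * k ≤ 4 * n * n := by
    have h1 : (k : ℝ) ≤ n * n := by
      calc (k : ℝ) = Real.sqrt k * Real.sqrt k := (Real.mul_self_sqrt hk0.le).symm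
        _ ≤ n * n := mul_le_mul hns hns (Real.sqrt_nonneg _) (by linarith)
    have h2 : k ≤ n * n := by exact_mod_cast h1
    nlinarith
  -- the number S
  set π' := ((range (k + 1)).filter Nat.Prime).card with hπ
  set q : ℝ := 6 * (k : ℝ) / n with hq
  have hq1 : 1 ≤ q := by
    rw [hq, one_le_div (by linarith)]
    linarith
  obtain ⟨m, hm1, hmM, hm2, hm3⟩ := exists_m k n (⌊q ^ π'⌋₊ + 1) M hn1 (by omega) hnk hkn (by
    push_cast
    exact Nat.lt_floor_add_one _)
  refine ⟨m, hm1, hmM, ?_, ?_⟩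
  · have hqp : 1 ≤ q ^ π' := one_le_pow₀ hq1
    have h1 : ((⌊q ^ π'⌋₊ + 1 : ℕ) : ℝ) ≤ 2 * q ^ π' := by
      push_cast
      have := Nat.floor_le (show 0 ≤ q ^ π' by positivity)
      linarith
    have hMr : (1 : ℝ) ≤ M := by exact_mod_cast hM
    have hM0 : (0 : ℝ) < M := by linarith
    have h2 : ((k + n + 2 + M : ℕ) : ℝ) ≤ 4 * k * M := by
      have a1 : 3 * k * 1 ≤ 3 * k * M := Nat.mul_le_mul_left _ hM
      have a2 : 1 * M ≤ k * M := Nat.mul_le_mul_right _ (by omega)
      have a3 : 4 * k * M = 3 * k * M + k * M := by ring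
      have : (k + n + 2 + M : ℕ) ≤ 4 * k * M := by omega
      exact_mod_cast this
    have hmr : (m : ℝ) ≤ (2 * q ^ π') * (4 * k * M) := by
      calc (m : ℝ) ≤ ((⌊q ^ π'⌋₊ + 1 : ℕ) : ℝ) * ((k + n + 2 + M : ℕ) : ℝ) := by
            exact_mod_cast hm2
        _ ≤ _ := mul_le_mul h1 h2 (Nat.cast_nonneg _) (by positivity)
    have hm0 : (0 : ℝ) < m := by exact_mod_cast (show 0 < m by omega)
    have h3 := Real.log_le_log hm0 hmr
    have e1 : (2 * q ^ π') * (4 * k * M) = M * ((8 * k) * q ^ π') := by ring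
    rw [e1, Real.log_mul hM0.ne' (by positivity), Real.log_mul (by positivity) (by positivity),
      Real.log_pow] at h3
    have h4 : Real.log q ≤ 10 * L := by
      have h5 : q ≤ 384 * L / ε := by
        rw [hq, div_le_div_iff₀ (by linarith) hε0]
        have h6 : x ≤ 2 * n := by linarith
        have h7 : ε * k = x * (32 * L) := by rw [hx]; field_simp
        nlinarith
      have h6 := Real.log_le_log (by linarith) h5
      rw [Real.log_div (by positivity) hε0.ne', Real.log_mul (by norm_num) hL0.ne', hlogε] at h6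
      have h7 := log_le_of hL0
      have h8 : Real.log 384 ≤ 6 := by
        rw [Real.log_le_iff_le_exp (by norm_num)]
        have h9 : (2.7 : ℝ) ^ 6 ≤ Real.exp 6 := by
          have := Real.exp_one_gt_d9
          calc (2.7 : ℝ) ^ 6 ≤ (Real.exp 1) ^ 6 := by
                apply pow_le_pow_left₀ (by norm_num); linarith
            _ = Real.exp 6 := by rw [← Real.exp_nat_mul]; norm_num
        norm_num at h9
        linarith
      linarith
    have h5 : (π' : ℝ) ≤ 3 * k / Real.log k := by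
      rw [hπ, card_primes]; exact hpi
    have hkl : 0 < (k : ℝ) / Real.log k := by positivity
    have h6 : (π' : ℝ) * Real.log q ≤ (3 * k / Real.log k) * (10 * L) :=
      mul_le_mul h5 h4 (Real.log_nonneg hq1) (by positivity)
    have h7 : (3 * k / Real.log k) * (10 * L) = 30 * L * (k / Real.log k) := by ring
    have h8 : (k : ℝ) / Real.log k ≤ 2 * L * (k / Real.log k) := by
      have : 1 ≤ 2 * L := by linarith
      nlinarith
    nlinarith
  · have h1 := prod_le k n m hn1 hm3
    set P := ∏ p ∈ (range (k + 1)).filter (fun p => p.Prime ∧ p ∣ m.choose k), p with hP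
    have hP0 : 0 < P := by
      rw [hP]
      apply prod_pos
      intro p hp
      rw [mem_filter] at hp
      exact hp.2.1.pos
    have h2 : Real.log (P : ℝ) ≤
        Real.log (((4 ^ (2 * n) * (k + (2 * n - 1)).choose (2 * n - 1) : ℕ)) : ℝ) :=
      Real.log_le_log (by exact_mod_cast hP0) (by exact_mod_cast h1)
    have h3 := choose_est (k := k) (n := n) (X := 2 * x) hn1 (by linarith) (by linarith)
    refine (h2.trans h3).trans ?_
    have hx00 : 0 < x := by linarith
    have h4 : Real.log (2 * k / (2 * x)) = Real.log 32 + Real.log L + L := by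
      have : 2 * (k : ℝ) / (2 * x) = 32 * L / ε := by
        rw [hx]; field_simp
      rw [this, Real.log_div (by positivity) hε0.ne', Real.log_mul (by norm_num) hL0.ne', hlogε]
      ring
    rw [h4]
    have h5 := log_le_of hL0
    have h6 : Real.log 32 = 5 * Real.log 2 := by
      rw [show (32 : ℝ) = 2 ^ 5 by norm_num, Real.log_pow]; norm_num
    have h7 : Real.log 4 = 2 * Real.log 2 := by
      rw [show (4 : ℝ) = 2 ^ 2 by norm_num, Real.log_pow]; norm_num
    have h8 := Real.log_two_lt_d9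
    have h9 : Real.log 32 + Real.log L + L + 1 + Real.log 4 ≤ 10 * L := by
      rw [h6, h7]; linarith
    calc 2 * x * (Real.log 32 + Real.log L + L + 1 + Real.log 4) ≤ 2 * x * (10 * L) :=
          mul_le_mul_of_nonneg_left h9 (by linarith)
      _ = 20 / 32 * (ε * k) := by rw [hx]; field_simp; ring
      _ ≤ ε * k := by nlinarith [mul_pos hε0 hk0]

end Pool.Agent.Lib.MP_d5700b_nt.Comb51
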