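import Pool.Agent.Lib.MP_d5700b_nt.Exist

set_option autoImplicit false

/-!
Digit conditions and the construction.
-/

namespace Pool.Agent.Lib.MP_d5700b_nt

open Finset

lemma not_dvd_of_no_carry {p N k : ℕ} (hp : p.Prime)
    (h : ∀ i, 1 ≤ i → k % p ^ i + N % p ^ i < p ^ i) : ¬ p ∣ (N + k).choose k := by
  have h0 : (N + k).choose k ≠ 0 := (Nat.choose_pos (Nat.le_add_left k N)).ne'
  have h1 := Nat.factorization_choose' (n := N) (k := k) hp (Nat.lt_succ_self (Nat.log p (N + k)))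
  have h2 : ((Ico 1 (Nat.log p (N + k)).succ).filter
      (fun i => p ^ i ≤ k % p ^ i + N % p ^ i)) = ∅ := by
    apply filter_eq_empty_iff.mpr
    intro i hi
    exact not_le.mpr (h i (mem_Ico.mp hi).1)
  rw [h2, card_empty] at h1
  intro hdvd
  have := (hp.dvd_iff_one_le_factorization h0).mp hdvd
  omega

lemma not_dvd_small {p N k a : ℕ} (hp : p.Prime) (hN : p ^ a ∣ N) (hk : k < p ^ a) :
    ¬ p ∣ (N + k).choose k := by
  apply not_dvd_of_no_carry hp
  intro i hi
  have hpi : 0 < p ^ i := pow_pos hp.pos i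
  rcases le_or_gt i a with h | h
  · have h1 : N % p ^ i = 0 := Nat.mod_eq_zero_of_dvd ((pow_dvd_pow p h).trans hN)
    rw [h1, add_zero]
    exact Nat.mod_lt _ hpi
  · obtain ⟨w, hw⟩ : p ^ a ∣ p ^ i := pow_dvd_pow p h.le
    have h2 : p ^ a ∣ N % p ^ i := (Nat.dvd_mod_iff (pow_dvd_pow p h.le)).mpr hN
    obtain ⟨u, hu⟩ := h2
    have h3 : N % p ^ i < p ^ i := Nat.mod_lt _ hpi
    have h4 : k % p ^ i ≤ k := Nat.mod_le _ _
    rw [hu, hw] at h3 ⊢
    have h5 : u < w := Nat.lt_of_mul_lt_mul_left h3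
    have h6 : p ^ a * (u + 1) ≤ p ^ a * w := Nat.mul_le_mul_left _ h5
    rw [hw] at h4
    nlinarith

lemma not_dvd_large {p N k J : ℕ} (hp : p.Prime) (hJ : J ≤ p) (hk : k < J * p)
    (h1 : N % p + k % p < p) (h2 : N % p ^ 2 < (p - J) * p) : ¬ p ∣ (N + k).choose k := by
  apply not_dvd_of_no_carry hp
  intro i hi
  rcases Nat.lt_or_ge 1 i with hi2 | hi2
  · have hpi : 0 < p ^ i := pow_pos hp.pos i
    obtain ⟨w, hw⟩ : p ^ 2 ∣ p ^ i := pow_dvd_pow p hi2
    have h3 : N % p ^ i < p ^ i := Nat.mod_lt _ hpi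
    have h4 : k % p ^ i ≤ k := Nat.mod_le _ _
    have h5 : N % p ^ i % p ^ 2 = N % p ^ 2 := Nat.mod_mod_of_dvd _ (pow_dvd_pow p hi2)
    have h6 := Nat.div_add_mod (N % p ^ i) (p ^ 2)
    rw [h5] at h6
    set u := N % p ^ i / p ^ 2 with hu
    have h7 : u < w := by
      have : p ^ 2 * u < p ^ 2 * w := by
        rw [← hw]
        calc p ^ 2 * u ≤ p ^ 2 * u + N % p ^ 2 := Nat.le_add_right _ _
          _ = N % p ^ i := h6
          _ < p ^ i := h3
      exact Nat.lt_of_mul_lt_mul_left this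
    have h8 : p ^ 2 * (u + 1) ≤ p ^ 2 * w := Nat.mul_le_mul_left _ h7
    have h9 : (p - J) * p + J * p = p ^ 2 := by
      rw [← add_mul, Nat.sub_add_cancel hJ, sq]
    rw [← hw] at h8
    nlinarith
  · have : i = 1 := by omega
    subst this
    rw [pow_one]
    omega

lemma perm_count {n : ℕ} (φ : ℕ → ℕ) (hmap : ∀ t < n, φ t < n)
    (hinj : ∀ s < n, ∀ t < n, φ s = φ t → s = t) (P : ℕ → Prop) [DecidablePred P] :
    ((range n).filter (fun t => P (φ t))).card = ((range n).filter P).card := by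
  classical
  have himg : (range n).image φ = range n := by
    apply eq_of_subset_of_card_le
    · intro s hs
      obtain ⟨t, ht, rfl⟩ := mem_image.mp hs
      exact mem_range.mpr (hmap t (mem_range.mp ht))
    · rw [card_image_of_injOn]
      intro s hs t ht h
      exact hinj s (by simpa using hs) t (by simpa using ht) h
  have h1 : (range n).filter P = ((range n).filter (fun t => P (φ t))).image φ := by
    ext s
    constructor
    · intro hs
      obtain ⟨h2, h3⟩ := mem_filter.mp hs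
      rw [← himg] at h2
      obtain ⟨t, ht, rfl⟩ := mem_image.mp h2
      exact mem_image.mpr ⟨t, mem_filter.mpr ⟨ht, h3⟩, rfl⟩
    · intro hs
      obtain ⟨t, ht, rfl⟩ := mem_image.mp hs
      obtain ⟨h2, h3⟩ := mem_filter.mp ht
      exact mem_filter.mpr ⟨mem_range.mpr (hmap t (mem_range.mp h2)), h3⟩
  rw [h1, card_image_of_injOn]
  intro s hs t ht h
  have hs' := mem_range.mp (mem_filter.mp (mem_coe.mp hs)).1
  have ht' := mem_range.mp (mem_filter.mp (mem_coe.mp ht)).1
  exact hinj s hs' t ht' h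

lemma mul_succ_inj {n Q : ℕ} (hQ : Nat.Coprime Q n) {s t : ℕ} (hs : s < n) (ht : t < n)
    (h : Q * (s + 1) % n = Q * (t + 1) % n) : s = t := by
  have h1 : Q * (s + 1) ≡ Q * (t + 1) [MOD n] := h
  have h2 : s + 1 ≡ t + 1 [MOD n] := Nat.ModEq.cancel_left_of_coprime (Nat.Coprime.symm hQ) h1
  exact (Nat.ModEq.add_right_cancel' 1 h2).eq_of_lt_of_lt hs ht

lemma card_bad {p Q k₀ : ℕ} (hp : 0 < p) (hQ : Nat.Coprime Q p) (hk : k₀ ≤ p) :
    ((range p).filter (fun t => p ≤ Q * (t + 1) % p + k₀)).card = k₀ := by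
  rw [perm_count (fun t => Q * (t + 1) % p) (fun t _ => Nat.mod_lt _ hp)
    (fun s hs t ht h => mul_succ_inj hQ hs ht h) (fun s => p ≤ s + k₀)]
  have h1 : (range p).filter (fun s => p ≤ s + k₀) = Ico (p - k₀) p := by
    ext s
    simp only [mem_filter, mem_range, mem_Ico]
    omega
  rw [h1, Nat.card_Ico]
  omega

lemma card_digit {p Q J r : ℕ} (hp : 0 < p) (hQ : Nat.Coprime Q p) (hJ : J ≤ p) (hr : r < p) :
    ((range (p ^ 2)).filter (fun t => t % p = r ∧ (p - J) * p ≤ Q * (t + 1) % p ^ 2)).card = J := by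
  classical
  have hp2 : 0 < p ^ 2 := pow_pos hp 2
  have h0 : ((range (p ^ 2)).filter (fun t => t % p = r ∧ (p - J) * p ≤ Q * (t + 1) % p ^ 2)) =
      ((range (p ^ 2)).filter (fun t => (fun s => s % p = Q * (r + 1) % p ∧ (p - J) * p ≤ s)
        (Q * (t + 1) % p ^ 2))) := by
    apply filter_congr
    intro t _
    have h1 : Q * (t + 1) % p ^ 2 % p = Q * (t + 1) % p :=
      Nat.mod_mod_of_dvd _ (dvd_pow_self p two_ne_zero)
    have h2 : t % p = r ↔ Q * (t + 1) % p = Q * (r + 1) % p := by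
      constructor
      · intro h
        have h3 : t ≡ r [MOD p] := by
          rw [Nat.ModEq, h, Nat.mod_eq_of_lt hr]
        exact (Nat.ModEq.mul_left Q (h3.add_right 1))
      · intro h
        have h3 : t + 1 ≡ r + 1 [MOD p] := Nat.ModEq.cancel_left_of_coprime (Nat.Coprime.symm hQ) h
        have h4 : t ≡ r [MOD p] := Nat.ModEq.add_right_cancel' 1 h3
        rw [Nat.ModEq, Nat.mod_eq_of_lt hr] at h4
        exact h4
    simp only [h1, h2]
  rw [h0, perm_count (fun t => Q * (t + 1) % p ^ 2) (fun t _ => Nat.mod_lt _ hp2)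
    (fun s hs t ht h => mul_succ_inj (Nat.Coprime.pow_right 2 hQ) hs ht h)
    (fun s => s % p = Q * (r + 1) % p ∧ (p - J) * p ≤ s)]
  set r' := Q * (r + 1) % p with hr'
  have hr'p : r' < p := Nat.mod_lt _ hp
  have h5 : (range (p ^ 2)).filter (fun s => s % p = r' ∧ (p - J) * p ≤ s) =
      (Ico (p - J) p).image (fun d => p * d + r') := by
    ext s
    simp only [mem_filter, mem_range, mem_image, mem_Ico]
    constructor
    · rintro ⟨h6, h7, h8⟩
      refine ⟨s / p, ⟨?_, ?_⟩, ?_⟩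
      · exact (Nat.le_div_iff_mul_le hp).mpr h8
      · rw [Nat.div_lt_iff_lt_mul hp, ← sq]
        exact h6
      · rw [← h7]
        exact Nat.div_add_mod s p
    · rintro ⟨d, ⟨h6, h7⟩, rfl⟩
      refine ⟨?_, ?_, ?_⟩
      · have : p * (d + 1) ≤ p * p := Nat.mul_le_mul_left _ h7
        nlinarith
      · rw [Nat.mul_add_mod, Nat.mod_eq_of_lt hr'p]
      · nlinarith
  rw [h5, card_image_of_injective, Nat.card_Ico]
  · omega
  · intro d d' h
    simp only at h
    exact Nat.eq_of_mul_eq_mul_left hp (by omega)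

lemma card_digit' {p Q' J : ℕ} (hp : 0 < p) (hQ : Nat.Coprime Q' p) (hJ : J ≤ p) :
    ((range (p ^ 2)).filter (fun t => (p - J) * p ≤ p * Q' * (t + 1) % p ^ 2)).card = J * p := by
  classical
  have h0 : ∀ t, (p - J) * p ≤ p * Q' * (t + 1) % p ^ 2 ↔ p - J ≤ Q' * (t + 1) % p := by
    intro t
    rw [sq, mul_assoc, Nat.mul_mod_mul_left, mul_comm (p - J) p]
    exact Nat.mul_le_mul_left_iff hp
  have h1 : (((range (p ^ 2)).filter (fun t => (p - J) * p ≤ p * Q' * (t + 1) % p ^ 2)).card : ℝ) =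
      ∑ t ∈ range (p * p), (if p - J ≤ Q' * (t + 1) % p then (1 : ℝ) else 0) := by
    rw [sum_boole, sq]
    congr 2
    apply filter_congr
    intro t _
    rw [← sq]
    exact h0 t
  have hper : Per (fun t => if p - J ≤ Q' * (t + 1) % p then (1 : ℝ) else 0) p := by
    intro t
    have : Q' * (t % p + 1) % p = Q' * (t + 1) % p :=
      Nat.ModEq.mul_left Q' ((Nat.mod_modEq t p).add_right 1)
    simp only [this]
  have h2 := sum_range_mul_per hper p
  rw [h2, sum_boole] at h1
  have h3 : ((range p).filter (fun t => p - J ≤ Q' * (t + 1) % p)).card = J := by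
    rw [perm_count (fun t => Q' * (t + 1) % p) (fun t _ => Nat.mod_lt _ hp)
      (fun s hs t ht h => mul_succ_inj hQ hs ht h) (fun s => p - J ≤ s)]
    have h4 : (range p).filter (fun s => p - J ≤ s) = Ico (p - J) p := by
      ext s
      simp only [mem_filter, mem_range, mem_Ico]
      omega
    rw [h4, Nat.card_Ico]
    omega
  rw [h3] at h1
  have h5 : (((range (p ^ 2)).filter (fun t => (p - J) * p ≤ p * Q' * (t + 1) % p ^ 2)).card : ℝ) =
      ((J * p : ℕ) : ℝ) := by
    rw [h1]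
    push_cast
    ring
  exact_mod_cast h5

end Pool.Agent.Lib.MP_d5700b_nt
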