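import Pool.Agent.Lib.MP_d5700b_nt.Chernoff

set_option autoImplicit false

/-!
Existence of an integer avoiding all bad events.
-/

namespace Pool.Agent.Lib.MP_d5700b_nt

open Finset

variable {𝒢 : Finset ℕ} {bad : ℕ → ℕ → Prop} {c : ℕ → ℕ}

/-- The events attached to second digits. -/
structure DigitData (𝒢 Pr : Finset ℕ) (J : ℕ) (E : ℕ → ℕ → Prop) : Prop where
  prime : ∀ q ∈ Pr, q.Prime
  per : ∀ q ∈ Pr, ∀ t, E q (t % (q ^ 2)) ↔ E q t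
  card : ∀ q ∈ Pr, q ∈ 𝒢 → ∀ r < q, open scoped Classical in
    ((range (q ^ 2)).filter (fun t => t % q = r ∧ E q t)).card = J
  card' : ∀ q ∈ Pr, q ∉ 𝒢 → open scoped Classical in
    ((range (q ^ 2)).filter (fun t => E q t)).card = J * q

theorem Data.exists_good (D : Data 𝒢 bad c) {Pr : Finset ℕ} {J : ℕ} {E : ℕ → ℕ → Prop}
    (DD : DigitData 𝒢 Pr J E) (M T : ℕ)
    (hW : ((Fam 𝒢 M).card : ℝ) ^ 2 * (2 * (M : ℝ) ^ 2) *
        (1 + ∑ q ∈ 𝒢, (q : ℝ) + ∑ q ∈ Pr, (q : ℝ) ^ 2) <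
      T * (Ain 𝒢 c M * (1 - ∑ q ∈ Pr, (J / q : ℝ)) - 𝒢.card * Aout 𝒢 c M)) :
    ∃ t < T, (∀ q ∈ 𝒢, ¬ bad q t) ∧ ∀ q ∈ Pr, ¬ E q t := by
  classical
  by_contra hcon
  push Not at hcon
  have h1 : ∀ t ∈ range T, R 𝒢 bad c M t ^ 2 ≤
      ∑ q ∈ 𝒢, R 𝒢 bad c M t ^ 2 * (if bad q t then 1 else 0) +
      ∑ q ∈ Pr, R 𝒢 bad c M t ^ 2 * (if E q t then 1 else 0) := by
    intro t ht
    have hR : 0 ≤ R 𝒢 bad c M t ^ 2 := sq_nonneg _
    have n1 : 0 ≤ ∑ q ∈ 𝒢, R 𝒢 bad c M t ^ 2 * (if bad q t then 1 else 0) :=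
      sum_nonneg (fun _ _ => mul_nonneg hR (by split_ifs <;> norm_num))
    have n2 : 0 ≤ ∑ q ∈ Pr, R 𝒢 bad c M t ^ 2 * (if E q t then 1 else 0) :=
      sum_nonneg (fun _ _ => mul_nonneg hR (by split_ifs <;> norm_num))
    by_cases hb : ∀ q ∈ 𝒢, ¬ bad q t
    · obtain ⟨q, hq, hEq⟩ := hcon t (mem_range.mp ht) hb
      have h2 := single_le_sum (f := fun q => R 𝒢 bad c M t ^ 2 * (if E q t then (1 : ℝ) else 0))
        (fun i _ => mul_nonneg hR (by split_ifs <;> norm_num)) hq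
      simp only [if_pos hEq, mul_one] at h2
      linarith
    · push Not at hb
      obtain ⟨q, hq, hbq⟩ := hb
      have h2 := single_le_sum (f := fun q => R 𝒢 bad c M t ^ 2 * (if bad q t then (1 : ℝ) else 0))
        (fun i _ => mul_nonneg hR (by split_ifs <;> norm_num)) hq
      simp only [if_pos hbq, mul_one] at h2
      linarith
  have h2 := sum_le_sum h1
  rw [sum_add_distrib] at h2
  have h3 : ∑ t ∈ range T, ∑ q ∈ 𝒢, R 𝒢 bad c M t ^ 2 * (if bad q t then 1 else 0) ≤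
      ∑ q ∈ 𝒢, (T * Aout 𝒢 c M + ((Fam 𝒢 M).card : ℝ) ^ 2 * (2 * (M : ℝ) ^ 2 * q)) := by
    rw [sum_comm]
    apply sum_le_sum
    intro q hq
    exact D.badTerm M q hq T
  have h4 : ∑ t ∈ range T, ∑ q ∈ Pr, R 𝒢 bad c M t ^ 2 * (if E q t then 1 else 0) ≤
      ∑ q ∈ Pr, (T * ((J / q : ℝ) * Ain 𝒢 c M) +
        ((Fam 𝒢 M).card : ℝ) ^ 2 * (2 * (M : ℝ) ^ 2 * (q : ℝ) ^ 2)) := by
    rw [sum_comm]
    apply sum_le_sum
    intro q hq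
    apply D.digit M q J (E q) (DD.prime q hq) (DD.per q hq)
    · intro hqG r hr
      convert DD.card q hq hqG r hr
    · intro hqG
      convert DD.card' q hq hqG
  have h5 := D.lower M T
  have e3 : ∑ q ∈ 𝒢, (T * Aout 𝒢 c M + ((Fam 𝒢 M).card : ℝ) ^ 2 * (2 * (M : ℝ) ^ 2 * q)) =
      T * (𝒢.card * Aout 𝒢 c M) +
        ((Fam 𝒢 M).card : ℝ) ^ 2 * (2 * (M : ℝ) ^ 2) * ∑ q ∈ 𝒢, (q : ℝ) := by
    rw [sum_add_distrib, sum_const, nsmul_eq_mul, mul_sum]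
    congr 1
    · ring
    · apply sum_congr rfl
      intro q _
      ring
  have e4 : ∑ q ∈ Pr, (T * ((J / q : ℝ) * Ain 𝒢 c M) +
        ((Fam 𝒢 M).card : ℝ) ^ 2 * (2 * (M : ℝ) ^ 2 * (q : ℝ) ^ 2)) =
      T * (Ain 𝒢 c M * ∑ q ∈ Pr, (J / q : ℝ)) +
        ((Fam 𝒢 M).card : ℝ) ^ 2 * (2 * (M : ℝ) ^ 2) * ∑ q ∈ Pr, (q : ℝ) ^ 2 := by
    rw [sum_add_distrib, mul_sum, mul_sum, mul_sum]
    congr 1
    · apply sum_congr rfl
      intro q _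
      ring
    · apply sum_congr rfl
      intro q _
      ring
  rw [e3] at h3
  rw [e4] at h4
  nlinarith [h2, h3, h4, h5, hW]

end Pool.Agent.Lib.MP_d5700b_nt
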