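import Pool.Agent.Lib.MP_d5700b_nt.Build
import Pool.Agent.Lib.MP_d5700b_nt.PNTAP

set_option autoImplicit false

/-!
The limit of the sum over primes, by the prime number theorem.
-/

namespace Pool.Agent.Lib.MP_d5700b_nt

open Finset Real Filter Topology

/-- The Chebyshev function on natural numbers. -/
noncomputable def Th (n : ℕ) : ℝ := ∑ p ∈ PP n, Real.log p

lemma Th_tendsto : Tendsto (fun n : ℕ => Th n / n) atTop (𝓝 1) := by
  have h := Pool.Agent.Lib.MP_d5700b_nt.PNTM.theta_ap 1 one_pos 0 (by simp)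
  simp only [Nat.totient_one, Nat.cast_one, div_one] at h
  refine h.congr ?_
  intro n
  congr 1
  apply sum_congr _ (fun _ _ => rfl)
  ext p
  simp [PP, Pool.Agent.Lib.MP_d5700b_nt.PNTM.primesAP, Nat.modEq_one]

lemma PP_mono {m n : ℕ} (h : m ≤ n) : PP m ⊆ PP n := by
  intro p hp
  rw [mem_PP] at hp ⊢
  exact ⟨hp.1.trans h, hp.2⟩

/-- `Th (a k / b) / k` tends to `a / b`. -/
lemma Th_div_tendsto {a b : ℕ} (ha : 0 < a) (hb : 0 < b) :
    Tendsto (fun k : ℕ => Th (a * k / b) / k) atTop (𝓝 ((a : ℝ) / b)) := by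
  have haR : (0 : ℝ) < a := by exact_mod_cast ha
  have hbR : (0 : ℝ) < b := by exact_mod_cast hb
  have h1 : Tendsto (fun k : ℕ => a * k / b) atTop atTop := by
    apply tendsto_atTop.mpr
    intro c
    filter_upwards [eventually_ge_atTop (c * b)] with k hk
    rw [Nat.le_div_iff_mul_le hb]
    nlinarith
  have h2 := Th_tendsto.comp h1
  have h3 : Tendsto (fun k : ℕ => ((a * k / b : ℕ) : ℝ) / k) atTop (𝓝 ((a : ℝ) / b)) := by
    have h4 : Tendsto (fun k : ℕ => (a : ℝ) / b - 1 / k) atTop (𝓝 ((a : ℝ) / b - 0)) :=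
      tendsto_const_nhds.sub tendsto_one_div_atTop_nhds_zero_nat
    rw [sub_zero] at h4
    refine tendsto_of_tendsto_of_tendsto_of_le_of_le' h4 tendsto_const_nhds ?_ ?_
    · filter_upwards [eventually_gt_atTop 0] with k hk
      have hkR : (0 : ℝ) < k := by exact_mod_cast hk
      have h5 : a * k < b * (a * k / b + 1) := Nat.lt_mul_div_succ _ hb
      have h6 : (a : ℝ) * k < b * (((a * k / b : ℕ) : ℝ) + 1) := by exact_mod_cast h5
      rw [sub_le_iff_le_add, ← add_div, div_le_div_iff₀ hbR hkR]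
      linarith
    · filter_upwards [eventually_gt_atTop 0] with k hk
      have hkR : (0 : ℝ) < k := by exact_mod_cast hk
      have h5 : a * k / b * b ≤ a * k := Nat.div_mul_le_self _ _
      have h6 : (((a * k / b : ℕ) : ℝ)) * b ≤ (a : ℝ) * k := by exact_mod_cast h5
      rw [div_le_div_iff₀ hkR hbR]
      linarith
  have h7 := h2.mul h3
  rw [one_mul] at h7
  refine h7.congr' ?_
  filter_upwards [h1.eventually (eventually_gt_atTop 0)] with k hk
  simp only [Function.comp]
  have : ((a * k / b : ℕ) : ℝ) ≠ 0 := by exact_mod_cast hk.ne'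
  field_simp

/-- The layer set. -/
def AA (N i k : ℕ) : Finset ℕ := (PP k).filter (fun p => i * p < 2 * N * (k % p))

lemma AA_sum_le {N i k J : ℕ} (hN : 0 < N) (hi : i ≤ 2 * N) :
    ∑ p ∈ AA N i k, Real.log p ≤ Th (k / (J + 1)) +
      ∑ j ∈ Icc 1 J, (Th (2 * N * k / (2 * N * j + i)) - Th (1 * k / (j + 1))) := by
  have hsub : AA N i k ⊆ PP (k / (J + 1)) ∪ (Icc 1 J).biUnion
      (fun j => PP (2 * N * k / (2 * N * j + i)) \ PP (1 * k / (j + 1))) := by
    intro p hp
    obtain ⟨h1, h2⟩ := mem_filter.mp hp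
    obtain ⟨h3, h4⟩ := mem_PP.mp h1
    have hp0 : 0 < p := h4.pos
    rw [mem_union]
    by_cases hJ : p ≤ k / (J + 1)
    · left
      exact mem_PP.mpr ⟨hJ, h4⟩
    · right
      rw [mem_biUnion]
      have hkp : p * (k / p) + k % p = k := Nat.div_add_mod k p
      have hlt : k % p < p := Nat.mod_lt _ hp0
      have hj1 : 1 ≤ k / p := (Nat.one_le_div_iff hp0).mpr h3
      have hjJ : k / p ≤ J := by
        by_contra hcon
        apply hJ
        rw [Nat.le_div_iff_mul_le (by omega)]
        have : J + 1 ≤ k / p := by omega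
        calc p * (J + 1) ≤ p * (k / p) := Nat.mul_le_mul_left _ this
          _ ≤ k := Nat.mul_div_le _ _
      refine ⟨k / p, mem_Icc.mpr ⟨hj1, hjJ⟩, ?_⟩
      rw [Finset.mem_sdiff]
      constructor
      · apply mem_PP.mpr
        refine ⟨?_, h4⟩
        rw [Nat.le_div_iff_mul_le (by positivity)]
        have : p * (2 * N * (k / p) + i) = 2 * N * (p * (k / p)) + i * p := by ring
        rw [this]
        calc 2 * N * (p * (k / p)) + i * p ≤ 2 * N * (p * (k / p)) + 2 * N * (k % p) := by omega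
          _ = 2 * N * (p * (k / p) + k % p) := by ring
          _ = 2 * N * k := by rw [hkp]
      · rw [mem_PP]
        rintro ⟨h5, -⟩
        rw [one_mul, Nat.le_div_iff_mul_le (by omega)] at h5
        nlinarith
  have hpos : ∀ p : ℕ, 0 ≤ Real.log p := fun p => Real.log_natCast_nonneg p
  calc ∑ p ∈ AA N i k, Real.log p
      ≤ ∑ p ∈ PP (k / (J + 1)) ∪ (Icc 1 J).biUnion
          (fun j => PP (2 * N * k / (2 * N * j + i)) \ PP (1 * k / (j + 1))), Real.log p :=
        sum_le_sum_of_subset_of_nonneg hsub (fun p _ _ => hpos p)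
    _ ≤ ∑ p ∈ PP (k / (J + 1)), Real.log p + ∑ p ∈ (Icc 1 J).biUnion
          (fun j => PP (2 * N * k / (2 * N * j + i)) \ PP (1 * k / (j + 1))), Real.log p := by
        rw [← sum_union_inter]
        exact le_add_of_nonneg_right (sum_nonneg (fun p _ => hpos p))
    _ ≤ ∑ p ∈ PP (k / (J + 1)), Real.log p + ∑ j ∈ Icc 1 J,
          ∑ p ∈ PP (2 * N * k / (2 * N * j + i)) \ PP (1 * k / (j + 1)), Real.log p := by
        apply add_le_add le_rfl
        clear hsub
        induction (Icc 1 J) using Finset.induction_on with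
        | empty => simp
        | insert a s ha ih =>
          rw [biUnion_insert, sum_insert ha]
          refine le_trans ?_ (add_le_add le_rfl ih)
          rw [← sum_union_inter]
          exact le_add_of_nonneg_right (sum_nonneg (fun p _ => hpos p))
    _ ≤ _ := by
        unfold Th
        apply add_le_add le_rfl
        apply sum_le_sum
        intro j hj
        have hj1 := (mem_Icc.mp hj).1
        have hle : 1 * k / (j + 1) ≤ 2 * N * k / (2 * N * j + i) := by
          rw [Nat.le_div_iff_mul_le (by positivity), one_mul]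
          have h1 : k / (j + 1) * (j + 1) ≤ k := Nat.div_mul_le_self _ _
          calc k / (j + 1) * (2 * N * j + i) ≤ k / (j + 1) * (2 * N * j + 2 * N) :=
                Nat.mul_le_mul_left _ (by omega)
            _ = 2 * N * (k / (j + 1) * (j + 1)) := by ring
            _ ≤ 2 * N * k := Nat.mul_le_mul_left _ h1
        rw [sum_sdiff_eq_sub (PP_mono hle)]

lemma layer {N p r : ℕ} (hN : 0 < N) (hp : 0 < p) :
    min 1 (2 * (r : ℝ) / p) ≤ (1 / (N : ℝ)) *
      (((range N).filter (fun i => i * p < 2 * N * r)).card : ℝ) := by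
  have hNR : (0 : ℝ) < N := by exact_mod_cast hN
  have hpR : (0 : ℝ) < p := by exact_mod_cast hp
  set x : ℝ := 2 * N * r / p with hx
  have hsub : range (min ⌈x⌉₊ N) ⊆ (range N).filter (fun i => i * p < 2 * N * r) := by
    intro i hi
    rw [mem_range, lt_min_iff] at hi
    rw [mem_filter, mem_range]
    refine ⟨hi.2, ?_⟩
    have h1 : (i : ℝ) < x := Nat.lt_ceil.mp hi.1
    rw [hx, lt_div_iff₀ hpR] at h1
    exact_mod_cast h1
  have h2 : (min ⌈x⌉₊ N : ℕ) ≤ ((range N).filter (fun i => i * p < 2 * N * r)).card := by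
    have := card_le_card hsub
    rwa [card_range] at this
  have h3 : min x N ≤ (((range N).filter (fun i => i * p < 2 * N * r)).card : ℝ) := by
    have h4 : ((min ⌈x⌉₊ N : ℕ) : ℝ) ≤
        (((range N).filter (fun i => i * p < 2 * N * r)).card : ℝ) := by exact_mod_cast h2
    refine le_trans ?_ h4
    rw [Nat.cast_min]
    exact min_le_min_right _ (Nat.le_ceil x)
  have h5 : min 1 (2 * (r : ℝ) / p) = (1 / (N : ℝ)) * min x N := by
    rw [mul_min_of_nonneg _ _ (by positivity), min_comm]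
    congr 1
    · rw [hx]
      field_simp
    · field_simp
  rw [h5]
  gcongr

lemma sum_le_layers {N k J : ℕ} (hN : 0 < N) :
    ∑ p ∈ PP k, min 1 (2 * ((k % p : ℕ) : ℝ) / p) * Real.log p ≤
      (1 / (N : ℝ)) * ∑ i ∈ range N, (Th (1 * k / (J + 1)) +
        ∑ j ∈ Icc 1 J, (Th (2 * N * k / (2 * N * j + i)) - Th (1 * k / (j + 1)))) := by
  have hNR : (0 : ℝ) < N := by exact_mod_cast hN
  calc ∑ p ∈ PP k, min 1 (2 * ((k % p : ℕ) : ℝ) / p) * Real.log p
      ≤ ∑ p ∈ PP k, ((1 / (N : ℝ)) *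
          (((range N).filter (fun i => i * p < 2 * N * (k % p))).card : ℝ)) * Real.log p := by
        apply sum_le_sum
        intro p hp
        exact mul_le_mul_of_nonneg_right (layer hN (mem_PP.mp hp).2.pos)
          (Real.log_natCast_nonneg p)
    _ = (1 / (N : ℝ)) * ∑ p ∈ PP k, ∑ i ∈ range N,
          (if i * p < 2 * N * (k % p) then Real.log p else 0) := by
        rw [mul_sum]
        apply sum_congr rfl
        intro p _
        rw [← sum_filter, sum_const, nsmul_eq_mul]
        ring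
    _ = (1 / (N : ℝ)) * ∑ i ∈ range N, ∑ p ∈ AA N i k, Real.log p := by
        rw [sum_comm]
        congr 1
        apply sum_congr rfl
        intro i _
        rw [AA, sum_filter]
    _ ≤ _ := by
        apply mul_le_mul_of_nonneg_left _ (by positivity)
        apply sum_le_sum
        intro i hi
        rw [mem_range] at hi
        have h := AA_sum_le (N := N) (i := i) (k := k) (J := J) hN (by omega)
        simpa only [one_mul] using h

/-- The limiting constant with finitely many layers. -/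
noncomputable def CC (N J : ℕ) : ℝ := (1 / (N : ℝ)) * ∑ i ∈ range N, (((1 : ℕ) : ℝ) / (J + 1 : ℕ) +
  ∑ j ∈ Icc 1 J, (((2 * N : ℕ) : ℝ) / (2 * N * j + i : ℕ) - ((1 : ℕ) : ℝ) / (j + 1 : ℕ)))

lemma layers_tendsto {N J : ℕ} (hN : 0 < N) :
    Tendsto (fun k : ℕ => ((1 / (N : ℝ)) * ∑ i ∈ range N, (Th (1 * k / (J + 1)) +
        ∑ j ∈ Icc 1 J, (Th (2 * N * k / (2 * N * j + i)) - Th (1 * k / (j + 1))))) / k)
      atTop (𝓝 (CC N J)) := by
  have h1 : Tendsto (fun k : ℕ => (1 / (N : ℝ)) * ∑ i ∈ range N, (Th (1 * k / (J + 1)) / k +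
        ∑ j ∈ Icc 1 J, (Th (2 * N * k / (2 * N * j + i)) / k - Th (1 * k / (j + 1)) / k)))
      atTop (𝓝 (CC N J)) := by
    unfold CC
    apply Tendsto.const_mul
    apply tendsto_finsetSum
    intro i _
    apply Tendsto.add
    · exact Th_div_tendsto one_pos (by omega)
    · apply tendsto_finsetSum
      intro j hj
      have hj1 := (mem_Icc.mp hj).1
      apply Tendsto.sub
      · exact Th_div_tendsto (by omega) (by positivity)
      · exact Th_div_tendsto one_pos (by omega)
  refine h1.congr ?_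
  intro k
  rw [mul_div_assoc, sum_div]
  congr 1
  apply sum_congr rfl
  intro i _
  rw [add_div, sum_div]
  congr 1
  apply sum_congr rfl
  intro j _
  rw [sub_div]

lemma riemann {N j : ℕ} (hN : 0 < N) (hj : 1 ≤ j) :
    (1 / (N : ℝ)) * ∑ i ∈ range N, (((2 * N : ℕ) : ℝ) / (2 * N * j + i : ℕ)) ≤
      2 * Real.log ((j : ℝ) + 1 / 2) - 2 * Real.log j + 1 / N := by
  have hNR : (0 : ℝ) < N := by exact_mod_cast hN
  have hjR : (1 : ℝ) ≤ j := by exact_mod_cast hj
  -- the shifted sum
  have h1 : ∀ n : ℕ, ∑ i ∈ range n, (1 / (2 * N * j + (i + 1) : ℝ)) ≤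
      Real.log (2 * N * j + n) - Real.log (2 * N * j) := by
    intro n
    induction n with
    | zero => simp
    | succ n ih =>
      rw [sum_range_succ]
      have h2 : (0 : ℝ) < 2 * N * j + n := by positivity
      have h3 : (0 : ℝ) < 2 * N * j + (n + 1) := by positivity
      have h4 := Real.one_sub_inv_le_log_of_pos (show (0 : ℝ) < (2 * N * j + (n + 1)) / (2 * N * j + n)
        by positivity)
      rw [Real.log_div h3.ne' h2.ne', inv_div] at h4
      have h5 : 1 - (2 * (N : ℝ) * j + n) / (2 * N * j + (n + 1)) = 1 / (2 * N * j + (n + 1)) := by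
        field_simp
        ring
      push_cast
      linarith
  have h2 := h1 N
  have h3 : ∑ i ∈ range N, (1 / (2 * N * j + i : ℝ)) ≤
      ∑ i ∈ range N, (1 / (2 * N * j + (i + 1) : ℝ)) + 1 / (2 * N * j) := by
    have h4 := sum_range_succ' (fun i : ℕ => 1 / (2 * N * j + i : ℝ)) N
    have h5 := sum_range_succ (fun i : ℕ => 1 / (2 * N * j + i : ℝ)) N
    rw [h5] at h4
    push_cast at h4
    have h6 : 0 ≤ 1 / (2 * (N : ℝ) * j + N) := by positivity
    rw [add_zero] at h4
    linarith
  have h4 : (1 / (N : ℝ)) * ∑ i ∈ range N, (((2 * N : ℕ) : ℝ) / (2 * N * j + i : ℕ)) =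
      2 * ∑ i ∈ range N, (1 / (2 * N * j + i : ℝ)) := by
    rw [mul_sum, mul_sum]
    apply sum_congr rfl
    intro i _
    push_cast
    field_simp
  rw [h4]
  have h5 : Real.log (2 * N * j + N) - Real.log (2 * N * j) =
      Real.log ((j : ℝ) + 1 / 2) - Real.log j := by
    have e1 : (2 : ℝ) * N * j + N = (2 * N) * (j + 1 / 2) := by ring
    rw [e1, Real.log_mul (x := 2 * (N : ℝ)) (by positivity) (by positivity),
      Real.log_mul (x := 2 * (N : ℝ)) (y := (j : ℝ)) (by positivity) (by positivity)]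
    ring
  rw [h5] at h2
  have h6 : 2 * (1 / (2 * (N : ℝ) * j)) ≤ 1 / N := by
    have : 2 * (1 / (2 * (N : ℝ) * j)) = 1 / (N * j) := by field_simp
    rw [this]
    apply one_div_le_one_div_of_le hNR
    nlinarith
  linarith

/-- The limiting constant. -/
noncomputable def c0 : ℝ := 1 + Real.log 4 - Real.log π - Real.eulerMascheroniConstant

lemma sum_tendsto_c0 : Tendsto (fun J : ℕ => ∑ j ∈ Icc 1 J,
    (2 * Real.log ((j : ℝ) + 1 / 2) - 2 * Real.log j - 1 / ((j : ℝ) + 1))) atTop (𝓝 c0) := by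
  have h1 := Real.BohrMollerup.tendsto_log_gamma (x := 1 / 2) (by norm_num)
  have h2 := Real.tendsto_harmonic_sub_log
  have h3 : Tendsto (fun J : ℕ => 1 / ((J : ℝ) + 1)) atTop (𝓝 0) :=
    tendsto_one_div_add_atTop_nhds_zero_nat
  have h4 : Tendsto (fun J : ℕ => 1 + Real.log 4 - 2 * Real.BohrMollerup.logGammaSeq (1 / 2) J -
      ((harmonic J : ℝ) - Real.log J) - 1 / ((J : ℝ) + 1)) atTop
      (𝓝 (1 + Real.log 4 - 2 * Real.log (Real.Gamma (1 / 2)) -
        Real.eulerMascheroniConstant - 0)) :=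
    (((tendsto_const_nhds.sub (h1.const_mul 2)).sub h2).sub h3)
  have h5 : 1 + Real.log 4 - 2 * Real.log (Real.Gamma (1 / 2)) -
        Real.eulerMascheroniConstant - 0 = c0 := by
    rw [Real.Gamma_one_half_eq, Real.log_sqrt Real.pi_pos.le]
    unfold c0
    ring
  rw [h5] at h4
  refine h4.congr' ?_
  filter_upwards [eventually_gt_atTop 0] with J hJ
  have e1 : ∀ n : ℕ, ∑ j ∈ Icc 1 n, (2 * Real.log ((j : ℝ) + 1 / 2) - 2 * Real.log j -
      1 / ((j : ℝ) + 1)) = 2 * (∑ m ∈ range (n + 1), Real.log (1 / 2 + m)) - 2 * Real.log (1 / 2) -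
        2 * Real.log n.factorial - ((harmonic n : ℝ) + 1 / ((n : ℝ) + 1) - 1) := by
    intro n
    induction n with
    | zero => simp
    | succ n ih =>
      rw [← Finset.insert_Icc_right_eq_Icc_add_one (by omega), sum_insert (by simp), ih,
        sum_range_succ _ (n + 1), Nat.factorial_succ, harmonic_succ]
      push_cast
      rw [Real.log_mul (by positivity) (by positivity)]
      have : Real.log (1 / 2 + ((n : ℝ) + 1)) = Real.log ((n : ℝ) + 1 + 1 / 2) := by
        congr 1
        ring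
      rw [this]
      field_simp
      ring
  rw [e1]
  unfold Real.BohrMollerup.logGammaSeq
  have h6 : Real.log 4 = 2 * Real.log 2 := by
    rw [show (4 : ℝ) = 2 ^ 2 by norm_num, Real.log_pow]
    push_cast
    ring
  have h7 : Real.log (1 / 2) = - Real.log 2 := by
    rw [one_div, Real.log_inv]
  rw [h6, h7]
  ring

/-- The asymptotic upper bound for the sum over primes. -/
theorem sum_le_c0 (ε : ℝ) (hε : 0 < ε) : ∀ᶠ k : ℕ in atTop,
    ∑ p ∈ PP k, min 1 (2 * ((k % p : ℕ) : ℝ) / p) * Real.log p ≤ (c0 + ε) * k := by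
  -- choose `J`
  have h1 : ∀ᶠ J : ℕ in atTop, ∑ j ∈ Icc 1 J,
    (2 * Real.log ((j : ℝ) + 1 / 2) - 2 * Real.log j - 1 / ((j : ℝ) + 1)) < c0 + ε / 4 :=
    sum_tendsto_c0.eventually (gt_mem_nhds (by linarith))
  have h2 : ∀ᶠ J : ℕ in atTop, 1 / ((J : ℝ) + 1) < ε / 4 :=
    tendsto_one_div_add_atTop_nhds_zero_nat.eventually (gt_mem_nhds (by linarith))
  obtain ⟨J, hJ1, hJ2⟩ := (h1.and h2).exists
  -- choose `N`
  obtain ⟨N, hN⟩ := exists_nat_gt (4 * (J : ℝ) / ε)
  have hNR : (0 : ℝ) < N := lt_of_le_of_lt (by positivity) hN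
  have hN0 : 0 < N := by exact_mod_cast hNR
  have hN1 : (J : ℝ) * (1 / N) < ε / 4 := by
    rw [div_lt_iff₀ hε] at hN
    rw [mul_one_div, div_lt_iff₀ hNR]
    linarith
  have hCC : CC N J < c0 + 3 / 4 * ε := by
    have e1 : CC N J = 1 / ((J : ℝ) + 1) + ∑ j ∈ Icc 1 J, ((1 / (N : ℝ)) *
        ∑ i ∈ range N, (((2 * N : ℕ) : ℝ) / (2 * N * j + i : ℕ)) - 1 / ((j : ℝ) + 1)) := by
      unfold CC
      rw [sum_add_distrib, mul_add]
      congr 1
      · rw [sum_const, card_range, nsmul_eq_mul]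
        push_cast
        field_simp
      · rw [sum_comm, mul_sum]
        apply sum_congr rfl
        intro j _
        rw [sum_sub_distrib, mul_sub, sum_const, card_range, nsmul_eq_mul]
        congr 1
        push_cast
        field_simp
    rw [e1]
    have h3 : ∑ j ∈ Icc 1 J, ((1 / (N : ℝ)) *
        ∑ i ∈ range N, (((2 * N : ℕ) : ℝ) / (2 * N * j + i : ℕ)) - 1 / ((j : ℝ) + 1)) ≤
        ∑ j ∈ Icc 1 J, ((2 * Real.log ((j : ℝ) + 1 / 2) - 2 * Real.log j - 1 / ((j : ℝ) + 1)) +
          1 / N) := by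
      apply sum_le_sum
      intro j hj
      have := riemann hN0 (mem_Icc.mp hj).1
      linarith
    rw [sum_add_distrib, sum_const, Nat.card_Icc, Nat.add_sub_cancel, nsmul_eq_mul] at h3
    linarith
  have h4 := (layers_tendsto (J := J) hN0).eventually
    (gt_mem_nhds (show CC N J < c0 + ε by linarith))
  filter_upwards [h4, eventually_gt_atTop 0] with k hk hk0
  have hkR : (0 : ℝ) < k := by exact_mod_cast hk0
  rw [div_lt_iff₀ hkR] at hk
  exact (sum_le_layers (J := J) hN0).trans hk.le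

end Pool.Agent.Lib.MP_d5700b_nt
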