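import Pool.Agent.Lib.MP_d5700b_nt.Asymp

set_option autoImplicit false

/-!
The upper bound for large `k`.
-/

namespace Pool.Agent.Lib.MP_d5700b_nt

open Finset Real Filter

lemma PP_card_eq (k : ℕ) : (PP k).card = Nat.primeCounting k := by
  rw [Nat.primeCounting, Nat.primeCounting', Nat.count_eq_card_filter_range]
  rfl

lemma log_QQ_le {k J : ℕ} :
    Real.log (QQ k J) ≤ 2 * Real.log k * (Sm k J).card + ∑ p ∈ NB k J, Real.log p := by
  unfold QQ
  have h1 : ((∏ p ∈ Sm k J, p ^ (Nat.log p k + 1) : ℕ) : ℝ) ≠ 0 := by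
    have : (∏ p ∈ Sm k J, p ^ (Nat.log p k + 1)) ≠ 0 :=
      prod_ne_zero_iff.mpr (fun p hp => pow_ne_zero _ (mem_Sm.mp hp).1.2.ne_zero)
    exact_mod_cast this
  have h2 : ((∏ p ∈ NB k J, p : ℕ) : ℝ) ≠ 0 := by
    have : (∏ p ∈ NB k J, p) ≠ 0 := prod_ne_zero_iff.mpr (fun p hp => (mem_NB.mp hp).1.1.2.ne_zero)
    exact_mod_cast this
  rw [Nat.cast_mul, Real.log_mul h1 h2]
  apply add_le_add
  · push_cast
    rw [Real.log_prod (fun p hp => pow_ne_zero _ (by exact_mod_cast (mem_Sm.mp hp).1.2.ne_zero))]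
    calc ∑ p ∈ Sm k J, Real.log ((p : ℝ) ^ (Nat.log p k + 1)) ≤ ∑ _p ∈ Sm k J, 2 * Real.log k := by
          apply sum_le_sum
          intro p hp
          obtain ⟨⟨h3, h4⟩, h5⟩ := mem_Sm.mp hp
          have hk0 : k ≠ 0 := by
            have := h4.pos
            omega
          have hk : (0 : ℝ) < k := by exact_mod_cast Nat.pos_of_ne_zero hk0
          have h6 : ((p : ℝ) ^ (Nat.log p k + 1)) ≤ k * k := by
            rw [pow_succ]
            have h7 : p ^ Nat.log p k ≤ k := Nat.pow_log_le_self p hk0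
            have h8 : ((p : ℝ)) ^ Nat.log p k ≤ k := by exact_mod_cast h7
            have h9 : (p : ℝ) ≤ k := by exact_mod_cast h3
            gcongr
          calc Real.log ((p : ℝ) ^ (Nat.log p k + 1)) ≤ Real.log ((k : ℝ) * k) := by
                apply Real.log_le_log _ h6
                have : (0 : ℝ) < p := by exact_mod_cast h4.pos
                positivity
            _ = 2 * Real.log k := by
                rw [Real.log_mul hk.ne' hk.ne']
                ring
      _ = 2 * Real.log k * (Sm k J).card := by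
          rw [sum_const, nsmul_eq_mul]
          ring
  · push_cast
    rw [Real.log_prod (fun p hp => by exact_mod_cast (mem_NB.mp hp).1.1.2.ne_zero)]

lemma main_sum_le {k J : ℕ} :
    2 * (∑ p ∈ GG k J, ((k % p : ℕ) / p : ℝ) * Real.log p) + ∑ p ∈ NB k J, Real.log p ≤
      ∑ p ∈ PP k, min 1 (2 * ((k % p : ℕ) : ℝ) / p) * Real.log p := by
  classical
  have hlog : ∀ p ∈ PP k, 0 ≤ Real.log p := fun p hp =>
    Real.log_nonneg (by exact_mod_cast (mem_PP.mp hp).2.one_le)
  have h0 : ∀ p ∈ PP k, 0 ≤ min 1 (2 * ((k % p : ℕ) : ℝ) / p) * Real.log p := fun p hp =>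
    mul_nonneg (le_min zero_le_one (by positivity)) (hlog p hp)
  have h1 : ∑ p ∈ GG k J, min 1 (2 * ((k % p : ℕ) : ℝ) / p) * Real.log p =
      2 * (∑ p ∈ GG k J, ((k % p : ℕ) / p : ℝ) * Real.log p) := by
    rw [mul_sum]
    apply sum_congr rfl
    intro p hp
    obtain ⟨⟨⟨h1, h2⟩, h3⟩, h4⟩ := mem_GG.mp hp
    have hp0 : (0 : ℝ) < p := by exact_mod_cast h2.pos
    have h5 : ((2 * (k % p) : ℕ) : ℝ) ≤ p := by exact_mod_cast h4
    push_cast at h5
    rw [min_eq_right (by rw [div_le_one hp0]; push_cast; exact h5)]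
    ring
  have h2 : ∑ p ∈ NB k J, min 1 (2 * ((k % p : ℕ) : ℝ) / p) * Real.log p =
      ∑ p ∈ NB k J, Real.log p := by
    apply sum_congr rfl
    intro p hp
    obtain ⟨⟨⟨h1, h2⟩, h3⟩, h4⟩ := mem_NB.mp hp
    have hp0 : (0 : ℝ) < p := by exact_mod_cast h2.pos
    push Not at h4
    have h5 : (p : ℝ) ≤ ((2 * (k % p) : ℕ) : ℝ) := by exact_mod_cast h4.le
    push_cast at h5
    rw [min_eq_left (by rw [one_le_div hp0]; push_cast; exact h5), one_mul]
  rw [← h1, ← h2]
  have h3 : ∑ p ∈ GG k J, min 1 (2 * ((k % p : ℕ) : ℝ) / p) * Real.log p +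
      ∑ p ∈ NB k J, min 1 (2 * ((k % p : ℕ) : ℝ) / p) * Real.log p =
      ∑ p ∈ La k J, min 1 (2 * ((k % p : ℕ) : ℝ) / p) * Real.log p := by
    unfold GG NB
    exact sum_filter_add_sum_filter_not _ _ _
  rw [h3]
  exact sum_le_sum_of_subset_of_nonneg (La_sub k J) (fun p hp _ => h0 p hp)

/-- The upper bound. -/
theorem upper (ε : ℝ) (hε : 0 < ε) : ∀ᶠ k : ℕ in atTop,
    ∃ m, k + 2 ≤ m ∧ (∀ p, p.Prime → p ∣ m.choose k → k < p) ∧
      Real.log m ≤ ∑ p ∈ PP k, min 1 (2 * ((k % p : ℕ) : ℝ) / p) * Real.log p + ε * k := by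
  set δ : ℝ := min 1 (ε / 5) with hδ
  have hδ0 : 0 < δ := lt_min one_pos (by positivity)
  have hδ1 : δ ≤ 1 := min_le_left _ _
  have hδε : 5 * δ ≤ ε := by
    have : δ ≤ ε / 5 := min_le_right _ _
    linarith
  set J : ℕ := ⌈8 / δ⌉₊ + 2 with hJdef
  have hJ2 : 2 ≤ J := by omega
  have hJδ : 8 / δ ≤ J := by
    have : 8 / δ ≤ (⌈8 / δ⌉₊ : ℝ) := Nat.le_ceil _
    rw [hJdef]
    push_cast
    linarith
  have hJ0 : (0 : ℝ) < J := by positivity
  have hlogtop : Tendsto (fun k : ℕ => Real.log k) atTop atTop :=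
    Real.tendsto_log_atTop.comp tendsto_natCast_atTop_atTop
  have hpi : ∀ᶠ x : ℝ in atTop, (Nat.primeCounting ⌊x⌋₊ : ℝ) ≤ 2 * x / Real.log x := by
    have h1 := Chebyshev.eventually_primeCounting_le (ε := 6 / 10) (by norm_num)
    filter_upwards [h1, eventually_ge_atTop 2] with x hx hx2
    refine hx.trans ?_
    have h2 : 0 < Real.log x := Real.log_pos (by linarith)
    apply div_le_div_of_nonneg_right _ h2.le
    have h3 : Real.log 4 ≤ 14 / 10 := by
      have h6 : Real.log 4 = 2 * Real.log 2 := by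
        rw [show (4 : ℝ) = 2 ^ 2 by norm_num, Real.log_pow]
        norm_num
      rw [h6]
      have := Real.log_two_lt_d9
      linarith
    nlinarith
  have e1 : ∀ᶠ k : ℕ in atTop, J * J < k := eventually_gt_atTop _
  have e2 : ∀ᶠ k : ℕ in atTop, max (4 * (J : ℝ) * J) (max 1 (2 * Real.log 4 / δ)) ≤ Real.log k :=
    hlogtop.eventually_ge_atTop _
  have e3 : ∀ᶠ k : ℕ in atTop, (Nat.primeCounting k : ℝ) ≤ 2 * k / Real.log k := by
    have := tendsto_natCast_atTop_atTop.eventually hpi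
    filter_upwards [this] with k hk
    rwa [Nat.floor_natCast] at hk
  have e4 : ∀ᶠ k : ℕ in atTop, (Nat.primeCounting ⌊(k : ℝ) / J⌋₊ : ℝ) ≤
      2 * ((k : ℝ) / J) / Real.log ((k : ℝ) / J) := by
    have h1 : Tendsto (fun k : ℕ => (k : ℝ) / J) atTop atTop :=
      tendsto_natCast_atTop_atTop.atTop_div_const hJ0
    exact h1.eventually hpi
  have e5 : ∀ᶠ k : ℕ in atTop, 4 * Real.log k + 10 ≤ δ * k := by
    have h1 := (isLittleO_log_id_atTop.bound (c := δ / 8) (by positivity))
    have h2 := tendsto_natCast_atTop_atTop.eventually h1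
    have h3 : ∀ᶠ k : ℕ in atTop, 20 / δ ≤ (k : ℝ) :=
      tendsto_natCast_atTop_atTop.eventually_ge_atTop _
    filter_upwards [h2, h3, eventually_ge_atTop 1] with k hk hk3 hk1
    have hk1' : (1 : ℝ) ≤ k := by exact_mod_cast hk1
    simp only [id, Real.norm_eq_abs] at hk
    rw [abs_of_nonneg (Real.log_nonneg hk1'), abs_of_nonneg (by linarith)] at hk
    rw [div_le_iff₀ hδ0] at hk3
    nlinarith
  have e6 : ∀ᶠ k : ℕ in atTop, Real.log (8 * k) * Real.log k ≤ 3 / 10 * δ ^ 2 * k := by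
    have h0 : (0 : ℝ) < 3 / 40 * δ ^ 2 := by positivity
    have h1 := ((isLittleO_pow_log_id_atTop (n := 2)).bound h0)
    have h2 := tendsto_natCast_atTop_atTop.eventually h1
    filter_upwards [h2, eventually_ge_atTop 8] with k hk hk8
    have hk8' : (8 : ℝ) ≤ k := by exact_mod_cast hk8
    have hkpos : (0 : ℝ) < k := by linarith
    have hlk : 0 ≤ Real.log k := Real.log_nonneg (by linarith)
    simp only [id, Real.norm_eq_abs] at hk
    rw [abs_of_nonneg (sq_nonneg _), abs_of_nonneg hkpos.le] at hk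
    have h3 : Real.log (8 * k) ≤ 2 * Real.log k := by
      rw [Real.log_mul (by norm_num) hkpos.ne']
      have := Real.log_le_log (by norm_num) hk8'
      linarith
    nlinarith
  filter_upwards [e1, e2, e3, e4, e5, e6] with k hk1 hk2 hk3 hk4 hk5 hk6
  have hkpos : 0 < k := by omega
  have hkR : (0 : ℝ) < k := by exact_mod_cast hkpos
  set L := Real.log k with hL
  have hL1 : 4 * (J : ℝ) * J ≤ L := (le_max_left _ _).trans hk2
  have hL2 : 1 ≤ L := ((le_max_left _ _).trans (le_max_right _ _)).trans hk2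
  have hL3 : 2 * Real.log 4 / δ ≤ L := ((le_max_right _ _).trans (le_max_right _ _)).trans hk2
  have hLpos : 0 < L := by linarith
  have hLa : ((La k J).card : ℝ) ≤ 2 * k / L := by
    refine le_trans ?_ hk3
    rw [← PP_card_eq]
    exact_mod_cast card_le_card (La_sub k J)
  obtain ⟨m, hm1, hm2, hm3⟩ := bound_core (k := k) (J := J) (δ := δ)
    (P := Real.exp (-(3 / 10 * δ ^ 2 * (k / Real.log k)))) hJ2 hk1 hδ0 hδ1 hL2 rfl (by
      rw [Real.exp_neg, inv_mul_le_one₀ (Real.exp_pos _)]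
      have h8k : (0 : ℝ) < 8 * k := by positivity
      rw [← Real.exp_log h8k]
      apply Real.exp_le_exp.mpr
      rw [← mul_div_assoc, le_div_iff₀ hLpos]
      exact hk6) (by
      calc ((La k J).card : ℝ) * (J * J) ≤ (2 * k / L) * (J * J) := by gcongr
        _ = (2 * (J * J) / L) * k := by ring
        _ ≤ (1 / 2) * k := by
            apply mul_le_mul_of_nonneg_right _ hkR.le
            rw [div_le_iff₀ hLpos]
            linarith
        _ = k / 2 := by ring)
  refine ⟨m, hm1, hm2, hm3.trans ?_⟩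
  have h1 := log_QQ_le (k := k) (J := J)
  have h2 := main_sum_le (k := k) (J := J)
  -- the small primes
  have h3 : 2 * L * (Sm k J).card ≤ δ * k := by
    have h4 : ((Sm k J).card : ℝ) ≤ Nat.primeCounting ⌊(k : ℝ) / J⌋₊ := by
      rw [← PP_card_eq]
      have : Sm k J ⊆ PP ⌊(k : ℝ) / J⌋₊ := by
        intro p hp
        obtain ⟨⟨h5, h6⟩, h7⟩ := mem_Sm.mp hp
        rw [mem_PP]
        refine ⟨?_, h6⟩
        apply Nat.le_floor
        rw [le_div_iff₀ hJ0]
        have : ((J * p : ℕ) : ℝ) ≤ k := by exact_mod_cast h7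
        push_cast at this
        linarith
      exact_mod_cast card_le_card this
    have h5 : L / 2 ≤ Real.log ((k : ℝ) / J) := by
      have h6 : (J : ℝ) * J ≤ k := by exact_mod_cast hk1.le
      rw [Real.log_div hkR.ne' hJ0.ne']
      have h7 := Real.log_le_log (by positivity) h6
      rw [Real.log_mul hJ0.ne' hJ0.ne'] at h7
      linarith
    have h6 : 2 * ((k : ℝ) / J) / Real.log ((k : ℝ) / J) ≤ 2 * ((k : ℝ) / J) / (L / 2) :=
      div_le_div_of_nonneg_left (by positivity) (by positivity) h5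
    calc 2 * L * (Sm k J).card ≤ 2 * L * (2 * ((k : ℝ) / J) / (L / 2)) := by
          apply mul_le_mul_of_nonneg_left _ (by positivity)
          exact h4.trans (hk4.trans h6)
      _ = 8 / J * k := by
          field_simp
          ring
      _ ≤ δ * k := by
          apply mul_le_mul_of_nonneg_right _ hkR.le
          rw [div_le_iff₀ hJ0]
          rw [div_le_iff₀ hδ0] at hJδ
          linarith
  have h4 : ((GG k J).card : ℝ) * Real.log 4 ≤ δ * k := by
    have h5 : ((GG k J).card : ℝ) ≤ 2 * k / L := by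
      refine le_trans ?_ hLa
      exact_mod_cast card_le_card (GG_sub k J)
    have h6 : 0 ≤ Real.log 4 := Real.log_nonneg (by norm_num)
    calc ((GG k J).card : ℝ) * Real.log 4 ≤ (2 * k / L) * Real.log 4 := by gcongr
      _ = (2 * Real.log 4 / L) * k := by ring
      _ ≤ δ * k := by
          apply mul_le_mul_of_nonneg_right _ hkR.le
          rw [div_le_iff₀ hLpos]
          rw [div_le_iff₀ hδ0] at hL3
          linarith
  nlinarith

end Pool.Agent.Lib.MP_d5700b_nt
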