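import Pool.Agent.Lib.MP_d5700b_nt.PNTFourier

/-!
# Tauberian part and the Wiener-Ikehara theorem
-/

set_option autoImplicit false

open Real MeasureTheory Filter Topology Set

namespace Pool.Agent.Lib.MP_d5700b_nt.PNTM.PNT

lemma tendsto_half {L : ℝ} (hL : 0 < L) :
    Tendsto (fun u : ℝ => ∫ t in Ioi (0:ℝ), kerL L (u - t)) atTop (𝓝 mass) := by
  have h1 : ∀ u : ℝ, ∫ t in Ioi (0:ℝ), kerL L (u - t) = ∫ v in Iio u, kerL L v := by
    intro u
    rw [← integral_indicator measurableSet_Ioi, ← integral_indicator measurableSet_Iio,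
      ← integral_sub_left_eq_self ((Iio u).indicator (kerL L)) volume u]
    congr 1
    ext t
    by_cases ht : 0 < t
    · rw [indicator_of_mem (show t ∈ Ioi (0:ℝ) from ht),
        indicator_of_mem (show u - t ∈ Iio u from by simp [ht])]
    · rw [indicator_of_notMem (show t ∉ Ioi (0:ℝ) from ht),
        indicator_of_notMem (show u - t ∉ Iio u from by simpa using ht)]
  simp_rw [h1]
  rw [← integral_kerL hL]
  exact (aecover_Iio tendsto_id).integral_tendsto_of_countably_generated (integrable_kerL hL)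

section

variable {B : ℝ → ℝ} {A C : ℝ}

lemma integrable_B {L : ℝ} (hL : 0 < L) (hB : Measurable B) (hB0 : ∀ t, 0 ≤ B t)
    (hBC : ∀ t, B t ≤ C) (u : ℝ) : Integrable (fun t => B t * kerL L (u - t)) := by
  have hK : Integrable (fun t => kerL L (u - t)) := (integrable_kerL hL).comp_sub_left u
  refine Integrable.mono' (hK.const_mul C) ?_ ?_
  · exact hB.aestronglyMeasurable.mul hK.aestronglyMeasurable
  · filter_upwards with t
    rw [norm_mul, norm_of_nonneg (hB0 t), norm_of_nonneg (kerL_nonneg hL _)]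
    exact mul_le_mul_of_nonneg_right (hBC t) (kerL_nonneg hL _)

lemma window {L : ℝ} (u δ : ℝ) (hδ : 0 < δ) :
    ∫ t in Ioc (u - δ) (u + δ), kerL L (u - t) = ∫ v in (-δ)..δ, kerL L v := by
  rw [← intervalIntegral.integral_of_le (by linarith), intervalIntegral.integral_comp_sub_left]
  congr 1 <;> ring

lemma lower {L : ℝ} (hL : 0 < L) (hB : Measurable B) (hB0 : ∀ t, 0 ≤ B t)
    (hBC : ∀ t, B t ≤ C) (hmono : Monotone fun t => B t * Real.exp t) {u δ : ℝ} (hδ : 0 < δ)
    (hu : δ ≤ u) :
    B (u - δ) * Real.exp (-2 * δ) * ∫ v in (-δ)..δ, kerL L v ≤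
      ∫ t in Ioi (0:ℝ), B t * kerL L (u - t) := by
  have hsub : Ioc (u - δ) (u + δ) ⊆ Ioi 0 := fun t ht => lt_of_le_of_lt (by linarith) ht.1
  have h1 : ∫ t in Ioc (u - δ) (u + δ), B t * kerL L (u - t) ≤
      ∫ t in Ioi (0:ℝ), B t * kerL L (u - t) := by
    refine setIntegral_mono_set (integrable_B hL hB hB0 hBC u).integrableOn ?_ hsub.eventuallyLE
    filter_upwards with t
    exact mul_nonneg (hB0 t) (kerL_nonneg hL _)
  refine le_trans ?_ h1
  rw [← window u δ hδ, ← integral_const_mul]
  refine setIntegral_mono_on ?_ (integrable_B hL hB hB0 hBC u).integrableOn measurableSet_Ioc ?_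
  · exact (((integrable_kerL hL).comp_sub_left u).const_mul _).integrableOn
  · intro t ht
    refine mul_le_mul_of_nonneg_right ?_ (kerL_nonneg hL _)
    have h2 : B (u - δ) * Real.exp (u - δ) ≤ B t * Real.exp t := hmono ht.1.le
    have h3 : B (u - δ) * Real.exp (u - δ - t) ≤ B t := by
      rw [Real.exp_sub, ← mul_div_assoc, div_le_iff₀ (Real.exp_pos _)]
      exact h2
    refine le_trans ?_ h3
    refine mul_le_mul_of_nonneg_left ?_ (hB0 _)
    apply Real.exp_le_exp.mpr
    linarith [ht.2]

lemma upper {L : ℝ} (hL : 0 < L) (hB : Measurable B) (hB0 : ∀ t, 0 ≤ B t)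
    (hBC : ∀ t, B t ≤ C) (hmono : Monotone fun t => B t * Real.exp t) {u δ : ℝ} (hδ : 0 < δ) :
    ∫ t in Ioi (0:ℝ), B t * kerL L (u - t) ≤
      B (u + δ) * Real.exp (2 * δ) * mass + C * (mass - ∫ v in (-δ)..δ, kerL L v) := by
  have hK : Integrable (fun t => kerL L (u - t)) := (integrable_kerL hL).comp_sub_left u
  have hC : 0 ≤ C := (hB0 0).trans (hBC 0)
  have h0 : ∫ t in Ioi (0:ℝ), B t * kerL L (u - t) ≤ ∫ t, B t * kerL L (u - t) := by
    refine setIntegral_le_integral (integrable_B hL hB hB0 hBC u) ?_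
    filter_upwards with t
    exact mul_nonneg (hB0 t) (kerL_nonneg hL _)
  refine h0.trans ?_
  have hind : Integrable ((Ioc (u - δ) (u + δ)).indicator fun t => kerL L (u - t)) :=
    hK.indicator measurableSet_Ioc
  have hint : Integrable (fun t => B (u + δ) * Real.exp (2 * δ) * kerL L (u - t) +
      C * (kerL L (u - t) - (Ioc (u - δ) (u + δ)).indicator (fun t => kerL L (u - t)) t)) :=
    (hK.const_mul _).add ((hK.sub hind).const_mul C)
  refine (integral_mono (integrable_B hL hB hB0 hBC u) hint ?_).trans (le_of_eq ?_)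
  · intro t
    simp only
    by_cases ht : t ∈ Ioc (u - δ) (u + δ)
    · rw [indicator_of_mem ht, sub_self, mul_zero, add_zero]
      refine mul_le_mul_of_nonneg_right ?_ (kerL_nonneg hL _)
      have h2 : B t * Real.exp t ≤ B (u + δ) * Real.exp (u + δ) := hmono ht.2
      have h3 : B t ≤ B (u + δ) * Real.exp (u + δ - t) := by
        rw [Real.exp_sub, ← mul_div_assoc, le_div_iff₀ (Real.exp_pos _)]
        exact h2
      refine h3.trans ?_
      refine mul_le_mul_of_nonneg_left ?_ (hB0 _)
      apply Real.exp_le_exp.mpr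
      linarith [ht.1]
    · rw [indicator_of_notMem ht, sub_zero]
      have h1 : B t * kerL L (u - t) ≤ C * kerL L (u - t) :=
        mul_le_mul_of_nonneg_right (hBC t) (kerL_nonneg hL _)
      have h2 : 0 ≤ B (u + δ) * Real.exp (2 * δ) * kerL L (u - t) :=
        mul_nonneg (mul_nonneg (hB0 _) (Real.exp_pos _).le) (kerL_nonneg hL _)
      linarith
  · have hKi : Integrable (fun t => kerL L (u - t) -
        (Ioc (u - δ) (u + δ)).indicator (fun t => kerL L (u - t)) t) := hK.sub hind
    rw [integral_add (hK.const_mul _) (hKi.const_mul C), integral_const_mul,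
      integral_const_mul, integral_sub hK hind, integral_indicator measurableSet_Ioc,
      window u δ hδ, integral_sub_left_eq_self _ volume u, integral_kerL hL]

theorem tauber (hB : Measurable B) (hB0 : ∀ t, 0 ≤ B t)
    (hBC : ∀ t, B t ≤ C) (hmono : Monotone fun t => B t * Real.exp t)
    (hsm : ∀ L : ℝ, 0 < L →
      Tendsto (fun u : ℝ => ∫ t in Ioi (0:ℝ), (B t - A) * kerL L (u - t)) atTop (𝓝 0)) :
    Tendsto B atTop (𝓝 A) := by
  have hC : 0 ≤ C := (hB0 0).trans (hBC 0)
  -- the smoothed averages converge to `A * mass`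
  have hJ : ∀ L : ℝ, 0 < L →
      Tendsto (fun u : ℝ => ∫ t in Ioi (0:ℝ), B t * kerL L (u - t)) atTop (𝓝 (A * mass)) := by
    intro L hL
    have h1 := (hsm L hL).add ((tendsto_half hL).const_mul A)
    rw [zero_add] at h1
    refine h1.congr ?_
    intro u
    have hK : Integrable (fun t => kerL L (u - t)) := (integrable_kerL hL).comp_sub_left u
    rw [← integral_const_mul, ← integral_add]
    · congr 1
      ext t
      ring
    · have := ((integrable_B hL hB hB0 hBC u).sub (hK.const_mul A)).integrableOn (s := Ioi (0:ℝ))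
      refine this.congr (Eventually.of_forall fun t => ?_)
      simp only [Pi.sub_apply]
      ring
    · exact (hK.const_mul A).integrableOn
  -- for every `η` there is a scale with window mass `> mass - η`
  have hscale : ∀ η : ℝ, 0 < η → ∃ L : ℝ, 0 < L ∧ mass - η < ∫ v in (-η)..η, kerL L v := by
    intro η hη
    have h1 := (tendsto_mass.eventually (lt_mem_nhds (show mass - η < mass by linarith))).and
      (eventually_gt_atTop 0)
    obtain ⟨R, hR, hR0⟩ := h1.exists
    refine ⟨R / η, by positivity, ?_⟩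
    rw [intervalIntegral_kerL (by positivity), show R / η * -η = -R by field_simp,
      show R / η * η = R by field_simp]
    exact hR
  have hup : ∀ η : ℝ, 0 < η → η < mass →
      ∀ᶠ v in atTop, B v ≤ Real.exp (2 * η) * (A * mass + η) / (mass - η) := by
    intro η hη hηm
    obtain ⟨L, hL, hLm⟩ := hscale η hη
    have h1 : ∀ᶠ u in atTop, ∫ t in Ioi (0:ℝ), B t * kerL L (u - t) < A * mass + η :=
      (hJ L hL).eventually (gt_mem_nhds (by linarith))
    have h2 : ∀ᶠ u in atTop, B (u - η) ≤ Real.exp (2 * η) * (A * mass + η) / (mass - η) := by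
      filter_upwards [h1, eventually_ge_atTop η] with u hu hu2
      have h3 := lower hL hB hB0 hBC hmono hη hu2
      have h4 : B (u - η) * Real.exp (-2 * η) * (mass - η) ≤
          B (u - η) * Real.exp (-2 * η) * ∫ v in (-η)..η, kerL L v :=
        mul_le_mul_of_nonneg_left hLm.le (mul_nonneg (hB0 _) (Real.exp_pos _).le)
      have h5 : B (u - η) * Real.exp (-2 * η) * (mass - η) ≤ A * mass + η := by linarith
      rw [le_div_iff₀ (by linarith)]
      have h6 : Real.exp (2 * η) * Real.exp (-2 * η) = 1 := by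
        rw [← Real.exp_add]; simp
      calc B (u - η) * (mass - η)
          = Real.exp (2 * η) * (B (u - η) * Real.exp (-2 * η) * (mass - η)) := by
            rw [show Real.exp (2 * η) * (B (u - η) * Real.exp (-2 * η) * (mass - η)) =
              (Real.exp (2 * η) * Real.exp (-2 * η)) * (B (u - η) * (mass - η)) by ring, h6,
              one_mul]
        _ ≤ Real.exp (2 * η) * (A * mass + η) :=
            mul_le_mul_of_nonneg_left h5 (Real.exp_pos _).le
    have h7 := (tendsto_atTop_add_const_right atTop η tendsto_id).eventually h2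
    filter_upwards [h7] with v hv
    simpa using hv
  have hlo : ∀ η : ℝ, 0 < η →
      ∀ᶠ v in atTop, Real.exp (-2 * η) * (A * mass - η - C * η) / mass ≤ B v := by
    intro η hη
    obtain ⟨L, hL, hLm⟩ := hscale η hη
    have h1 : ∀ᶠ u in atTop, A * mass - η < ∫ t in Ioi (0:ℝ), B t * kerL L (u - t) :=
      (hJ L hL).eventually (lt_mem_nhds (by linarith))
    have h2 : ∀ᶠ u in atTop, Real.exp (-2 * η) * (A * mass - η - C * η) / mass ≤ B (u + η) := by
      filter_upwards [h1] with u hu
      have h3 := upper hL hB hB0 hBC hmono hη (u := u)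
      have h4 : C * (mass - ∫ v in (-η)..η, kerL L v) ≤ C * η :=
        mul_le_mul_of_nonneg_left (by linarith) hC
      have h5 : A * mass - η - C * η ≤ B (u + η) * Real.exp (2 * η) * mass := by linarith
      rw [div_le_iff₀ mass_pos]
      have h6 : Real.exp (-2 * η) * Real.exp (2 * η) = 1 := by
        rw [← Real.exp_add]; simp
      calc Real.exp (-2 * η) * (A * mass - η - C * η)
          ≤ Real.exp (-2 * η) * (B (u + η) * Real.exp (2 * η) * mass) :=
            mul_le_mul_of_nonneg_left h5 (Real.exp_pos _).le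
        _ = (Real.exp (-2 * η) * Real.exp (2 * η)) * (B (u + η) * mass) := by ring
        _ = B (u + η) * mass := by rw [h6, one_mul]
    have h7 := (tendsto_atTop_add_const_right atTop (-η) tendsto_id).eventually h2
    filter_upwards [h7] with v hv
    simpa using hv
  -- conclusion
  have hm := mass_pos
  rw [tendsto_order]
  constructor
  · intro a ha
    have hcont : Tendsto (fun η : ℝ => Real.exp (-2 * η) * (A * mass - η - C * η) / mass) (𝓝[>] 0)
        (𝓝 A) := by
      have : Tendsto (fun η : ℝ => Real.exp (-2 * η) * (A * mass - η - C * η) / mass) (𝓝 0)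
          (𝓝 (Real.exp (-2 * 0) * (A * mass - 0 - C * 0) / mass)) := by
        refine Continuous.tendsto (by fun_prop) 0
      rw [show Real.exp (-2 * 0) * (A * mass - 0 - C * 0) / mass = A by
        simp [hm.ne']] at this
      exact this.mono_left nhdsWithin_le_nhds
    obtain ⟨η, h1, h2⟩ := ((hcont.eventually (lt_mem_nhds ha)).and self_mem_nhdsWithin).exists
    filter_upwards [hlo η h2] with v hv
    exact lt_of_lt_of_le h1 hv
  · intro a ha
    have hcont : Tendsto (fun η : ℝ => Real.exp (2 * η) * (A * mass + η) / (mass - η)) (𝓝[>] 0)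
        (𝓝 A) := by
      have : ContinuousAt (fun η : ℝ => Real.exp (2 * η) * (A * mass + η) / (mass - η)) 0 := by
        refine ContinuousAt.div (by fun_prop) (by fun_prop) ?_
        simpa using hm.ne'
      have := this.tendsto
      rw [show Real.exp (2 * 0) * (A * mass + 0) / (mass - 0) = A by
        simp [hm.ne']] at this
      exact this.mono_left nhdsWithin_le_nhds
    obtain ⟨η, ⟨h1, h2⟩, h3⟩ := (((hcont.eventually (gt_mem_nhds ha)).and
      self_mem_nhdsWithin).and (Ioo_mem_nhdsGT hm)).exists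
    filter_upwards [hup η h2 h3.2] with v hv
    exact lt_of_le_of_lt hv h1

end

section

variable {f : ℕ → ℝ} {A C : ℝ} {G : ℂ → ℂ}

/-- summatory function -/
noncomputable def summ (f : ℕ → ℝ) (x : ℝ) : ℝ := ∑ k ∈ Finset.Icc 1 ⌊x⌋₊, f k

/-- normalised summatory function in logarithmic scale -/
noncomputable def bet (f : ℕ → ℝ) (t : ℝ) : ℝ := summ f (Real.exp t) * Real.exp (-t)

lemma summ_mono (hf : ∀ n, 0 ≤ f n) : Monotone (summ f) := by
  intro x y hxy
  unfold summ
  refine Finset.sum_le_sum_of_subset_of_nonneg ?_ fun _ _ _ => hf _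
  exact Finset.Icc_subset_Icc_right (Nat.floor_mono hxy)

lemma summ_nonneg (hf : ∀ n, 0 ≤ f n) (x : ℝ) : 0 ≤ summ f x :=
  Finset.sum_nonneg fun _ _ => hf _

lemma bet_mul_exp (t : ℝ) : bet f t * Real.exp t = summ f (Real.exp t) := by
  unfold bet
  rw [mul_assoc, ← Real.exp_add]
  simp

lemma bet_nonneg (hf : ∀ n, 0 ≤ f n) (t : ℝ) : 0 ≤ bet f t :=
  mul_nonneg (summ_nonneg hf _) (Real.exp_pos _).le

lemma measurable_bet (hf : ∀ n, 0 ≤ f n) : Measurable (bet f) := by
  unfold bet
  exact ((summ_mono hf).measurable.comp Real.measurable_exp).mul (by fun_prop)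

lemma laplace (hf : ∀ n, 0 ≤ f n) (hC : ∀ n : ℕ, ∑ k ∈ Finset.Icc 1 n, f k ≤ C * n) {s : ℂ}
    (hs : 1 < s.re) :
    LSeries (fun n => (f n : ℂ)) s =
      s * ∫ t in Ioi (0:ℝ), (bet f t : ℂ) * Complex.exp (-(s - 1) * t) := by
  have hO : (fun n : ℕ => ∑ k ∈ Finset.Icc 1 n, f k) =O[atTop] fun n => (n : ℝ) ^ (1:ℝ) := by
    refine Asymptotics.isBigO_of_le' (c := C) _ ?_
    intro n
    rw [Real.rpow_one, norm_of_nonneg (Finset.sum_nonneg fun _ _ => hf _),
      norm_of_nonneg (Nat.cast_nonneg n)]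
    exact hC n
  rw [LSeries_eq_mul_integral_of_nonneg f zero_le_one hs hO hf]
  congr 1
  rw [← Real.exp_zero, ← integral_comp_exp_Ioi]
  refine setIntegral_congr_fun measurableSet_Ioi ?_
  intro t _
  simp only
  have h1 : ((Real.exp t : ℝ) : ℂ) ^ (-(s + 1)) = Complex.exp (-(s + 1) * t) := by
    rw [Complex.cpow_def_of_ne_zero (by exact_mod_cast (Real.exp_pos t).ne'),
      ← Complex.ofReal_log (Real.exp_pos t).le, Real.log_exp]
    congr 1
    ring
  have h2 : Complex.exp t * Complex.exp (-(s + 1) * t) =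
      Complex.exp (-t) * Complex.exp (-(s - 1) * t) := by
    rw [← Complex.exp_add, ← Complex.exp_add]
    congr 1
    ring
  rw [h1, Complex.real_smul]
  simp only [bet, summ]
  push_cast
  linear_combination (∑ k ∈ Finset.Icc 1 ⌊Real.exp t⌋₊, (f k : ℂ)) * h2

lemma bet_le (hC : ∀ n : ℕ, ∑ k ∈ Finset.Icc 1 n, f k ≤ C * n) (hC0 : 0 ≤ C) (t : ℝ) :
    bet f t ≤ C := by
  unfold bet summ
  have h1 : (⌊Real.exp t⌋₊ : ℝ) ≤ Real.exp t := Nat.floor_le (Real.exp_pos t).le
  have h2 : ∑ k ∈ Finset.Icc 1 ⌊Real.exp t⌋₊, f k ≤ C * Real.exp t :=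
    (hC _).trans (mul_le_mul_of_nonneg_left h1 hC0)
  calc (∑ k ∈ Finset.Icc 1 ⌊Real.exp t⌋₊, f k) * Real.exp (-t)
      ≤ C * Real.exp t * Real.exp (-t) := mul_le_mul_of_nonneg_right h2 (Real.exp_pos _).le
    _ = C := by rw [mul_assoc, ← Real.exp_add]; simp

/-- The Wiener-Ikehara theorem (with an a priori Chebyshev bound). -/
theorem wiener_ikehara (hf : ∀ n, 0 ≤ f n) (hC : ∀ n : ℕ, ∑ k ∈ Finset.Icc 1 n, f k ≤ C * n)
    (hG : ContinuousOn G {s | 1 ≤ s.re})
    (hGf : ∀ s : ℂ, 1 < s.re → G s = LSeries (fun n => (f n : ℂ)) s - A / (s - 1)) :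
    Tendsto (fun x : ℝ => (∑ k ∈ Finset.Icc 1 ⌊x⌋₊, f k) / x) atTop (𝓝 A) := by
  have hC0 : 0 ≤ C := by
    have := hC 1
    simp only [Finset.Icc_self, Finset.sum_singleton, Nat.cast_one, mul_one] at this
    exact (hf 1).trans this
  have hbC : ∀ t, |bet f t - A| ≤ C + |A| := by
    intro t
    have h1 : 0 ≤ bet f t := bet_nonneg hf t
    calc |bet f t - A| ≤ |bet f t| + |A| := abs_sub _ _
      _ ≤ C + |A| := by
        rw [abs_of_nonneg h1]
        linarith [bet_le hC hC0 t]
  have hre0 : ∀ s : ℂ, 1 ≤ s.re → s ≠ 0 := by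
    intro s hs h
    rw [h] at hs
    simp at hs
    linarith
  have hW : ContinuousOn (fun s => (G s - A) / s) {s : ℂ | 1 ≤ s.re} :=
    (hG.sub continuousOn_const).div continuousOn_id fun s hs => hre0 s hs
  have hWb : ∀ s : ℂ, 1 < s.re → (G s - A) / s =
      ∫ t in Ioi (0:ℝ), ((bet f t - A : ℝ) : ℂ) * Complex.exp (-(s - 1) * t) := by
    intro s hs
    have hs0 : s ≠ 0 := hre0 s hs.le
    have hs1 : s - 1 ≠ 0 := by
      intro h
      have : s = 1 := by linear_combination h
      rw [this] at hs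
      simp at hs
    have hexp : IntegrableOn (fun t : ℝ => Complex.exp (-(s - 1) * t)) (Ioi 0) :=
      integrableOn_exp_mul_complex_Ioi (by simp; linarith) 0
    have hbint : IntegrableOn (fun t : ℝ => (bet f t : ℂ) * Complex.exp (-(s - 1) * t)) (Ioi 0) := by
      refine Integrable.mono' (hexp.norm.const_mul C) ?_ ?_
      · exact ((Complex.measurable_ofReal.comp (measurable_bet hf)).mul
          (by fun_prop)).aestronglyMeasurable
      · filter_upwards with t
        rw [norm_mul, Complex.norm_real, norm_of_nonneg (bet_nonneg hf t)]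
        exact mul_le_mul_of_nonneg_right (bet_le hC hC0 t) (norm_nonneg _)
    have h1 : ∫ t in Ioi (0:ℝ), ((bet f t - A : ℝ) : ℂ) * Complex.exp (-(s - 1) * t) =
        (∫ t in Ioi (0:ℝ), (bet f t : ℂ) * Complex.exp (-(s - 1) * t)) -
        A * ∫ t in Ioi (0:ℝ), Complex.exp (-(s - 1) * t) := by
      rw [← integral_const_mul, ← integral_sub hbint (hexp.const_mul _)]
      congr 1
      ext t
      push_cast
      ring
    rw [h1, integral_exp_mul_complex_Ioi (by simp; linarith), hGf s hs, laplace hf hC hs]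
    simp only [Complex.ofReal_zero, mul_zero, Complex.exp_zero]
    generalize (∫ t in Ioi (0:ℝ), (bet f t : ℂ) * Complex.exp (-(s - 1) * t)) = I
    field_simp
    ring
  have hT : Tendsto (bet f) atTop (𝓝 A) := by
    refine tauber (measurable_bet hf)
      (bet_nonneg hf) (bet_le hC hC0) ?_ ?_
    · intro s t hst
      simp only [bet_mul_exp]
      exact summ_mono hf (Real.exp_le_exp.mpr hst)
    · intro L hL
      exact tendsto_smooth ((measurable_bet hf).sub_const A) hbC hW hWb hL
  have h2 := hT.comp Real.tendsto_log_atTop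
  refine h2.congr' ?_
  filter_upwards [eventually_gt_atTop 0] with x hx
  simp only [Function.comp, bet, summ, Real.exp_neg, Real.exp_log hx, div_eq_mul_inv]

end

end Pool.Agent.Lib.MP_d5700b_nt.PNTM.PNT
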