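import Pool.Agent.Lib.MP_d5700b_nt.Periodic

set_option autoImplicit false

/-!
The quadratic weights.
-/

namespace Pool.Agent.Lib.MP_d5700b_nt

open Finset

open scoped Classical in
/-- The centred indicator. -/
noncomputable def G (bad : ℕ → ℕ → Prop) (c : ℕ → ℕ) (p t : ℕ) : ℝ :=
  if bad p t then -1 else (c p : ℝ) / ((p : ℝ) - c p)

/-- The second moment of `G`. -/
noncomputable def β (c : ℕ → ℕ) (p : ℕ) : ℝ := (c p : ℝ) / ((p : ℝ) - c p)

/-- The data of the sieve. -/
structure Data (𝒢 : Finset ℕ) (bad : ℕ → ℕ → Prop) (c : ℕ → ℕ) : Prop where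
  prime : ∀ p ∈ 𝒢, p.Prime
  le : ∀ p ∈ 𝒢, 2 * c p ≤ p
  per : ∀ p ∈ 𝒢, ∀ t, bad p (t % p) ↔ bad p t
  card : ∀ p ∈ 𝒢, open scoped Classical in ((range p).filter (fun t => bad p t)).card = c p

variable {𝒢 : Finset ℕ} {bad : ℕ → ℕ → Prop} {c : ℕ → ℕ}

namespace Data

variable (D : Data 𝒢 bad c)
include D

lemma sub_pos {p : ℕ} (hp : p ∈ 𝒢) : (0 : ℝ) < (p : ℝ) - c p := by
  have h1 := D.le p hp
  have h2 := (D.prime p hp).pos
  have h3 : c p < p := by omega
  have h4 : (c p : ℝ) < p := by exact_mod_cast h3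
  linarith

lemma β_nonneg {p : ℕ} (hp : p ∈ 𝒢) : 0 ≤ β c p :=
  div_nonneg (Nat.cast_nonneg _) (D.sub_pos hp).le

lemma β_le_one {p : ℕ} (hp : p ∈ 𝒢) : β c p ≤ 1 := by
  unfold β
  rw [div_le_one (D.sub_pos hp)]
  have h1 : (2 * (c p : ℝ)) ≤ p := by exact_mod_cast D.le p hp
  linarith

lemma abs_G_le {p : ℕ} (hp : p ∈ 𝒢) (t : ℕ) : |G bad c p t| ≤ 1 := by
  unfold G
  split_ifs
  · simp
  · change |β c p| ≤ 1
    rw [abs_of_nonneg (D.β_nonneg hp)]
    exact D.β_le_one hp

lemma per_G {p : ℕ} (hp : p ∈ 𝒢) : Per (G bad c p) p := by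
  intro t
  unfold G
  by_cases h : bad p t
  · rw [if_pos h, if_pos ((D.per p hp t).mpr h)]
  · rw [if_neg h, if_neg (fun h' => h ((D.per p hp t).mp h'))]

lemma sum_split {p : ℕ} (hp : p ∈ 𝒢) (x y : ℝ) :
    (open scoped Classical in ∑ t ∈ range p, (if bad p t then x else y)) =
      c p * x + ((p : ℝ) - c p) * y := by
  classical
  rw [sum_ite, sum_const, sum_const, nsmul_eq_mul, nsmul_eq_mul]
  have h1 := D.card p hp
  have h2 := card_filter_add_card_filter_not (s := range p) (fun t => bad p t)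
  rw [card_range] at h2
  have h3 : ((range p).filter (fun t => bad p t)).card = c p := by convert h1
  have h4 : (((range p).filter (fun t => ¬ bad p t)).card : ℝ) = (p : ℝ) - c p := by
    rw [h3] at h2
    have : ((c p : ℕ) : ℝ) + (((range p).filter (fun t => ¬ bad p t)).card : ℝ) = p := by
      exact_mod_cast h2
    linarith
  rw [h3, h4]

lemma sum_G {p : ℕ} (hp : p ∈ 𝒢) : ∑ t ∈ range p, G bad c p t = 0 := by
  classical
  have h1 := D.sum_split hp (-1) ((c p : ℝ) / ((p : ℝ) - c p))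
  have h2 := (D.sub_pos hp).ne'
  unfold G
  rw [h1]
  field_simp
  ring

lemma sum_G_sq {p : ℕ} (hp : p ∈ 𝒢) :
    ∑ t ∈ range p, G bad c p t * G bad c p t = p * β c p := by
  classical
  have h1 := D.sum_split hp 1 (β c p * β c p)
  have h2 := (D.sub_pos hp).ne'
  have h3 : ∀ t, G bad c p t * G bad c p t = if bad p t then 1 else β c p * β c p := by
    intro t
    unfold G β
    split_ifs <;> ring
  rw [sum_congr rfl (fun t _ => h3 t), h1]
  unfold β
  field_simp
  ring

end Data

/-- The factor at `p` of the product of two monomials. -/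
noncomputable def H (bad : ℕ → ℕ → Prop) (c : ℕ → ℕ) (S S' : Finset ℕ) (p t : ℕ) : ℝ :=
  (if p ∈ S then G bad c p t else 1) * (if p ∈ S' then G bad c p t else 1)

lemma prod_H (S S' : Finset ℕ) (t : ℕ) :
    ∏ p ∈ S ∪ S', H bad c S S' p t = (∏ p ∈ S, G bad c p t) * ∏ p ∈ S', G bad c p t := by
  classical
  unfold H
  rw [prod_mul_distrib]
  congr 1
  · rw [prod_ite_mem, union_inter_cancel_left]
  · rw [prod_ite_mem, union_inter_cancel_right]

lemma prod_H_erase (S S' : Finset ℕ) (q t : ℕ) :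
    (∏ p ∈ (S ∪ S').erase q, H bad c S S' p t) * H bad c S S' q t =
      (∏ p ∈ S, G bad c p t) * ∏ p ∈ S', G bad c p t := by
  classical
  rw [← prod_H]
  by_cases h : q ∈ S ∪ S'
  · exact prod_erase_mul _ _ h
  · rw [erase_eq_of_notMem h]
    have h1 : q ∉ S := fun h' => h (mem_union_left _ h')
    have h2 : q ∉ S' := fun h' => h (mem_union_right _ h')
    have h3 : H bad c S S' q t = 1 := by simp [H, h1, h2]
    rw [h3, mul_one]

variable (D : Data 𝒢 bad c)
include D

lemma Data.abs_H_le {S S' : Finset ℕ} (hS : S ⊆ 𝒢) (hS' : S' ⊆ 𝒢) (p t : ℕ) :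
    |H bad c S S' p t| ≤ 1 := by
  unfold H
  rw [abs_mul]
  apply mul_le_one₀ _ (abs_nonneg _)
  · split_ifs with h
    · exact D.abs_G_le (hS' h) t
    · simp
  · split_ifs with h
    · exact D.abs_G_le (hS h) t
    · simp

lemma Data.per_H {S S' : Finset ℕ} (hS : S ⊆ 𝒢) (hS' : S' ⊆ 𝒢) (p : ℕ) :
    Per (H bad c S S' p) p := by
  intro t
  unfold H
  congr 1
  · split_ifs with h
    · exact D.per_G (hS h) t
    · rfl
  · split_ifs with h
    · exact D.per_G (hS' h) t
    · rfl

lemma Data.sum_H {S S' : Finset ℕ} (hS : S ⊆ 𝒢) (hS' : S' ⊆ 𝒢) {p : ℕ} (hp : p ∈ S ∪ S') :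
    (∑ t ∈ range p, H bad c S S' p t) / p = if p ∈ S ∧ p ∈ S' then β c p else 0 := by
  classical
  have hpG : p ∈ 𝒢 := by
    rcases mem_union.mp hp with h | h
    · exact hS h
    · exact hS' h
  have hp0 : (p : ℝ) ≠ 0 := by exact_mod_cast (D.prime p hpG).ne_zero
  unfold H
  by_cases h1 : p ∈ S <;> by_cases h2 : p ∈ S'
  · simp only [h1, h2, if_true, and_self]
    rw [D.sum_G_sq hpG, mul_div_cancel_left₀ _ hp0]
  · simp only [h1, h2, if_true, if_false, and_false, mul_one]
    rw [D.sum_G hpG, zero_div]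
  · simp only [h1, h2, if_true, if_false, false_and, one_mul]
    rw [D.sum_G hpG, zero_div]
  · exact absurd hp (by simp [h1, h2])

/-- The main correlation estimate. -/
theorem Data.special {S S' : Finset ℕ} (hS : S ⊆ 𝒢) (hS' : S' ⊆ 𝒢) {M : ℕ}
    (hSM : ∏ p ∈ S, p ≤ M) (hSM' : ∏ p ∈ S', p ≤ M) (q m : ℕ) (h : ℕ → ℝ) (hm : m ≠ 0)
    (hcop : ∀ p ∈ 𝒢, p ≠ q → Nat.Coprime m p) (hper : Per h m) (hb : ∀ t, |h t| ≤ 1) (T : ℕ) :
    |∑ t ∈ range T, (∏ p ∈ (S ∪ S').erase q, H bad c S S' p t) * h t -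
      T * ((if S.erase q = S'.erase q then ∏ p ∈ S.erase q, β c p else 0) *
        ((∑ t ∈ range m, h t) / m))| ≤ 2 * (M : ℝ) ^ 2 * m := by
  classical
  set U := insert q ((S ∪ S').erase q) with hU
  let md : ℕ → ℕ := fun p => if p = q then m else p
  let h' : ℕ → ℕ → ℝ := fun p t => if p = q then h t else H bad c S S' p t
  have hqU : q ∉ (S ∪ S').erase q := notMem_erase _ _
  have hmem : ∀ p ∈ (S ∪ S').erase q, p ≠ q ∧ p ∈ 𝒢 := by
    intro p hp
    refine ⟨ne_of_mem_erase hp, ?_⟩
    rcases mem_union.mp (mem_of_mem_erase hp) with h | h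
    · exact hS h
    · exact hS' h
  have key := sum_prod_approx U md h' ?_ ?_ ?_ ?_ T
  · have e1 : ∀ t, ∏ u ∈ U, h' u t = (∏ p ∈ (S ∪ S').erase q, H bad c S S' p t) * h t := by
      intro t
      rw [hU, prod_insert hqU, mul_comm]
      congr 1
      · apply prod_congr rfl
        intro p hp
        simp only [h', if_neg (hmem p hp).1]
      · simp only [h', if_true]
    have e2 : ∏ u ∈ U, ((∑ t ∈ range (md u), h' u t) / md u) =
        (if S.erase q = S'.erase q then ∏ p ∈ S.erase q, β c p else 0) *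
        ((∑ t ∈ range m, h t) / m) := by
      rw [hU, prod_insert hqU, mul_comm]
      congr 1
      · have e3 : ∏ p ∈ (S ∪ S').erase q, ((∑ t ∈ range (md p), h' p t) / md p) =
            ∏ p ∈ (S ∪ S').erase q, (if p ∈ S ∧ p ∈ S' then β c p else 0) := by
          apply prod_congr rfl
          intro p hp
          simp only [md, h', if_neg (hmem p hp).1]
          exact D.sum_H hS hS' (mem_of_mem_erase hp)
        rw [e3]
        split_ifs with heq
        · have e4 : (S ∪ S').erase q = S.erase q := by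
            rw [erase_union_distrib, ← heq, union_self]
          rw [e4]
          apply prod_congr rfl
          intro p hp
          rw [if_pos]
          refine ⟨mem_of_mem_erase hp, ?_⟩
          rw [heq] at hp
          exact mem_of_mem_erase hp
        · obtain ⟨p, hp⟩ : ∃ p, ¬ (p ∈ S.erase q ↔ p ∈ S'.erase q) := by
            by_contra hcon
            push Not at hcon
            exact heq (Finset.ext hcon)
          have hpq : p ≠ q := by
            rintro rfl
            simp at hp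
          apply prod_eq_zero (i := p)
          · rw [mem_erase, mem_union]
            refine ⟨hpq, ?_⟩
            by_contra hcon
            push Not at hcon
            simp [hcon.1, hcon.2] at hp
          · rw [if_neg]
            rintro ⟨h1, h2⟩
            exact hp ⟨fun _ => mem_erase.mpr ⟨hpq, h2⟩, fun _ => mem_erase.mpr ⟨hpq, h1⟩⟩
      · simp only [md, h', if_true]
    rw [e2, sum_congr rfl (fun t _ => e1 t)] at key
    refine key.trans ?_
    have e5 : ∏ u ∈ U, (md u : ℝ) = m * ∏ p ∈ (S ∪ S').erase q, (p : ℝ) := by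
      rw [hU, prod_insert hqU]
      congr 1
      · simp only [md, if_true]
      · apply prod_congr rfl
        intro p hp
        simp only [md, if_neg (hmem p hp).1]
    rw [e5]
    have hpos : ∀ p ∈ S ∪ S', 1 ≤ p := by
      intro p hp
      rcases mem_union.mp hp with h | h
      · exact (D.prime p (hS h)).one_le
      · exact (D.prime p (hS' h)).one_le
    have e6 : ∏ p ∈ (S ∪ S').erase q, p ≤ M * M := by
      calc ∏ p ∈ (S ∪ S').erase q, p ≤ ∏ p ∈ S ∪ S', p :=
            prod_le_prod_of_subset_of_one_le' (erase_subset _ _) (fun p hp _ => hpos p hp)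
        _ ≤ (∏ p ∈ S ∪ S', p) * ∏ p ∈ S ∩ S', p := by
            apply Nat.le_mul_of_pos_right
            apply prod_pos
            intro p hp
            exact hpos p (mem_union_left _ (mem_of_mem_inter_left hp))
        _ = (∏ p ∈ S, p) * ∏ p ∈ S', p := prod_union_inter
        _ ≤ M * M := Nat.mul_le_mul hSM hSM'
    have e7 : ∏ p ∈ (S ∪ S').erase q, (p : ℝ) ≤ (M : ℝ) ^ 2 := by
      have e8 : ((∏ p ∈ (S ∪ S').erase q, p : ℕ) : ℝ) ≤ ((M * M : ℕ) : ℝ) := Nat.cast_le.mpr e6
      rw [Nat.cast_prod, Nat.cast_mul] at e8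
      rw [sq]
      exact e8
    calc 2 * ((m : ℝ) * ∏ p ∈ (S ∪ S').erase q, (p : ℝ)) ≤ 2 * ((m : ℝ) * (M : ℝ) ^ 2) := by gcongr
      _ = 2 * (M : ℝ) ^ 2 * m := by ring
  · intro u hu
    simp only [md, h']
    split_ifs with h1
    · exact hper
    · exact D.per_H hS hS' u
  · intro u hu
    simp only [md]
    split_ifs with h1
    · exact hm
    · rcases mem_insert.mp hu with h2 | h2
      · exact absurd h2 h1
      · exact (D.prime u (hmem u h2).2).ne_zero
  · intro u hu v hv huv
    simp only [md]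
    rcases mem_insert.mp hu with h2 | h2 <;> rcases mem_insert.mp hv with h3 | h3
    · exact absurd (h2.trans h3.symm) huv
    · rw [if_pos h2, if_neg (hmem v h3).1]
      exact hcop v (hmem v h3).2 (hmem v h3).1
    · rw [if_neg (hmem u h2).1, if_pos h3]
      exact (hcop u (hmem u h2).2 (hmem u h2).1).symm
    · rw [if_neg (hmem u h2).1, if_neg (hmem v h3).1]
      exact (Nat.coprime_primes (D.prime u (hmem u h2).2) (D.prime v (hmem v h3).2)).mpr huv
  · intro u hu t
    simp only [h']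
    split_ifs with h1
    · exact hb t
    · exact D.abs_H_le hS hS' u t

end Pool.Agent.Lib.MP_d5700b_nt
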