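import Pool.Agent.Lib.MP_d5700b_nt.Sieve

set_option autoImplicit false

/-!
Sums of the quadratic weights.
-/

namespace Pool.Agent.Lib.MP_d5700b_nt

open Finset

/-- The admissible sets. -/
def Fam (𝒢 : Finset ℕ) (M : ℕ) : Finset (Finset ℕ) := 𝒢.powerset.filter (fun S => ∏ p ∈ S, p ≤ M)

/-- The non-admissible sets. -/
def Out (𝒢 : Finset ℕ) (M : ℕ) : Finset (Finset ℕ) :=
  𝒢.powerset.filter (fun S => ¬ ∏ p ∈ S, p ≤ M)

/-- The linear form. -/
noncomputable def R (𝒢 : Finset ℕ) (bad : ℕ → ℕ → Prop) (c : ℕ → ℕ) (M t : ℕ) : ℝ :=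
  ∑ S ∈ Fam 𝒢 M, ∏ p ∈ S, G bad c p t

/-- The mass of the admissible sets. -/
noncomputable def Ain (𝒢 : Finset ℕ) (c : ℕ → ℕ) (M : ℕ) : ℝ := ∑ S ∈ Fam 𝒢 M, ∏ p ∈ S, β c p

/-- The mass of the other sets. -/
noncomputable def Aout (𝒢 : Finset ℕ) (c : ℕ → ℕ) (M : ℕ) : ℝ := ∑ S ∈ Out 𝒢 M, ∏ p ∈ S, β c p

variable {𝒢 : Finset ℕ} {bad : ℕ → ℕ → Prop} {c : ℕ → ℕ}

lemma R_sq (M t : ℕ) : R 𝒢 bad c M t ^ 2 =
    ∑ S ∈ Fam 𝒢 M, ∑ S' ∈ Fam 𝒢 M, (∏ p ∈ S, G bad c p t) * ∏ p ∈ S', G bad c p t := by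
  unfold R
  rw [sq, sum_mul_sum]

lemma mem_Fam {M : ℕ} {S : Finset ℕ} : S ∈ Fam 𝒢 M ↔ S ⊆ 𝒢 ∧ ∏ p ∈ S, p ≤ M := by
  simp [Fam]

lemma mem_Out {M : ℕ} {S : Finset ℕ} : S ∈ Out 𝒢 M ↔ S ⊆ 𝒢 ∧ ¬ ∏ p ∈ S, p ≤ M := by
  simp [Out]

variable (D : Data 𝒢 bad c)
include D

theorem Data.approx (M q m : ℕ) (e : ℕ → ℝ) (hm : m ≠ 0)
    (hcop : ∀ p ∈ 𝒢, p ≠ q → Nat.Coprime m p) (hqm : q ∣ m) (hper : Per e m)
    (hb : ∀ t, |e t| ≤ 1) (T : ℕ) :
    |∑ t ∈ range T, R 𝒢 bad c M t ^ 2 * e t -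
      T * ∑ S ∈ Fam 𝒢 M, ∑ S' ∈ Fam 𝒢 M,
        ((if S.erase q = S'.erase q then ∏ p ∈ S.erase q, β c p else 0) *
        ((∑ t ∈ range m, H bad c S S' q t * e t) / m))| ≤
      ((Fam 𝒢 M).card : ℝ) ^ 2 * (2 * (M : ℝ) ^ 2 * m) := by
  classical
  have h1 : ∑ t ∈ range T, R 𝒢 bad c M t ^ 2 * e t = ∑ S ∈ Fam 𝒢 M, ∑ S' ∈ Fam 𝒢 M,
      ∑ t ∈ range T, (∏ p ∈ (S ∪ S').erase q, H bad c S S' p t) * (H bad c S S' q t * e t) := by
    calc ∑ t ∈ range T, R 𝒢 bad c M t ^ 2 * e t =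
        ∑ t ∈ range T, ∑ S ∈ Fam 𝒢 M, ∑ S' ∈ Fam 𝒢 M,
          (∏ p ∈ (S ∪ S').erase q, H bad c S S' p t) * (H bad c S S' q t * e t) := by
          apply sum_congr rfl
          intro t _
          rw [R_sq, sum_mul]
          apply sum_congr rfl
          intro S _
          rw [sum_mul]
          apply sum_congr rfl
          intro S' _
          rw [← prod_H_erase S S' q t]
          ring
      _ = _ := by
          rw [sum_comm]
          apply sum_congr rfl
          intro S _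
          rw [sum_comm]
  rw [h1, mul_sum, ← sum_sub_distrib]
  simp only [mul_sum, ← sum_sub_distrib]
  calc _ ≤ ∑ S ∈ Fam 𝒢 M, ∑ S' ∈ Fam 𝒢 M, (2 * (M : ℝ) ^ 2 * m) := by
        refine (abs_sum_le_sum_abs _ _).trans ?_
        apply sum_le_sum
        intro S hS
        refine (abs_sum_le_sum_abs _ _).trans ?_
        apply sum_le_sum
        intro S' hS'
        obtain ⟨hS1, hS2⟩ := mem_Fam.mp hS
        obtain ⟨hS1', hS2'⟩ := mem_Fam.mp hS'
        have := D.special hS1 hS1' hS2 hS2' q m (fun t => H bad c S S' q t * e t) hm hcop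
          (((D.per_H hS1 hS1' q).of_dvd hqm).mul hper) (by
            intro t
            rw [abs_mul]
            exact mul_le_one₀ (D.abs_H_le hS1 hS1' q t) (abs_nonneg _) (hb t)) T
        simpa only [mul_sum] using this
    _ = _ := by
        rw [sum_const, sum_const, nsmul_eq_mul, nsmul_eq_mul]
        ring

lemma Data.Ain_nonneg (M : ℕ) : 0 ≤ Ain 𝒢 c M :=
  sum_nonneg (fun _ hS => prod_nonneg (fun _ hp => D.β_nonneg ((mem_Fam.mp hS).1 hp)))

/-- The total mass. -/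
theorem Data.lower (M T : ℕ) :
    T * Ain 𝒢 c M - ((Fam 𝒢 M).card : ℝ) ^ 2 * (2 * (M : ℝ) ^ 2) ≤
      ∑ t ∈ range T, R 𝒢 bad c M t ^ 2 := by
  classical
  -- use a modulus equal to one
  have h1 : ∀ S ∈ Fam 𝒢 M, ∀ S' ∈ Fam 𝒢 M,
      |∑ t ∈ range T, (∏ p ∈ S, G bad c p t) * (∏ p ∈ S', G bad c p t) -
        T * (if S = S' then ∏ p ∈ S, β c p else 0)| ≤ 2 * (M : ℝ) ^ 2 := by
    intro S hS S' hS'
    obtain ⟨hS1, hS2⟩ := mem_Fam.mp hS
    obtain ⟨hS1', hS2'⟩ := mem_Fam.mp hS'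
    have h0 : (0 : ℕ) ∉ 𝒢 := fun h => Nat.not_prime_zero (D.prime 0 h)
    have hS0 : 0 ∉ S := fun h => h0 (hS1 h)
    have hS0' : 0 ∉ S' := fun h => h0 (hS1' h)
    have := D.special hS1 hS1' hS2 hS2' 0 1 (fun _ => 1) one_ne_zero
      (fun p _ _ => Nat.coprime_one_left p) (fun _ => rfl) (by simp) T
    have hU0 : (0 : ℕ) ∉ S ∪ S' := by simp [hS0, hS0']
    rw [erase_eq_of_notMem hU0, erase_eq_of_notMem hS0, erase_eq_of_notMem hS0'] at this
    simpa [prod_H] using this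
  have h2 : |∑ t ∈ range T, R 𝒢 bad c M t ^ 2 - T * Ain 𝒢 c M| ≤
      ((Fam 𝒢 M).card : ℝ) ^ 2 * (2 * (M : ℝ) ^ 2) := by
    have e1 : ∑ t ∈ range T, R 𝒢 bad c M t ^ 2 - T * Ain 𝒢 c M =
        ∑ S ∈ Fam 𝒢 M, ∑ S' ∈ Fam 𝒢 M,
          (∑ t ∈ range T, (∏ p ∈ S, G bad c p t) * (∏ p ∈ S', G bad c p t) -
            T * (if S = S' then ∏ p ∈ S, β c p else 0)) := by
      simp only [sum_sub_distrib]
      congr 1
      · simp only [R_sq]
        rw [sum_comm]
        apply sum_congr rfl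
        intro S _
        rw [sum_comm]
      · unfold Ain
        rw [mul_sum]
        apply sum_congr rfl
        intro S hS
        simp only [mul_ite, mul_zero]
        rw [sum_ite_eq, if_pos hS]
    rw [e1]
    calc _ ≤ ∑ S ∈ Fam 𝒢 M, ∑ S' ∈ Fam 𝒢 M, (2 * (M : ℝ) ^ 2) := by
          refine (abs_sum_le_sum_abs _ _).trans ?_
          apply sum_le_sum
          intro S hS
          refine (abs_sum_le_sum_abs _ _).trans ?_
          apply sum_le_sum
          intro S' hS'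
          exact h1 S hS S' hS'
      _ = _ := by
          rw [sum_const, sum_const, nsmul_eq_mul, nsmul_eq_mul]
          ring
  have := (abs_le.mp h2).1
  linarith

/-- The second digit condition. -/
theorem Data.digit (M q J : ℕ) (E : ℕ → Prop) [DecidablePred E] (hq : q.Prime)
    (hE : ∀ t, E (t % (q ^ 2)) ↔ E t)
    (h1 : q ∈ 𝒢 → ∀ r < q, ((range (q ^ 2)).filter (fun t => t % q = r ∧ E t)).card = J)
    (h2 : q ∉ 𝒢 → ((range (q ^ 2)).filter (fun t => E t)).card = J * q) (T : ℕ) :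
    ∑ t ∈ range T, R 𝒢 bad c M t ^ 2 * (if E t then 1 else 0) ≤
      T * ((J / q : ℝ) * Ain 𝒢 c M) +
        ((Fam 𝒢 M).card : ℝ) ^ 2 * (2 * (M : ℝ) ^ 2 * (q : ℝ) ^ 2) := by
  classical
  have hq0 : (q : ℝ) ≠ 0 := by exact_mod_cast hq.ne_zero
  have key := D.approx M q (q ^ 2) (fun t => if E t then 1 else 0) (pow_ne_zero _ hq.ne_zero)
    (fun p hp hpq => Nat.Coprime.pow_left 2
      ((Nat.coprime_primes hq (D.prime p hp)).mpr (Ne.symm hpq)))
    (dvd_pow_self q two_ne_zero) (by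
      intro t
      simp only [hE t]) (by intro t; split_ifs <;> simp) T
  have e1 : ∀ S ∈ Fam 𝒢 M, ∀ S' ∈ Fam 𝒢 M,
      ((if S.erase q = S'.erase q then ∏ p ∈ S.erase q, β c p else 0) *
        ((∑ t ∈ range (q ^ 2), H bad c S S' q t * (if E t then 1 else 0)) / ((q ^ 2 : ℕ) : ℝ))) =
      if S = S' then (J / q : ℝ) * ∏ p ∈ S, β c p else 0 := by
    intro S hS S' hS'
    obtain ⟨hS1, hS2⟩ := mem_Fam.mp hS
    obtain ⟨hS1', hS2'⟩ := mem_Fam.mp hS'
    by_cases hqG : q ∈ 𝒢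
    · -- fibre over residues
      have e2 : ∑ t ∈ range (q ^ 2), H bad c S S' q t * (if E t then 1 else 0) =
          J * ∑ r ∈ range q, H bad c S S' q r := by
        have e3 : ∑ t ∈ range (q ^ 2), H bad c S S' q t * (if E t then 1 else 0) =
            ∑ r ∈ range q, ∑ t ∈ (range (q ^ 2)).filter (fun t => t % q = r),
              H bad c S S' q t * (if E t then 1 else 0) := by
          rw [sum_fiberwise_of_maps_to]
          intro t _
          exact mem_range.mpr (Nat.mod_lt _ hq.pos)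
        rw [e3, mul_sum]
        apply sum_congr rfl
        intro r hr
        have e4 : ∑ t ∈ (range (q ^ 2)).filter (fun t => t % q = r),
            H bad c S S' q t * (if E t then 1 else 0) =
            ∑ t ∈ (range (q ^ 2)).filter (fun t => t % q = r),
            H bad c S S' q r * (if E t then 1 else 0) := by
          apply sum_congr rfl
          intro t ht
          have ht' := (mem_filter.mp ht).2
          rw [← D.per_H hS1 hS1' q t, ht']
        rw [e4, ← mul_sum, sum_boole, filter_filter, h1 hqG r (mem_range.mp hr), mul_comm]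
      rw [e2]
      by_cases hqS : q ∈ S ∪ S'
      · have e5 := D.sum_H hS1 hS1' hqS
        have e6 : (J * ∑ r ∈ range q, H bad c S S' q r) / ((q ^ 2 : ℕ) : ℝ) =
            (J / q : ℝ) * (if q ∈ S ∧ q ∈ S' then β c q else 0) := by
          rw [← e5]
          push_cast
          field_simp
        rw [e6]
        by_cases hSS : S = S'
        · subst hSS
          rw [if_pos rfl, if_pos rfl]
          rw [union_self] at hqS
          rw [if_pos ⟨hqS, hqS⟩, ← mul_prod_erase S (β c) hqS]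
          ring
        · rw [if_neg hSS]
          split_ifs with h3 h4
          · exfalso
            apply hSS
            rw [← insert_erase h4.1, ← insert_erase h4.2, h3]
          · ring
          · ring
          · ring
      · have hqS1 : q ∉ S := fun h => hqS (mem_union_left _ h)
        have hqS2 : q ∉ S' := fun h => hqS (mem_union_right _ h)
        have e7 : ∀ r, H bad c S S' q r = 1 := by
          intro r
          simp [H, hqS1, hqS2]
        rw [erase_eq_of_notMem hqS1, erase_eq_of_notMem hqS2]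
        simp only [e7, sum_const, card_range, nsmul_eq_mul, mul_one]
        split_ifs
        · push_cast
          field_simp
        · ring
    · have hqS1 : q ∉ S := fun h => hqG (hS1 h)
      have hqS2 : q ∉ S' := fun h => hqG (hS1' h)
      have e7 : ∀ r, H bad c S S' q r = 1 := by
        intro r
        simp [H, hqS1, hqS2]
      rw [erase_eq_of_notMem hqS1, erase_eq_of_notMem hqS2]
      simp only [e7, one_mul]
      rw [sum_boole, h2 hqG]
      split_ifs
      · push_cast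
        field_simp
      · ring
  rw [sum_congr rfl (fun S hS => sum_congr rfl (fun S' hS' => e1 S hS S' hS'))] at key
  have e8 : ∑ S ∈ Fam 𝒢 M, ∑ S' ∈ Fam 𝒢 M, (if S = S' then (J / q : ℝ) * ∏ p ∈ S, β c p else 0) =
      (J / q : ℝ) * Ain 𝒢 c M := by
    unfold Ain
    rw [mul_sum]
    apply sum_congr rfl
    intro S hS
    rw [sum_ite_eq, if_pos hS]
  rw [e8] at key
  have := (abs_le.mp key).2
  push_cast at this
  linarith

end Pool.Agent.Lib.MP_d5700b_nt
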